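import Pool.Agent.Helper39.AH.Tamari

/-!
# AH-AmenFree: an amenable group has no nonabelian free subgroup

Proof. Let `f : FreeGroup Bool →* Γ` be injective, `x = of true`, `y = of false`. For a letter
`i : Bool` let `φ_i : FreeGroup Bool → FreeGroup Bool`: `φ_i w = w` if the last letter of the
reduced word `w.toWord` is `(i, true)`, and `φ_i w = w * (of i)⁻¹` otherwise; in the second case
the last letter of the reduced word of `w * (of i)⁻¹` is `(i, false)` (no cancellation). So
`φ_i` is injective (the two cases are distinguished by the last letter of `φ_i w`), and the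
last letter of `φ_i w` belongs to `i`; so the ranges of `φ_true` and `φ_false` are disjoint. In
both cases `φ_i w ∈ {w, w * (of i)⁻¹}`.

Let `ρ : Γ → Γ` be a choice of representatives of the left cosets `g K`, `K = f.range`
(`ρ g ∈ g K`, `ρ g = ρ g'` if `g K = g' K`), so `g = ρ g * f (w g)` for a unique
`w g : FreeGroup Bool`. Put `Φ_i g = ρ g * f (φ_i (w g))`. Then `Φ_i g ∈ {g, g * (f (of i))⁻¹}`,
`Φ_i` is injective, and the ranges of `Φ_true` and `Φ_false` are disjoint. With
`T = {1, (f x)⁻¹, (f y)⁻¹}` we get for every finite `F`: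
`F * T ⊇ Φ_true(F) ∪ Φ_false(F)`, a disjoint union, so `card (F * T) ≥ 2 * card F`,
contradicting `Amen Γ`.
-/

namespace Pool.Agent.Helper39.AH

private lemma AF_cons (i : Bool) (u : FreeGroup Bool) (h : u.toWord.head? ≠ some (i, false)) :
    (FreeGroup.of i * u).toWord = (i, true) :: u.toWord := by
  rw [FreeGroup.toWord_mul, FreeGroup.toWord_of, List.singleton_append, FreeGroup.reduce.cons,
    FreeGroup.reduce_toWord]
  rcases hu : u.toWord with _ | ⟨⟨j, b⟩, l⟩
  · rfl
  · rw [hu] at h
    have h1 : ¬ (i = j ∧ true = !b) := by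
      rintro ⟨rfl, hb⟩
      apply h
      have : b = false := by
        cases b
        · rfl
        · simp at hb
      rw [this]
      rfl
    simp only [h1, if_false]

/-- change of the first letter -/
private def AF_th (i : Bool) (u : FreeGroup Bool) : FreeGroup Bool :=
  if u.toWord.head? = some (i, false) then u else FreeGroup.of i * u

private lemma AF_head (i : Bool) (u : FreeGroup Bool) :
    ∃ b, (AF_th i u).toWord.head? = some (i, b) := by
  unfold AF_th
  by_cases h : u.toWord.head? = some (i, false)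
  · rw [if_pos h]
    exact ⟨false, h⟩
  · rw [if_neg h, AF_cons i u h]
    exact ⟨true, rfl⟩

private lemma AF_inj (i : Bool) {u v : FreeGroup Bool} (h : AF_th i u = AF_th i v) : u = v := by
  unfold AF_th at h
  by_cases hu : u.toWord.head? = some (i, false) <;> by_cases hv : v.toWord.head? = some (i, false)
  · rwa [if_pos hu, if_pos hv] at h
  · rw [if_pos hu, if_neg hv] at h
    rw [h, AF_cons i v hv] at hu
    simp at hu
  · rw [if_neg hu, if_pos hv] at h
    rw [← h, AF_cons i u hu] at hv
    simp at hv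
  · rw [if_neg hu, if_neg hv] at h
    exact mul_left_cancel h

private lemma AF_ne {u v : FreeGroup Bool} : AF_th true u ≠ AF_th false v := by
  intro h
  obtain ⟨b, hb⟩ := AF_head true u
  obtain ⟨c, hc⟩ := AF_head false v
  rw [h, hc] at hb
  simp at hb

private def AF_ph (i : Bool) (w : FreeGroup Bool) : FreeGroup Bool := (AF_th i w⁻¹)⁻¹

private lemma AF_ph_inj (i : Bool) {u v : FreeGroup Bool} (h : AF_ph i u = AF_ph i v) : u = v := by
  unfold AF_ph at h
  exact inv_injective (AF_inj i (inv_injective h))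

private lemma AF_ph_ne {u v : FreeGroup Bool} : AF_ph true u ≠ AF_ph false v := by
  unfold AF_ph
  intro h
  exact AF_ne (inv_injective h)

private lemma AF_ph_eq (i : Bool) (w : FreeGroup Bool) :
    AF_ph i w = w ∨ AF_ph i w = w * (FreeGroup.of i)⁻¹ := by
  unfold AF_ph AF_th
  by_cases h : (w⁻¹).toWord.head? = some (i, false)
  · left
    rw [if_pos h, inv_inv]
  · right
    rw [if_neg h, mul_inv_rev, inv_inv]

open scoped Pointwise in
theorem no_free_of_amen {Γ : Type} [Group Γ] (h : Amen Γ) :
    ¬ ∃ f : FreeGroup Bool →* Γ, Function.Injective f := by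
  classical
  rintro ⟨f, hf⟩
  obtain ⟨ρ, hρ⟩ : ∃ ρ : Γ → Γ, ρ = fun g : Γ => (QuotientGroup.mk g : Γ ⧸ f.range).out := ⟨_, rfl⟩
  have hw : ∀ g, ∃ w : FreeGroup Bool, g = ρ g * f w := by
    intro g
    obtain ⟨⟨_, ⟨u, rfl⟩⟩, hu⟩ := QuotientGroup.mk_out_eq_mul f.range g
    refine ⟨u⁻¹, ?_⟩
    rw [hρ]
    simp only
    rw [hu, map_inv]
    simp
  choose w hw using hw
  have hρρ : ∀ g v, ρ (ρ g * f v) = ρ g := by
    intro g v
    rw [hρ]
    simp only
    congr 1
    have h1 : (((g : Γ ⧸ f.range).out * f v : Γ) : Γ ⧸ f.range) =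
        (((g : Γ ⧸ f.range).out : Γ) : Γ ⧸ f.range) :=
      QuotientGroup.mk_mul_of_mem _ ⟨v, rfl⟩
    rw [h1, QuotientGroup.out_eq']
  obtain ⟨P, hP⟩ : ∃ P : Bool → Γ → Γ, P = fun i g => ρ g * f (AF_ph i (w g)) := ⟨_, rfl⟩
  have hρP : ∀ i g, ρ (P i g) = ρ g := by
    intro i g
    rw [hP]
    exact hρρ g _
  have hkey : ∀ i j g g', P i g = P j g' → AF_ph i (w g) = AF_ph j (w g') ∧ ρ g = ρ g' := by
    intro i j g g' hg
    have h1 : ρ g = ρ g' := by rw [← hρP i g, hg, hρP]
    refine ⟨?_, h1⟩
    apply hf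
    rw [hP] at hg
    simp only at hg
    rw [h1] at hg
    exact mul_left_cancel hg
  have hinj : ∀ i, Function.Injective (P i) := by
    intro i g g' hg
    obtain ⟨h1, h2⟩ := hkey i i g g' hg
    rw [hw g, hw g', h2, AF_ph_inj i h1]
  have hdisj : ∀ g g', P true g ≠ P false g' := by
    intro g g' hg
    exact AF_ph_ne (hkey _ _ g g' hg).1
  obtain ⟨F, hF, hc⟩ := h ({1, (f (FreeGroup.of true))⁻¹, (f (FreeGroup.of false))⁻¹} : Finset Γ)
  have hsub : F.image (P true) ∪ F.image (P false) ⊆
      F * ({1, (f (FreeGroup.of true))⁻¹, (f (FreeGroup.of false))⁻¹} : Finset Γ) := by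
    have h2 : ∀ i g, g ∈ F → P i g ∈
        F * ({1, (f (FreeGroup.of true))⁻¹, (f (FreeGroup.of false))⁻¹} : Finset Γ) := by
      intro i g hg
      rcases AF_ph_eq i (w g) with h3 | h3
      · have h4 : P i g = g * 1 := by
          rw [hP]
          simp only
          rw [h3, mul_one]
          exact (hw g).symm
        rw [h4]
        exact Finset.mul_mem_mul hg (by simp)
      · have h4 : P i g = g * (f (FreeGroup.of i))⁻¹ := by
          rw [hP]
          simp only
          rw [h3, map_mul, map_inv, ← mul_assoc, ← hw g]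
        rw [h4]
        refine Finset.mul_mem_mul hg ?_
        cases i <;> simp
    intro x hx
    rcases Finset.mem_union.1 hx with hx | hx
    · obtain ⟨g, hg, rfl⟩ := Finset.mem_image.1 hx
      exact h2 _ _ hg
    · obtain ⟨g, hg, rfl⟩ := Finset.mem_image.1 hx
      exact h2 _ _ hg
  have hd : Disjoint (F.image (P true)) (F.image (P false)) := by
    rw [Finset.disjoint_left]
    intro x hx hx'
    obtain ⟨g, _, rfl⟩ := Finset.mem_image.1 hx
    obtain ⟨g', _, hg'⟩ := Finset.mem_image.1 hx'
    exact hdisj g g' hg'.symm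
  have hcard := Finset.card_le_card hsub
  rw [Finset.card_union_of_disjoint hd, Finset.card_image_of_injective _ (hinj true),
    Finset.card_image_of_injective _ (hinj false)] at hcard
  omega

end Pool.Agent.Helper39.AH
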