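import Mathlib

/-!
# AH-FreeSub: a free subgroup of an HNN extension which is not ascending

Let `H = HNNExtension A C D e`, so `t * of c = of (e c) * t` for `c ∈ C`, and let
`a ∉ C`, `b ∉ D`. Then `x = t` and `y = of b * t * (of a)⁻¹` generate a free group.

Proof. Letters: `x = of 1 * t^1 * of 1`, `x⁻¹ = of 1 * t^(-1) * of 1`,
`y = of b * t^1 * of a⁻¹`, `y⁻¹ = of a * t^(-1) * of b⁻¹`. So each letter `ℓ = (i, ε)` is
`of (L ℓ) * t^(ε) * of (Rr ℓ)`. For a reduced word `ℓ_1 ... ℓ_n`, `n ≥ 1`, the product is
`of (L ℓ_1) * t^{ε_1} * of (Rr ℓ_1 * L ℓ_2) * t^{ε_2} * ...  * t^{ε_n} * of (Rr ℓ_n)`, i.e. the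
product of the `ReducedWord` with head `L ℓ_1` and list
`(ε_k, Rr ℓ_k * L ℓ_{k+1})`, `(ε_n, Rr ℓ_n)`. The chain condition: let
`ε_k ≠ ε_{k+1}` and `g = Rr ℓ_k * L ℓ_{k+1}`; as the word is reduced, the two letters are
different: one is `x^±` and the other one is `y^±`. Cases:
`x y⁻¹`: `g = a`, `ε_k = 1`, and `a ∉ C = toSubgroup C D 1`. `y x⁻¹`: `g = a⁻¹ ∉ C`.
`x⁻¹ y`: `g = b`, `ε_k = -1`, `b ∉ D = toSubgroup C D (-1)`. `y⁻¹ x`: `g = b⁻¹ ∉ D`.
So by Britton's lemma (`HNNExtension.ReducedWord.toList_eq_nil_of_mem_of_range`) the product is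
not in the range of `of`, in particular it is not `1`. Hence the homomorphism from
`FreeGroup Bool` is injective (`u ≠ 1` has a nonempty reduced word `u.toWord`,
`FreeGroup.isReduced_toWord`, `FreeGroup.mk_toWord`).
-/

namespace Pool.Agent.Helper39.AH

section letters

variable {A : Type} [Group A] {C D : Subgroup A}

/-- The exponent of a letter. -/
private def fsEp (p : Bool × Bool) : ℤˣ := if p.2 then 1 else -1

/-- The left factor of a letter. -/
private def fsL (a b : A) (p : Bool × Bool) : A := if p.1 then 1 else if p.2 then b else a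

/-- The right factor of a letter. -/
private def fsR (a b : A) (p : Bool × Bool) : A := if p.1 then 1 else if p.2 then a⁻¹ else b⁻¹

/-- The list of the reduced word of a word. -/
private def fsW (a b : A) : List (Bool × Bool) → List (ℤˣ × A)
  | [] => []
  | [p] => [(fsEp p, fsR a b p)]
  | p :: q :: l => (fsEp p, fsR a b p * fsL a b q) :: fsW a b (q :: l)

private lemma fsW_cons (a b : A) (p : Bool × Bool) (l : List (Bool × Bool)) :
    ∃ g l', fsW a b (p :: l) = (fsEp p, g) :: l' := by
  cases l with
  | nil => exact ⟨_, _, rfl⟩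
  | cons q l => exact ⟨_, _, rfl⟩

private lemma fs_step {a b : A} (ha : a ∉ C) (hb : b ∉ D) (p q : Bool × Bool)
    (hpq : p.1 = q.1 → p.2 = q.2)
    (h : fsR a b p * fsL a b q ∈ HNNExtension.toSubgroup C D (fsEp p)) : fsEp p = fsEp q := by
  obtain ⟨p1, p2⟩ := p
  obtain ⟨q1, q2⟩ := q
  cases p1 <;> cases p2 <;> cases q1 <;> cases q2 <;>
    simp_all [fsEp, fsR, fsL, HNNExtension.toSubgroup]

private lemma fs_chain {a b : A} (ha : a ∉ C) (hb : b ∉ D) (l : List (Bool × Bool))
    (hl : FreeGroup.IsReduced l) :
    (fsW a b l).IsChain fun x y => x.2 ∈ HNNExtension.toSubgroup C D x.1 → x.1 = y.1 := by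
  induction l with
  | nil => exact List.isChain_nil
  | cons p l ih =>
    cases l with
    | nil => exact List.isChain_singleton _
    | cons q l =>
      have h1 := List.isChain_cons_cons.1 hl
      change List.IsChain _ ((fsEp p, fsR a b p * fsL a b q) :: fsW a b (q :: l))
      refine List.isChain_cons.2 ⟨?_, ih h1.2⟩
      intro y hy hmem
      obtain ⟨g, l', hg⟩ := fsW_cons a b q l
      rw [hg] at hy
      simp only [List.head?_cons, Option.mem_def, Option.some.injEq] at hy
      subst hy
      exact fs_step ha hb p q h1.1 hmem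

private lemma fs_letter (e : C ≃* D) (a b : A) (p : Bool × Bool) :
    (cond p.2 ((fun i : Bool => (if i then HNNExtension.t else
        HNNExtension.of b * HNNExtension.t * (HNNExtension.of a)⁻¹ :
          HNNExtension A C D e)) p.1)
      ((fun i : Bool => (if i then HNNExtension.t else
        HNNExtension.of b * HNNExtension.t * (HNNExtension.of a)⁻¹ :
          HNNExtension A C D e)) p.1)⁻¹) =
      HNNExtension.of (fsL a b p) * (HNNExtension.t ^ (fsEp p : ℤ) *
        HNNExtension.of (fsR a b p)) := by
  obtain ⟨p1, p2⟩ := p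
  cases p1 <;> cases p2 <;> simp [fsEp, fsR, fsL, mul_assoc]

private lemma fs_prod (e : C ≃* D) (a b : A) (p : Bool × Bool) (l : List (Bool × Bool)) :
    (((p :: l).map fun x => cond x.2 ((fun i : Bool => (if i then HNNExtension.t else
        HNNExtension.of b * HNNExtension.t * (HNNExtension.of a)⁻¹ :
          HNNExtension A C D e)) x.1)
      ((fun i : Bool => (if i then HNNExtension.t else
        HNNExtension.of b * HNNExtension.t * (HNNExtension.of a)⁻¹ :
          HNNExtension A C D e)) x.1)⁻¹).prod) =
      HNNExtension.of (fsL a b p) *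
        ((fsW a b (p :: l)).map fun x => (HNNExtension.t ^ (x.1 : ℤ) * HNNExtension.of x.2 :
          HNNExtension A C D e)).prod := by
  induction l generalizing p with
  | nil =>
    rw [List.map_cons, List.prod_cons, fs_letter]
    simp [fsW]
  | cons q l ih =>
    rw [List.map_cons, List.prod_cons, ih q, fs_letter]
    simp only [fsW, List.map_cons, List.prod_cons, map_mul, mul_assoc]

end letters

theorem free_sub {A : Type} [Group A] {C D : Subgroup A} (e : C ≃* D) {a b : A} (ha : a ∉ C)
    (hb : b ∉ D) :
    Function.Injective (FreeGroup.lift fun i : Bool =>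
      (if i then HNNExtension.t else
        HNNExtension.of b * HNNExtension.t * (HNNExtension.of a)⁻¹ : HNNExtension A C D e)) := by
  rw [injective_iff_map_eq_one]
  intro u hu
  rw [← FreeGroup.toWord_eq_nil_iff]
  cases hw : u.toWord with
  | nil => rfl
  | cons p l =>
    exfalso
    have hred : FreeGroup.IsReduced (p :: l) := by
      rw [← hw]
      exact FreeGroup.isReduced_toWord
    have h1 : u = FreeGroup.mk (p :: l) := by
      rw [← hw, FreeGroup.mk_toWord]
    rw [h1, FreeGroup.lift_mk] at hu
    have h2 := fs_prod e a b p l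
    let w : HNNExtension.NormalWord.ReducedWord A C D :=
      { head := fsL a b p
        toList := fsW a b (p :: l)
        chain := fs_chain ha hb (p :: l) hred }
    have h3 : w.prod e = 1 := by
      have h4 : w.prod e = HNNExtension.of (fsL a b p) *
        ((fsW a b (p :: l)).map fun x => (HNNExtension.t ^ (x.1 : ℤ) * HNNExtension.of x.2 :
          HNNExtension A C D e)).prod := rfl
      rw [h4, ← h2]
      exact hu
    have h5 := HNNExtension.ReducedWord.toList_eq_nil_of_mem_of_range e w
      (by rw [h3]; exact one_mem _)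
    obtain ⟨g, l', hg⟩ := fsW_cons a b p l
    have h6 : fsW a b (p :: l) = [] := h5
    rw [hg] at h6
    exact List.cons_ne_nil _ _ h6

end Pool.Agent.Helper39.AH
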