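import Mathlib

/-!
# AH-Window: rewriting elements of exponent sum zero

`win X M` is the subgroup of `FreeGroup (Option X)` generated by the `τ^j x τ^(-j)`,
`0 ≤ j ≤ M`, `x : X`, where `τ = of none`. It increases with `M`.

Proof. For `u : FreeGroup (Option X)` let `k = toAdd (expo u) : ℤ`. Claim: there is `K : ℕ` such
that for all natural numbers `N ≥ K`, `τ^N * u * τ^(-(N + k)) ∈ win X (N + K)` (integer
exponents). For `u = 1` take `K = 0`. For `u = of (some x)`: `k = 0` and `τ^N x τ^(-N)` is a
generator, `K = 0`; the same for the inverse. For `u = τ` or `τ⁻¹` the element is `1`. For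
`u = u' v'` with `k = k' + l'`:
`τ^N u' v' τ^(-(N+k'+l')) = (τ^N u' τ^(-(N+k'))) (τ^(N+k') v' τ^(-(N+k'+l')))`; take
`K = K' + K'' + |k'|`, so that `N + k' ≥ K''` is a natural number and both factors are in
`win X (N + K)`.

For the finite set `T` all exponent sums are zero, so with `N` the maximum (or the sum) of the
`K` of the elements of `T` and `M = 2 N` all the `τ^N * u * τ^(-N)` are in `win X M`.
-/

namespace Pool.Agent.Helper39.AH

/-- The subgroup generated by the conjugates `τ^j x τ^(-j)`, `0 ≤ j ≤ M`. -/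
def win (X : Type) (M : ℕ) : Subgroup (FreeGroup (Option X)) :=
  Subgroup.closure {u | ∃ (x : X) (j : ℕ), j ≤ M ∧
    u = FreeGroup.of none ^ j * FreeGroup.of (some x) * (FreeGroup.of none ^ j)⁻¹}

/-- The exponent sum of the letter `none`. -/
def expo (X : Type) : FreeGroup (Option X) →* Multiplicative ℤ :=
  FreeGroup.lift fun o => o.elim (Multiplicative.ofAdd 1) fun _ => 1

private lemma Window_expo_none (X : Type) :
    Multiplicative.toAdd (expo X (FreeGroup.of none)) = 1 := by
  simp [expo]

private lemma Window_expo_some {X : Type} (x : X) :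
    Multiplicative.toAdd (expo X (FreeGroup.of (some x))) = 0 := by
  simp [expo]

private lemma Window_key {X : Type} (u : FreeGroup (Option X)) :
    ∃ K : ℕ, ∀ N : ℕ, K ≤ N → ∀ M : ℕ, N + K ≤ M →
      (FreeGroup.of none : FreeGroup (Option X)) ^ (N : ℤ) * u *
        FreeGroup.of none ^ (-((N : ℤ) + Multiplicative.toAdd (expo X u))) ∈ win X M := by
  induction u using FreeGroup.induction_on with
  | C1 =>
    refine ⟨0, fun N _ M _ => ?_⟩
    rw [map_one, toAdd_one, add_zero, mul_one, zpow_neg, mul_inv_cancel]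
    exact one_mem _
  | of o =>
    rcases o with _ | x
    · refine ⟨0, fun N _ M _ => ?_⟩
      rw [Window_expo_none, zpow_neg, zpow_add_one, mul_inv_cancel]
      exact one_mem _
    · refine ⟨0, fun N _ M hM => Subgroup.subset_closure ⟨x, N, by omega, ?_⟩⟩
      rw [Window_expo_some, add_zero, zpow_neg, zpow_natCast]
  | inv_of o _ =>
    rcases o with _ | x
    · refine ⟨0, fun N _ M _ => ?_⟩
      rw [map_inv, toAdd_inv, Window_expo_none, zpow_neg, ← sub_eq_add_neg, zpow_sub_one,
        mul_inv_cancel]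
      exact one_mem _
    · refine ⟨0, fun N _ M hM => ?_⟩
      rw [map_inv, toAdd_inv, Window_expo_some, neg_zero, add_zero, zpow_neg, zpow_natCast]
      have h : (FreeGroup.of none : FreeGroup (Option X)) ^ N * FreeGroup.of (some x) *
          (FreeGroup.of none ^ N)⁻¹ ∈ win X M :=
        Subgroup.subset_closure ⟨x, N, by omega, rfl⟩
      have h2 := inv_mem h
      have e : ((FreeGroup.of none : FreeGroup (Option X)) ^ N * FreeGroup.of (some x) *
          (FreeGroup.of none ^ N)⁻¹)⁻¹ = FreeGroup.of none ^ N * (FreeGroup.of (some x))⁻¹ *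
          (FreeGroup.of none ^ N)⁻¹ := by group
      rw [← e]
      exact h2
  | mul x y hx hy =>
    obtain ⟨K, hK⟩ := hx
    obtain ⟨K', hK'⟩ := hy
    set k : ℤ := Multiplicative.toAdd (expo X x) with hk
    refine ⟨K + K' + k.natAbs, fun N hN M hM => ?_⟩
    obtain ⟨N', hN'⟩ : ∃ N' : ℕ, (N' : ℤ) = N + k := ⟨((N : ℤ) + k).toNat, by omega⟩
    have h1 := hK N (by omega) M (by omega)
    have h2 := hK' N' (by omega) M (by omega)
    have h3 := mul_mem h1 h2
    have e : (FreeGroup.of none : FreeGroup (Option X)) ^ (N : ℤ) * x *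
        FreeGroup.of none ^ (-((N : ℤ) + k)) * (FreeGroup.of none ^ (N' : ℤ) * y *
        FreeGroup.of none ^ (-((N' : ℤ) + Multiplicative.toAdd (expo X y)))) =
        FreeGroup.of none ^ (N : ℤ) * (x * y) *
        FreeGroup.of none ^ (-((N : ℤ) + Multiplicative.toAdd (expo X (x * y)))) := by
      rw [map_mul, toAdd_mul, ← hk, hN', ← add_assoc, zpow_neg _ ((N : ℤ) + k)]
      group
    rw [← e]
    exact h3

theorem window {X : Type} (T : Finset (FreeGroup (Option X))) (hT : ∀ u ∈ T, expo X u = 1) :
    ∃ N M : ℕ, ∀ u ∈ T, FreeGroup.of none ^ N * u * (FreeGroup.of none ^ N)⁻¹ ∈ win X M := by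
  choose K hK using fun u : FreeGroup (Option X) => Window_key u
  refine ⟨T.sum K, T.sum K + T.sum K, fun u hu => ?_⟩
  have hle : K u ≤ T.sum K := Finset.single_le_sum (fun _ _ => Nat.zero_le _) hu
  have h := hK u (T.sum K) hle (T.sum K + T.sum K) (by omega)
  rw [hT u hu, toAdd_one, add_zero, zpow_neg, zpow_natCast] at h
  exact h

end Pool.Agent.Helper39.AH
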