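import Pool.Agent.Helper39.AH.KerFG
import Pool.Agent.Helper39.AH.Window
import Pool.Agent.Helper39.AH.FreeSub

/-!
# AH-BS: the theorem of Bieri and Strebel for groups without free subgroups

Proof. Write `Γ = Gp rel`. For `x : X` let `n x = toAdd (χ (gn rel x)) : ℤ` and
`s x = gn rel x * t^(-(n x))`, so `χ (s x) = 1`. Let `π : Option X → Γ`, `none ↦ t`,
`some x ↦ s x`. `lift π` is surjective (its range contains `t`, the `s x`, so the generators
`gn rel x`, which generate: `PresentedGroup.closure_range_of`), and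
`χ (lift π u) = expo X u` for all `u`. By `ker_fg` its kernel is the normal closure of a finite
set `T0`, whose elements have exponent sum zero. By `window` there are `N`, `M` such that
`T = {τ^N * u * (τ^N)⁻¹ | u ∈ T0}` is contained in `win X M`; we may take `M ≥ 1` (`win` is
increasing), and the kernel is also the normal closure of `T` (conjugate generators).

Let `s x j = t^j * s x * (t^j)⁻¹` and let `A`, `C`, `D` be the subgroups of `Γ` generated by the
`s x j` with `0 ≤ j ≤ M`, `0 ≤ j < M`, `1 ≤ j ≤ M`. So `A` is the image of `win X M` under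
`lift π`, it is finitely generated and contained in the kernel of `χ`,
`A ⊔ zpowers t = ⊤` (it contains `t` and the `s x 0`), `C ≤ A`, `D ≤ A`, and `t C t⁻¹ = D`.

Claim: `A ≤ C` or `A ≤ D`. Otherwise there are `a ∈ A`, `a ∉ C` and `b ∈ A`, `b ∉ D`. Let
`C' = C.subgroupOf A`, `D' = D.subgroupOf A`, `e : C' ≃* D'` the conjugation by `t`, and
`H = HNNExtension A C' D' e`. Let `ψ : FreeGroup (Option X) →* H`, `none ↦ t`,
`some x ↦ of (s x)`. For `0 ≤ j ≤ M`, `ψ (τ^j x τ^(-j)) = of (s x j)` (induction on `j`, as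
`s x (j-1) ∈ C` and `HNNExtension.equiv_eq_conj` or `HNNExtension.t_mul_of`). So
`ψ v = of ⟨lift π v, _⟩` for `v ∈ win X M` (`Subgroup.closure_induction`). In particular
`ψ v = 1` for `v ∈ T`, so the kernel of `lift π` is contained in the kernel of `ψ`, and there is
`ψ' : Γ →* H` with `ψ' (lift π v) = ψ v` (`MonoidHom.liftOfSurjective` or
`QuotientGroup.lift`, or by choice). So `ψ' t = t` and `ψ' a' = of a'` for `a' ∈ A`. The
homomorphism `f : FreeGroup Bool →* Γ`, `true ↦ t`, `false ↦ b * t * a⁻¹` composed with `ψ'` is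
the homomorphism of `free_sub`, which is injective, so `f` is injective, contradicting `hF`.

If `A ≤ D` then for `a ∈ A`: `a ∈ D`, so `t⁻¹ * a * t ∈ C ≤ A`. If `A ≤ C` then
`t * a * t⁻¹ ∈ D ≤ A`.
-/

namespace Pool.Agent.Helper39.AH

/-- the subgroup generated by the conjugates of the `s x` by the powers `t^j`, `P j` -/
private def BS_cl {X Γ : Type} [Group Γ] (s : X → Γ) (t : Γ) (P : ℕ → Prop) : Subgroup Γ :=
  Subgroup.closure {g | ∃ (x : X) (j : ℕ), P j ∧ g = t ^ j * s x * (t ^ j)⁻¹}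

private theorem BS_cl_mem {X Γ : Type} [Group Γ] {s : X → Γ} {t : Γ} {P : ℕ → Prop} (x : X)
    {j : ℕ} (hj : P j) : t ^ j * s x * (t ^ j)⁻¹ ∈ BS_cl s t P :=
  Subgroup.subset_closure ⟨x, j, hj, rfl⟩

private theorem BS_cl_mono {X Γ : Type} [Group Γ] {s : X → Γ} {t : Γ} {P Q : ℕ → Prop}
    (h : ∀ j, P j → Q j) : BS_cl s t P ≤ BS_cl s t Q := by
  apply Subgroup.closure_mono
  rintro g ⟨x, j, hj, rfl⟩
  exact ⟨x, j, h j hj, rfl⟩

private theorem BS_up {X Γ : Type} [Group Γ] {s : X → Γ} {t : Γ} {P Q : ℕ → Prop}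
    (h : ∀ j, P j → Q (j + 1)) {c : Γ} (hc : c ∈ BS_cl s t P) : t * c * t⁻¹ ∈ BS_cl s t Q := by
  have h1 : BS_cl s t P ≤ (BS_cl s t Q).comap (MulAut.conj t).toMonoidHom := by
    unfold BS_cl
    rw [Subgroup.closure_le]
    rintro g ⟨x, j, hj, rfl⟩
    change t * (t ^ j * s x * (t ^ j)⁻¹) * t⁻¹ ∈ BS_cl s t Q
    have e : t * (t ^ j * s x * (t ^ j)⁻¹) * t⁻¹ = t ^ (j + 1) * s x * (t ^ (j + 1))⁻¹ := by
      rw [pow_succ']
      group
    rw [e]
    exact BS_cl_mem x (h j hj)
  exact h1 hc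

private theorem BS_down {X Γ : Type} [Group Γ] {s : X → Γ} {t : Γ} {P Q : ℕ → Prop}
    (h : ∀ j, P j → ∃ i, j = i + 1 ∧ Q i) {c : Γ} (hc : c ∈ BS_cl s t P) :
    t⁻¹ * c * t ∈ BS_cl s t Q := by
  have h1 : BS_cl s t P ≤ (BS_cl s t Q).comap (MulAut.conj t⁻¹).toMonoidHom := by
    unfold BS_cl
    rw [Subgroup.closure_le]
    rintro g ⟨x, j, hj, rfl⟩
    obtain ⟨i, rfl, hi⟩ := h j hj
    change t⁻¹ * (t ^ (i + 1) * s x * (t ^ (i + 1))⁻¹) * t⁻¹⁻¹ ∈ BS_cl s t Q
    have e : t⁻¹ * (t ^ (i + 1) * s x * (t ^ (i + 1))⁻¹) * t⁻¹⁻¹ = t ^ i * s x * (t ^ i)⁻¹ := by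
      rw [pow_succ']
      group
    rw [e]
    exact BS_cl_mem x hi
  have h2 := h1 hc
  change t⁻¹ * c * t⁻¹⁻¹ ∈ BS_cl s t Q at h2
  rwa [inv_inv] at h2

private theorem BS_core {X Γ : Type} [Group Γ] (s : X → Γ) (t : Γ) (N M : ℕ)
    (T0 : Set (FreeGroup (Option X)))
    (hsurj : Function.Surjective (FreeGroup.lift fun o : Option X => o.elim t s))
    (hker : (FreeGroup.lift fun o : Option X => o.elim t s).ker = Subgroup.normalClosure T0)
    (hwin : ∀ u ∈ T0, FreeGroup.of none ^ N * u * (FreeGroup.of none ^ N)⁻¹ ∈ win X M)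
    (hF : ¬ ∃ f : FreeGroup Bool →* Γ, Function.Injective f) :
    (∀ a ∈ BS_cl s t (fun j => j ≤ M), t⁻¹ * a * t ∈ BS_cl s t (fun j => j ≤ M)) ∨
      ∀ a ∈ BS_cl s t (fun j => j ≤ M), t * a * t⁻¹ ∈ BS_cl s t (fun j => j ≤ M) := by
  classical
  set L : FreeGroup (Option X) →* Γ := FreeGroup.lift fun o : Option X => o.elim t s with hL
  have hLt : L (FreeGroup.of none) = t := FreeGroup.lift_apply_of
  have hLs : ∀ x, L (FreeGroup.of (some x)) = s x := fun x => FreeGroup.lift_apply_of
  set A := BS_cl s t (fun j => j ≤ M) with hA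
  set C := BS_cl s t (fun j => j < M) with hC
  set D := BS_cl s t (fun j => 1 ≤ j ∧ j ≤ M) with hD
  have hCA : C ≤ A := BS_cl_mono fun j hj => le_of_lt hj
  have hDA : D ≤ A := BS_cl_mono fun j hj => hj.2
  have hCD : ∀ c ∈ C, t * c * t⁻¹ ∈ D := fun c hc =>
    BS_up (fun j hj => ⟨Nat.succ_le_succ (Nat.zero_le j), hj⟩) hc
  have hDC : ∀ d ∈ D, t⁻¹ * d * t ∈ C := fun d hd =>
    BS_down (fun j hj => ⟨j - 1, by omega, by omega⟩) hd
  have key : A ≤ C ∨ A ≤ D := by
    by_contra hcon
    push Not at hcon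
    obtain ⟨h1, h2⟩ := hcon
    obtain ⟨a, haA, haC⟩ := SetLike.not_le_iff_exists.1 h1
    obtain ⟨b, hbA, hbD⟩ := SetLike.not_le_iff_exists.1 h2
    let e : (C.subgroupOf A) ≃* (D.subgroupOf A) :=
      { toFun := fun c => ⟨⟨t * ((c : A) : Γ) * t⁻¹, hDA (hCD _ (Subgroup.mem_subgroupOf.1 c.2))⟩,
          Subgroup.mem_subgroupOf.2 (hCD _ (Subgroup.mem_subgroupOf.1 c.2))⟩
        invFun := fun d => ⟨⟨t⁻¹ * ((d : A) : Γ) * t,
          hCA (hDC _ (Subgroup.mem_subgroupOf.1 d.2))⟩,
          Subgroup.mem_subgroupOf.2 (hDC _ (Subgroup.mem_subgroupOf.1 d.2))⟩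
        left_inv := fun c => by
          apply Subtype.ext
          apply Subtype.ext
          change t⁻¹ * (t * ((c : A) : Γ) * t⁻¹) * t = _
          group
        right_inv := fun d => by
          apply Subtype.ext
          apply Subtype.ext
          change t * (t⁻¹ * ((d : A) : Γ) * t) * t⁻¹ = _
          group
        map_mul' := fun c c' => by
          apply Subtype.ext
          apply Subtype.ext
          change t * (((c : A) : Γ) * ((c' : A) : Γ)) * t⁻¹ =
            (t * ((c : A) : Γ) * t⁻¹) * (t * ((c' : A) : Γ) * t⁻¹)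
          group }
    have hs : ∀ x, s x ∈ A := fun x => by
      have h3 : t ^ 0 * s x * (t ^ 0)⁻¹ ∈ A := BS_cl_mem x (Nat.zero_le M)
      simpa using h3
    let ψ : FreeGroup (Option X) →* HNNExtension A (C.subgroupOf A) (D.subgroupOf A) e :=
      FreeGroup.lift fun o : Option X => o.elim HNNExtension.t
        fun x => HNNExtension.of ⟨s x, hs x⟩
    have hψt : ψ (FreeGroup.of none) = HNNExtension.t := FreeGroup.lift_apply_of
    have hψs : ∀ x, ψ (FreeGroup.of (some x)) = HNNExtension.of ⟨s x, hs x⟩ :=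
      fun x => FreeGroup.lift_apply_of
    -- the conjugates
    have hconj : ∀ (x : X) (j : ℕ) (hj : j ≤ M),
        ψ (FreeGroup.of none ^ j * FreeGroup.of (some x) * (FreeGroup.of none ^ j)⁻¹) =
          HNNExtension.of ⟨t ^ j * s x * (t ^ j)⁻¹, BS_cl_mem x hj⟩ := by
      intro x j
      induction j with
      | zero =>
        intro hj
        rw [pow_zero, one_mul, inv_one, mul_one, hψs]
        congr 1
        apply Subtype.ext
        change s x = t ^ 0 * s x * (t ^ 0)⁻¹
        rw [pow_zero, one_mul, inv_one, mul_one]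
      | succ j ih =>
        intro hj
        have h3 : FreeGroup.of none ^ (j + 1) * FreeGroup.of (some x) *
            (FreeGroup.of none ^ (j + 1))⁻¹ = FreeGroup.of none * (FreeGroup.of none ^ j *
              FreeGroup.of (some x) * (FreeGroup.of none ^ j)⁻¹) * (FreeGroup.of none)⁻¹ := by
          rw [pow_succ']
          group
        rw [h3, map_mul, map_mul, map_inv, hψt, ih (by omega)]
        have hc : (⟨t ^ j * s x * (t ^ j)⁻¹, BS_cl_mem x (by omega)⟩ : A) ∈ C.subgroupOf A :=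
          Subgroup.mem_subgroupOf.2 (BS_cl_mem x (by omega))
        have h4 := HNNExtension.equiv_eq_conj (φ := e) ⟨_, hc⟩
        rw [← h4]
        congr 1
        apply Subtype.ext
        change t * (t ^ j * s x * (t ^ j)⁻¹) * t⁻¹ = t ^ (j + 1) * s x * (t ^ (j + 1))⁻¹
        rw [pow_succ']
        group
    have hwinψ : ∀ v ∈ win X M, ∃ h : L v ∈ A, ψ v = HNNExtension.of ⟨L v, h⟩ := by
      intro v hv
      induction hv using Subgroup.closure_induction with
      | mem v hv =>
        obtain ⟨x, j, hj, rfl⟩ := hv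
        have h3 : L (FreeGroup.of none ^ j * FreeGroup.of (some x) *
            (FreeGroup.of none ^ j)⁻¹) = t ^ j * s x * (t ^ j)⁻¹ := by
          rw [map_mul, map_mul, map_inv, map_pow, hLt, hLs]
        have h4 : L (FreeGroup.of none ^ j * FreeGroup.of (some x) *
            (FreeGroup.of none ^ j)⁻¹) ∈ A := by
          rw [h3]
          exact BS_cl_mem x hj
        refine ⟨h4, ?_⟩
        rw [hconj x j hj]
        congr 1
        exact Subtype.ext h3.symm
      | one =>
        have h3 : L 1 ∈ A := by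
          rw [map_one]
          exact A.one_mem
        refine ⟨h3, ?_⟩
        rw [map_one]
        have h4 : (⟨L 1, h3⟩ : A) = 1 := Subtype.ext (map_one L)
        rw [h4, map_one]
      | mul u v _ _ hu hv =>
        obtain ⟨h3, h4⟩ := hu
        obtain ⟨h5, h6⟩ := hv
        have h7 : L (u * v) ∈ A := by
          rw [map_mul]
          exact A.mul_mem h3 h5
        refine ⟨h7, ?_⟩
        rw [map_mul, h4, h6, ← map_mul]
        congr 1
        exact Subtype.ext (map_mul L u v).symm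
      | inv u _ hu =>
        obtain ⟨h3, h4⟩ := hu
        have h7 : L u⁻¹ ∈ A := by
          rw [map_inv]
          exact A.inv_mem h3
        refine ⟨h7, ?_⟩
        rw [map_inv, h4, ← map_inv]
        congr 1
        exact Subtype.ext (map_inv L u).symm
    have hkerψ : L.ker ≤ ψ.ker := by
      rw [hker]
      apply Subgroup.normalClosure_le_normal
      intro u hu
      obtain ⟨h3, h4⟩ := hwinψ _ (hwin u hu)
      have h5 : L u = 1 := by
        have h6 : u ∈ L.ker := by
          rw [hker]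
          exact Subgroup.subset_normalClosure hu
        exact MonoidHom.mem_ker.1 h6
      have h6 : (⟨L (FreeGroup.of none ^ N * u * (FreeGroup.of none ^ N)⁻¹), h3⟩ : A) = 1 := by
        apply Subtype.ext
        change L (FreeGroup.of none ^ N * u * (FreeGroup.of none ^ N)⁻¹) = 1
        rw [map_mul, map_mul, h5, mul_one, map_inv, mul_inv_cancel]
      rw [h6, map_one, map_mul, map_mul, map_inv] at h4
      change ψ u = 1
      have h7 : ψ u = (ψ (FreeGroup.of none ^ N))⁻¹ *
          (ψ (FreeGroup.of none ^ N) * ψ u * (ψ (FreeGroup.of none ^ N))⁻¹) *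
            ψ (FreeGroup.of none ^ N) := by group
      rw [h7, h4]
      group
    let ψ' : Γ →* HNNExtension A (C.subgroupOf A) (D.subgroupOf A) e :=
      L.liftOfRightInverse (Function.surjInv hsurj) (Function.rightInverse_surjInv hsurj)
        ⟨ψ, hkerψ⟩
    have hψ' : ∀ v, ψ' (L v) = ψ v := fun v =>
      L.liftOfRightInverse_comp_apply (Function.surjInv hsurj)
        (Function.rightInverse_surjInv hsurj) ⟨ψ, hkerψ⟩ v
    have hψ't : ψ' t = HNNExtension.t := by rw [← hLt, hψ', hψt]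
    have hψ'A : ∀ g ∈ A, ∃ h : g ∈ A, ψ' g = HNNExtension.of ⟨g, h⟩ := by
      intro g hg
      have h3 : A ≤ (win X M).map L := by
        rw [hA]
        unfold BS_cl
        rw [Subgroup.closure_le]
        rintro _ ⟨x, j, hj, rfl⟩
        refine ⟨FreeGroup.of none ^ j * FreeGroup.of (some x) * (FreeGroup.of none ^ j)⁻¹,
          Subgroup.subset_closure ⟨x, j, hj, rfl⟩, ?_⟩
        rw [map_mul, map_mul, map_inv, map_pow, hLt, hLs]
      obtain ⟨v, hv, rfl⟩ := h3 hg
      obtain ⟨h4, h5⟩ := hwinψ v hv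
      exact ⟨hg, by rw [hψ', h5]⟩
    have haC' : (⟨a, haA⟩ : A) ∉ C.subgroupOf A := fun h => haC (Subgroup.mem_subgroupOf.1 h)
    have hbD' : (⟨b, hbA⟩ : A) ∉ D.subgroupOf A := fun h => hbD (Subgroup.mem_subgroupOf.1 h)
    have hinj := free_sub e haC' hbD'
    apply hF
    refine ⟨FreeGroup.lift fun i : Bool => if i then t else b * t * a⁻¹, ?_⟩
    have hcomp : ψ'.comp (FreeGroup.lift fun i : Bool => if i then t else b * t * a⁻¹) =
        FreeGroup.lift fun i : Bool => (if i then HNNExtension.t else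
          HNNExtension.of (⟨b, hbA⟩ : A) * HNNExtension.t * (HNNExtension.of (⟨a, haA⟩ : A))⁻¹ :
            HNNExtension A (C.subgroupOf A) (D.subgroupOf A) e) := by
      apply FreeGroup.ext_hom
      intro i
      rw [MonoidHom.comp_apply, FreeGroup.lift_apply_of, FreeGroup.lift_apply_of]
      obtain ⟨_, h3⟩ := hψ'A a haA
      obtain ⟨_, h4⟩ := hψ'A b hbA
      cases i with
      | true =>
        rw [if_pos rfl, if_pos rfl, hψ't]
      | false =>
        rw [if_neg (by simp), if_neg (by simp), map_mul, map_mul, map_inv, hψ't, h3, h4]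
    rw [← hcomp] at hinj
    exact Function.Injective.of_comp (f := ψ') hinj
  rcases key with h | h
  · right
    intro a ha
    exact hDA (hCD a (h ha))
  · left
    intro a ha
    exact hCA (hDC a (h ha))

theorem bieri_strebel {X R : Type} [Finite X] [Finite R] (rel : R → List (X × Bool))
    (χ : Gp rel →* Multiplicative ℤ) (t : Gp rel) (ht : χ t = Multiplicative.ofAdd 1)
    (hF : ¬ ∃ f : FreeGroup Bool →* Gp rel, Function.Injective f) :
    ∃ A : Subgroup (Gp rel), A.FG ∧ A ≤ χ.ker ∧ A ⊔ Subgroup.zpowers t = ⊤ ∧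
      ((∀ a ∈ A, t⁻¹ * a * t ∈ A) ∨ ∀ a ∈ A, t * a * t⁻¹ ∈ A) := by
  classical
  let n : X → ℤ := fun x => Multiplicative.toAdd (χ (gn rel x))
  let s : X → Gp rel := fun x => gn rel x * t ^ (-(n x))
  have hgn : ∀ x, gn rel x = s x * t ^ (n x) := by
    intro x
    change gn rel x = gn rel x * t ^ (-(n x)) * t ^ (n x)
    rw [mul_assoc, ← zpow_add, neg_add_cancel, zpow_zero, mul_one]
  have hχs : ∀ x, χ (s x) = 1 := by
    intro x
    change χ (gn rel x * t ^ (-(n x))) = 1
    rw [map_mul, map_zpow, ht, ← ofAdd_zsmul, zsmul_one, Int.cast_id, ofAdd_neg]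
    change χ (gn rel x) * (Multiplicative.ofAdd (Multiplicative.toAdd (χ (gn rel x))))⁻¹ = 1
    rw [ofAdd_toAdd, mul_inv_cancel]
  let π : Option X → Gp rel := fun o => o.elim t s
  have hsurj : Function.Surjective (FreeGroup.lift π) := by
    rw [← MonoidHom.range_eq_top, eq_top_iff, ← PresentedGroup.closure_range_of,
      Subgroup.closure_le]
    rintro _ ⟨x, rfl⟩
    have h1 : gn rel x = FreeGroup.lift π (FreeGroup.of (some x) * FreeGroup.of none ^ (n x)) := by
      rw [map_mul, map_zpow, FreeGroup.lift_apply_of, FreeGroup.lift_apply_of]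
      exact hgn x
    exact ⟨_, h1.symm⟩
  obtain ⟨T0, hT0⟩ := ker_fg rel π hsurj
  have hexpo : ∀ u, χ (FreeGroup.lift π u) = expo X u := by
    intro u
    have h1 : χ.comp (FreeGroup.lift π) = expo X := by
      apply FreeGroup.ext_hom
      intro o
      rw [MonoidHom.comp_apply, FreeGroup.lift_apply_of]
      unfold expo
      rw [FreeGroup.lift_apply_of]
      cases o with
      | none => exact ht
      | some x => exact hχs x
    exact DFunLike.congr_fun h1 u
  obtain ⟨N, M, hNM⟩ := window T0 (by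
    intro u hu
    have h1 : u ∈ (FreeGroup.lift π).ker := by
      rw [hT0]
      exact Subgroup.subset_normalClosure hu
    rw [← hexpo, MonoidHom.mem_ker.1 h1, map_one])
  refine ⟨BS_cl s t (fun j => j ≤ M), ?_, ?_, ?_, ?_⟩
  · rw [Subgroup.fg_iff]
    refine ⟨_, rfl, ?_⟩
    have h1 : ({g | ∃ (x : X) (j : ℕ), j ≤ M ∧ g = t ^ j * s x * (t ^ j)⁻¹} : Set (Gp rel)) ⊆
        Set.range fun q : X × Fin (M + 1) => t ^ (q.2 : ℕ) * s q.1 * (t ^ (q.2 : ℕ))⁻¹ := by
      rintro _ ⟨x, j, hj, rfl⟩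
      exact ⟨(x, ⟨j, by omega⟩), rfl⟩
    exact (Set.finite_range _).subset h1
  · unfold BS_cl
    rw [Subgroup.closure_le]
    rintro _ ⟨x, j, hj, rfl⟩
    change χ (t ^ j * s x * (t ^ j)⁻¹) = 1
    rw [map_mul, map_mul, hχs, mul_one, map_inv, mul_inv_cancel]
  · rw [eq_top_iff, ← PresentedGroup.closure_range_of, Subgroup.closure_le]
    rintro _ ⟨x, rfl⟩
    have h1 : s x ∈ BS_cl s t (fun j => j ≤ M) := by
      have h3 : t ^ 0 * s x * (t ^ 0)⁻¹ ∈ BS_cl s t (fun j => j ≤ M) :=
        BS_cl_mem x (Nat.zero_le M)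
      simpa using h3
    have h2 : gn rel x ∈ BS_cl s t (fun j => j ≤ M) ⊔ Subgroup.zpowers t := by
      rw [hgn x]
      exact Subgroup.mul_mem_sup h1 (Subgroup.zpow_mem_zpowers t (n x))
    exact h2
  · exact BS_core s t N M T0 hsurj hT0 hNM hF

end Pool.Agent.Helper39.AH
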