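import Pool.Agent.Helper39.AH.Der

/-!
# AH: chains of edge paths
-/

namespace Pool.Agent.Helper39.AH

noncomputable section

variable {X R Γ : Type} [Group Γ]

lemma mk_cons_true (x : X) (l : List (X × Bool)) :
    FreeGroup.mk ((x, true) :: l) = FreeGroup.of x * FreeGroup.mk l := by
  rw [FreeGroup.of, FreeGroup.mul_mk]; rfl

lemma mk_cons_false (x : X) (l : List (X × Bool)) :
    FreeGroup.mk ((x, false) :: l) = (FreeGroup.of x)⁻¹ * FreeGroup.mk l := by
  rw [FreeGroup.of, FreeGroup.inv_mk, FreeGroup.mul_mk]; rfl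

@[simp] lemma ch_nil (σ : X → Γ) (g : Γ) : ch σ [] g = 0 := rfl
lemma ch_cons_true (σ : X → Γ) (x : X) (l : List (X × Bool)) (g : Γ) :
    ch σ ((x, true) :: l) g = Finsupp.single (g, x) 1 + ch σ l (g * σ x) := rfl
lemma ch_cons_false (σ : X → Γ) (x : X) (l : List (X × Bool)) (g : Γ) :
    ch σ ((x, false) :: l) g =
      ch σ l (g * (σ x)⁻¹) - Finsupp.single (g * (σ x)⁻¹, x) 1 := rfl

lemma vs_nil (σ : X → Γ) (g : Γ) : vs σ [] g = [g] := rfl
lemma vs_cons_true (σ : X → Γ) (x : X) (l : List (X × Bool)) (g : Γ) :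
    vs σ ((x, true) :: l) g = g :: vs σ l (g * σ x) := rfl
lemma vs_cons_false (σ : X → Γ) (x : X) (l : List (X × Bool)) (g : Γ) :
    vs σ ((x, false) :: l) g = g :: vs σ l (g * (σ x)⁻¹) := rfl

lemma mem_vs_self (σ : X → Γ) (l : List (X × Bool)) (g : Γ) : g ∈ vs σ l g := by
  cases l with
  | nil => simp [vs_nil]
  | cons p l =>
    obtain ⟨x, b⟩ := p
    cases b <;> simp [vs_cons_true, vs_cons_false]

/-- The boundary as an additive homomorphism. -/
def bdHom (σ : X → Γ) : (Γ × X →₀ ℤ) →+ (Γ →₀ ℤ) where
  toFun := bd σ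
  map_zero' := by simp [bd]
  map_add' z z' := by
    unfold bd
    rw [Finsupp.sum_add_index']
    · intro e; simp
    · intro e m n; simp only [Finsupp.single_add]; abel

lemma bdHom_apply (σ : X → Γ) (z : Γ × X →₀ ℤ) : bdHom σ z = bd σ z := rfl

lemma bd_add (σ : X → Γ) (z z' : Γ × X →₀ ℤ) : bd σ (z + z') = bd σ z + bd σ z' :=
  (bdHom σ).map_add z z'
lemma bd_sub (σ : X → Γ) (z z' : Γ × X →₀ ℤ) : bd σ (z - z') = bd σ z - bd σ z' :=
  (bdHom σ).map_sub z z'

@[simp] lemma bd_single (σ : X → Γ) (e : Γ × X) (n : ℤ) :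
    bd σ (Finsupp.single e n) = Finsupp.single (e.1 * σ e.2) n - Finsupp.single e.1 n := by
  unfold bd
  rw [Finsupp.sum_single_index]
  simp

lemma bd_ch (σ : X → Γ) (l : List (X × Bool)) (g : Γ) :
    bd σ (ch σ l g) =
      Finsupp.single (g * FreeGroup.lift σ (FreeGroup.mk l)) 1 - Finsupp.single g 1 := by
  induction l generalizing g with
  | nil =>
    have : (FreeGroup.mk ([] : List (X × Bool))) = 1 := rfl
    rw [this, ch_nil, map_one, mul_one, sub_self]
    exact (bdHom σ).map_zero
  | cons p l ih =>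
    obtain ⟨x, b⟩ := p
    cases b
    · rw [ch_cons_false, bd_sub, ih, bd_single, mk_cons_false, map_mul, map_inv,
        FreeGroup.lift_apply_of]
      simp only [mul_assoc, inv_mul_cancel, mul_one]
      abel
    · rw [ch_cons_true, bd_add, ih, bd_single, mk_cons_true, map_mul, FreeGroup.lift_apply_of]
      simp only [mul_assoc]
      abel

lemma ch_append (σ : X → Γ) (l l' : List (X × Bool)) (g : Γ) :
    ch σ (l ++ l') g = ch σ l g + ch σ l' (g * FreeGroup.lift σ (FreeGroup.mk l)) := by
  induction l generalizing g with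
  | nil =>
    have : (FreeGroup.mk ([] : List (X × Bool))) = 1 := rfl
    simp [this]
  | cons p l ih =>
    obtain ⟨x, b⟩ := p
    cases b
    · rw [List.cons_append, ch_cons_false, ih, ch_cons_false, mk_cons_false, map_mul, map_inv,
        FreeGroup.lift_apply_of, mul_assoc]
      abel
    · rw [List.cons_append, ch_cons_true, ih, ch_cons_true, mk_cons_true, map_mul,
        FreeGroup.lift_apply_of, mul_assoc]
      abel

/-- The value of a 1-cochain on a 1-chain. -/
def pr (b : X → (Γ →₀ ℤ)) : (Γ × X →₀ ℤ) →+ ℤ :=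
  Finsupp.liftAddHom fun e => AddMonoidHom.mulRight (b e.2 e.1)

@[simp] lemma pr_single (b : X → (Γ →₀ ℤ)) (e : Γ × X) (n : ℤ) :
    pr b (Finsupp.single e n) = n * b e.2 e.1 := by
  simp [pr]

/-- The derivation evaluates the cochain on the path. -/
lemma der_mk_apply (σ : X → Γ) (b : X → (Γ →₀ ℤ)) (l : List (X × Bool)) (g : Γ) :
    der σ b (FreeGroup.mk l) g = pr b (ch σ l g) := by
  induction l generalizing g with
  | nil =>
    have : (FreeGroup.mk ([] : List (X × Bool))) = 1 := rfl
    simp [this]
  | cons p l ih =>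
    obtain ⟨x, c⟩ := p
    cases c
    · rw [ch_cons_false, mk_cons_false, der_mul, der_inv, der_of, map_sub, ← ih, pr_single,
        map_inv, FreeGroup.lift_apply_of]
      simp only [Finsupp.add_apply, Finsupp.neg_apply, sh_apply]
      ring
    · rw [ch_cons_true, mk_cons_true, der_mul, der_of, map_add, ← ih, pr_single,
        FreeGroup.lift_apply_of]
      simp only [Finsupp.add_apply, sh_apply]
      ring

/-- The endpoints of the edges of a path are vertices of the path. -/
lemma mem_vs_of_mem_support (σ : X → Γ) (l : List (X × Bool)) (g : Γ) (e : Γ × X)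
    (he : ch σ l g e ≠ 0) : e.1 ∈ vs σ l g ∧ e.1 * σ e.2 ∈ vs σ l g := by
  classical
  induction l generalizing g with
  | nil => simp at he
  | cons p l ih =>
    obtain ⟨x, b⟩ := p
    cases b
    · rw [ch_cons_false, Finsupp.sub_apply] at he
      rw [vs_cons_false]
      by_cases h1 : ch σ l (g * (σ x)⁻¹) e = 0
      · rw [h1, zero_sub, neg_ne_zero, Finsupp.single_apply] at he
        have h2 : (g * (σ x)⁻¹, x) = e := by
          by_contra h3
          rw [if_neg h3] at he
          exact he rfl
        rw [← h2]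
        exact ⟨List.mem_cons_of_mem _ (mem_vs_self σ l _), by simp⟩
      · have h2 := ih _ h1
        exact ⟨List.mem_cons_of_mem _ h2.1, List.mem_cons_of_mem _ h2.2⟩
    · rw [ch_cons_true, Finsupp.add_apply] at he
      rw [vs_cons_true]
      by_cases h1 : ch σ l (g * σ x) e = 0
      · rw [h1, add_zero, Finsupp.single_apply] at he
        have h2 : (g, x) = e := by
          by_contra h3
          rw [if_neg h3] at he
          exact he rfl
        rw [← h2]
        exact ⟨by simp, List.mem_cons_of_mem _ (mem_vs_self σ l _)⟩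
      · have h2 := ih _ h1
        exact ⟨List.mem_cons_of_mem _ h2.1, List.mem_cons_of_mem _ h2.2⟩

/-- Only finitely many translates of a path contain a given vertex. -/
lemma finite_vs_mem (σ : X → Γ) (l : List (X × Bool)) (v : Γ) :
    {g | v ∈ vs σ l g}.Finite := by
  induction l generalizing v with
  | nil =>
    refine (Set.finite_singleton v).subset ?_
    intro g hg
    simp only [Set.mem_ofPred_eq, vs_nil, List.mem_singleton] at hg
    simp [hg]
  | cons p l ih =>
    obtain ⟨x, b⟩ := p
    cases b
    · have h1 : {g | v ∈ vs σ ((x, false) :: l) g} ⊆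
          {v} ∪ (fun g => g * (σ x)⁻¹) ⁻¹' {g | v ∈ vs σ l g} := by
        intro g hg
        simp only [Set.mem_ofPred_eq, vs_cons_false, List.mem_cons] at hg
        rcases hg with hg | hg
        · left; simp [hg]
        · right; exact hg
      exact ((Set.finite_singleton v).union
        ((ih v).preimage (mul_left_injective _).injOn)).subset h1
    · have h1 : {g | v ∈ vs σ ((x, true) :: l) g} ⊆
          {v} ∪ (fun g => g * σ x) ⁻¹' {g | v ∈ vs σ l g} := by
        intro g hg
        simp only [Set.mem_ofPred_eq, vs_cons_true, List.mem_cons] at hg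
        rcases hg with hg | hg
        · left; simp [hg]
        · right; exact hg
      exact ((Set.finite_singleton v).union
        ((ih v).preimage (mul_left_injective _).injOn)).subset h1

/-- Only finitely many translates of a path meet a given finite set. -/
lemma finite_vs_meet (σ : X → Γ) (l : List (X × Bool)) (C : Finset Γ) :
    {g | ∃ v ∈ vs σ l g, v ∈ C}.Finite := by
  have h : {g | ∃ v ∈ vs σ l g, v ∈ C} ⊆ ⋃ v ∈ C, {g | v ∈ vs σ l g} := by
    rintro g ⟨v, hv, hC⟩
    simp only [Set.mem_iUnion]
    exact ⟨v, hC, hv⟩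
  exact (C.finite_toSet.biUnion fun v _ => finite_vs_mem σ l v).subset h

end

end Pool.Agent.Helper39.AH
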