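import Mathlib

/-!
# AH: homology at infinity of finitely presented ascending HNN extensions. Definitions.

`X` is the set of generators, `rel : R → List (X × Bool)` the relators, `Gp rel` the group
they present. The vertices of the universal cover of the presentation complex are the elements
`g` of `Gp rel`, the edges the pairs `(g, x)` from `g` to `g x`, the two-cells the pairs
`(ρ, g)` whose boundary is the loop at `g` reading `rel ρ`.
-/

namespace Pool.Agent.Helper39.AH

noncomputable section

variable {X R Γ : Type} [Group Γ]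

/-- The group presented by the generators `X` and the relators `rel`. -/
abbrev Gp (rel : R → List (X × Bool)) : Type :=
  PresentedGroup (Set.range fun ρ => FreeGroup.mk (rel ρ))

/-- The generator `x` of the presented group. -/
abbrev gn (rel : R → List (X × Bool)) (x : X) : Gp rel :=
  PresentedGroup.of x

/-- The cellular 1-chain of the edge path which starts at `g` and reads the word `l`. -/
def ch (σ : X → Γ) : List (X × Bool) → Γ → (Γ × X →₀ ℤ)
  | [], _ => 0
  | (x, true) :: l, g => Finsupp.single (g, x) 1 + ch σ l (g * σ x)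
  | (x, false) :: l, g => ch σ l (g * (σ x)⁻¹) - Finsupp.single (g * (σ x)⁻¹, x) 1

/-- The vertices of the edge path which starts at `g` and reads the word `l`. -/
def vs (σ : X → Γ) : List (X × Bool) → Γ → List Γ
  | [], g => [g]
  | (x, true) :: l, g => g :: vs σ l (g * σ x)
  | (x, false) :: l, g => g :: vs σ l (g * (σ x)⁻¹)

/-- The boundary of a 1-chain: the edge `(g, x)` goes to `g x - g`. -/
def bd (σ : X → Γ) (z : Γ × X →₀ ℤ) : Γ →₀ ℤ :=
  z.sum fun e n => Finsupp.single (e.1 * σ e.2) n - Finsupp.single e.1 n

/-- `z` is a 1-cycle of the subcomplex of all cells having no vertex in `C`. -/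
def Z1 (σ : X → Γ) (C : Finset Γ) (z : Γ × X →₀ ℤ) : Prop :=
  bd σ z = 0 ∧ ∀ e ∈ z.support, e.1 ∉ C ∧ e.1 * σ e.2 ∉ C

/-- The 1-boundaries of the subcomplex of all cells having no vertex in `C`: the group
generated by the boundary loops of the two-cells having no vertex in `C`. -/
def B1 (σ : X → Γ) (rel : R → List (X × Bool)) (C : Finset Γ) : AddSubgroup (Γ × X →₀ ℤ) :=
  AddSubgroup.closure {z | ∃ (g : Γ) (ρ : R), (∀ v ∈ vs σ (rel ρ) g, v ∉ C) ∧ z = ch σ (rel ρ) g}

/-- Semistability (the Mittag-Leffler condition) of the inverse system of the groups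
`H_1(U_C)`, where `U_C` is the subcomplex of the universal cover of the presentation complex
formed by the cells having no vertex in the finite set `C`: for every `C` there is `D` such
that for every larger `E` the groups `H_1(U_D)` and `H_1(U_E)` have the same image in
`H_1(U_C)`. -/
def H1Semistable (rel : R → List (X × Bool)) : Prop :=
  ∀ C : Finset (Gp rel), ∃ D : Finset (Gp rel), C ⊆ D ∧ ∀ E : Finset (Gp rel), D ⊆ E →
    ∀ z, Z1 (gn rel) D z → ∃ z', Z1 (gn rel) E z' ∧ z - z' ∈ B1 (gn rel) rel C

/-- A word in the letters `S`, read as a word in the letters `S ∪ {t}`, where `t = none`. -/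
def up {S : Type} (l : List (S × Bool)) : List (Option S × Bool) :=
  l.map fun p => (some p.1, p.2)

/-- The relators `s t w_s⁻¹ t⁻¹` (`s ∈ S`) and `r_ρ` (`ρ ∈ R`) of an ascending HNN extension:
`t⁻¹ s t = w_s`. -/
def ascRel {S R : Type} (w : S → List (S × Bool)) (r : R → List (S × Bool)) :
    S ⊕ R → List (Option S × Bool)
  | Sum.inl s => [(some s, true), (none, true)] ++ FreeGroup.invRev (up (w s)) ++ [(none, false)]
  | Sum.inr ρ => up (r ρ)

/-- The base group: the subgroup of the presented group generated by the letters of `S`. -/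
def base {S R : Type} (w : S → List (S × Bool)) (r : R → List (S × Bool)) :
    Subgroup (Gp (ascRel w r)) :=
  Subgroup.closure (Set.range fun s : S => gn (ascRel w r) (some s))

/-- The integral group ring of `A` embeds in a left Noetherian ring. -/
def NoetherianEmbeddable (A : Type) [Group A] : Prop :=
  ∃ (E : Type) (_ : Ring E) (_ : IsNoetherianRing E) (f : MonoidAlgebra ℤ A →+* E),
    Function.Injective f

/-! ### Finitely supported functions, translation, derivations -/

/-- The action `(u • m)(g) = m (g u)` of the group on finitely supported functions. -/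
def sh (u : Γ) : (Γ →₀ ℤ) →+ (Γ →₀ ℤ) :=
  Finsupp.mapDomain.addMonoidHom fun g => g * u⁻¹

@[simp] lemma sh_apply (u : Γ) (m : Γ →₀ ℤ) (g : Γ) : sh u m g = m (g * u) := by
  have h := Finsupp.mapDomain_apply (f := fun g : Γ => g * u⁻¹) (mul_left_injective u⁻¹) m (g * u)
  simp only [mul_inv_cancel_right] at h
  exact h

@[simp] lemma sh_one (m : Γ →₀ ℤ) : sh (1 : Γ) m = m := by
  ext g; simp

lemma sh_mul (u v : Γ) (m : Γ →₀ ℤ) : sh (u * v) m = sh u (sh v m) := by
  ext g; simp [mul_assoc]

/-- The affine action of the free group: the letter `x` acts by `m ↦ d x + x • m`. -/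
def aff (σ : X → Γ) (d : X → (Γ →₀ ℤ)) : FreeGroup X →* Equiv.Perm (Γ →₀ ℤ) :=
  FreeGroup.lift fun x =>
    { toFun := fun m => d x + sh (σ x) m
      invFun := fun m => sh (σ x)⁻¹ (m - d x)
      left_inv := fun m => by
        ext g; simp
      right_inv := fun m => by
        ext g; simp }

/-- The derivation of the free group with values `d x` on the letters. -/
def der (σ : X → Γ) (d : X → (Γ →₀ ℤ)) (u : FreeGroup X) : Γ →₀ ℤ := aff σ d u 0

lemma aff_of (σ : X → Γ) (d : X → (Γ →₀ ℤ)) (x : X) (m : Γ →₀ ℤ) :
    aff σ d (FreeGroup.of x) m = d x + sh (σ x) m := by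
  simp [aff]

lemma aff_of_inv (σ : X → Γ) (d : X → (Γ →₀ ℤ)) (x : X) (m : Γ →₀ ℤ) :
    aff σ d (FreeGroup.of x)⁻¹ m = sh (σ x)⁻¹ (m - d x) := by
  rw [map_inv]
  simp [aff, Equiv.Perm.inv_def]

end

end Pool.Agent.Helper39.AH
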