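import Pool.Agent.Helper39.AH.Defs

/-!
# AH: derivations of the free group, and the data of an ascending HNN extension
-/

namespace Pool.Agent.Helper39.AH

noncomputable section

variable {X R S Γ G : Type} [Group Γ] [Group G]

lemma aff_apply (σ : X → Γ) (d : X → (Γ →₀ ℤ)) (u : FreeGroup X) (m : Γ →₀ ℤ) :
    aff σ d u m = der σ d u + sh (FreeGroup.lift σ u) m := by
  induction u using FreeGroup.induction_on generalizing m with
  | C1 => simp [der]
  | of x => simp [der, aff_of]
  | inv_of x _ =>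
    rw [der, aff_of_inv, aff_of_inv]
    ext g; simp [sub_eq_add_neg]; abel
  | mul x y hx hy =>
    rw [der, map_mul, Equiv.Perm.mul_apply, Equiv.Perm.mul_apply, hy, hx, hx (aff σ d y 0),
      map_mul, sh_mul, map_add, ← der, add_assoc]

lemma der_mul (σ : X → Γ) (d : X → (Γ →₀ ℤ)) (u v : FreeGroup X) :
    der σ d (u * v) = der σ d u + sh (FreeGroup.lift σ u) (der σ d v) := by
  rw [der, map_mul, Equiv.Perm.mul_apply, aff_apply σ d u]
  rfl

@[simp] lemma der_of (σ : X → Γ) (d : X → (Γ →₀ ℤ)) (x : X) :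
    der σ d (FreeGroup.of x) = d x := by
  simp [der, aff_of]

@[simp] lemma der_one (σ : X → Γ) (d : X → (Γ →₀ ℤ)) : der σ d 1 = 0 := by
  simp [der]

lemma der_inv (σ : X → Γ) (d : X → (Γ →₀ ℤ)) (u : FreeGroup X) :
    der σ d u⁻¹ = - sh (FreeGroup.lift σ u)⁻¹ (der σ d u) := by
  have h := der_mul σ d u⁻¹ u
  rw [inv_mul_cancel, der_one, map_inv] at h
  exact eq_neg_of_add_eq_zero_left h.symm

/-- Uniqueness: a cocycle is the derivation with the same values on the letters. -/
lemma eq_der (σ : X → Γ) (D : FreeGroup X → (Γ →₀ ℤ))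
    (hD : ∀ u v, D (u * v) = D u + sh (FreeGroup.lift σ u) (D v)) (u : FreeGroup X) :
    D u = der σ (fun x => D (FreeGroup.of x)) u := by
  have h1 : D 1 = 0 := by
    have := hD 1 1
    simpa using this
  induction u using FreeGroup.induction_on with
  | C1 => rw [h1, der_one]
  | of x => rw [der_of]
  | inv_of x _ =>
    have h := hD (FreeGroup.of x)⁻¹ (FreeGroup.of x)
    rw [inv_mul_cancel, h1, map_inv] at h
    rw [der_inv, der_of]
    exact eq_neg_of_add_eq_zero_left h.symm
  | mul x y hx hy => rw [hD, der_mul, hx, hy]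

/-- The derivation depends additively on its values on the letters. -/
def derA (σ : X → Γ) (u : FreeGroup X) : (X → (Γ →₀ ℤ)) →+ (Γ →₀ ℤ) where
  toFun d := der σ d u
  map_zero' := by
    exact (eq_der σ (fun _ => (0 : Γ →₀ ℤ)) (by intro u v; simp) u).symm
  map_add' d e := by
    have := eq_der σ (fun v => der σ d v + der σ e v)
      (by intro u v; rw [der_mul, der_mul, map_add]; abel) u
    rw [this]
    congr 1
    funext x
    simp

lemma derA_apply (σ : X → Γ) (u : FreeGroup X) (d : X → (Γ →₀ ℤ)) :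
    derA σ u d = der σ d u := rfl

@[simp] lemma der_zero (σ : X → Γ) (u : FreeGroup X) : der σ 0 u = 0 := (derA σ u).map_zero
lemma der_add (σ : X → Γ) (d e : X → (Γ →₀ ℤ)) (u : FreeGroup X) :
    der σ (d + e) u = der σ d u + der σ e u := (derA σ u).map_add d e
lemma der_neg (σ : X → Γ) (d : X → (Γ →₀ ℤ)) (u : FreeGroup X) :
    der σ (-d) u = - der σ d u := (derA σ u).map_neg d
lemma der_sub (σ : X → Γ) (d e : X → (Γ →₀ ℤ)) (u : FreeGroup X) :
    der σ (d - e) u = der σ d u - der σ e u := (derA σ u).map_sub d e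

/-- The coboundary of a compactly supported 1-cochain of the universal cover of the
presentation complex: `cob b ρ g` is the value of `b` on the boundary of the cell `(ρ, g)`. -/
def cob (σ : X → Γ) (rel : R → List (X × Bool)) : (X → (Γ →₀ ℤ)) →+ (R → (Γ →₀ ℤ)) where
  toFun b ρ := der σ b (FreeGroup.mk (rel ρ))
  map_zero' := by funext ρ; simp
  map_add' b c := by funext ρ; simp [der_add]

lemma cob_apply (σ : X → Γ) (rel : R → List (X × Bool)) (b : X → (Γ →₀ ℤ)) (ρ : R) :
    cob σ rel b ρ = der σ b (FreeGroup.mk (rel ρ)) := rfl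

/-- The data of an ascending HNN extension `G` of the group generated by the `σ s`:
the stable letter `t`, the lift `φ` of the endomorphism `a ↦ t⁻¹ a t` to the free group, the
height `ht : G → ℤ` and the additional relators `rr`, which hold in `G`. -/
structure Asc (S R G : Type) [Group G] where
  /-- the generators of the base -/
  σ : S → G
  /-- the stable letter -/
  t : G
  /-- the lift of the endomorphism -/
  φ : FreeGroup S →* FreeGroup S
  /-- the height -/
  ht : G → ℤ
  /-- the relators of the base -/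
  rr : R → FreeGroup S
  qt : ∀ u, FreeGroup.lift σ u * t = t * FreeGroup.lift σ (φ u)
  ht_mul : ∀ g h, ht (g * h) = ht g + ht h
  htσ : ∀ s, ht (σ s) = 0
  htt : ht t = 1
  qr : ∀ ρ, FreeGroup.lift σ (rr ρ) = 1

namespace Asc

variable (a : Asc S R G)

/-- The homomorphism from the free group to `G`. -/
abbrev q : FreeGroup S →* G := FreeGroup.lift a.σ

/-- The normal closure of all the `φ^n (rr ρ)`. -/
def R0 : Subgroup (FreeGroup S) :=
  Subgroup.normalClosure {x | ∃ (n : ℕ) (ρ : R), x = a.φ^[n] (a.rr ρ)}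

/-- The kernel property: `q u = 1` implies `φ^n u ∈ R0` for some `n`. -/
def Ker : Prop := ∀ u, a.q u = 1 → ∃ n : ℕ, a.φ^[n] u ∈ a.R0

/-- The derivation of the free group with values `d s`. -/
abbrev D (d : S → (G →₀ ℤ)) (u : FreeGroup S) : G →₀ ℤ := der a.σ d u

/-- The operator `Th`, `(Th d) s = t • D_d (φ s)`. -/
def Th : (S → (G →₀ ℤ)) →+ (S → (G →₀ ℤ)) where
  toFun d s := sh a.t (der a.σ d (a.φ (FreeGroup.of s)))
  map_zero' := by funext s; simp
  map_add' d e := by funext s; simp [der_add]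

/-- The inner derivation `τ - s • τ`. -/
def dl : (G →₀ ℤ) →+ (S → (G →₀ ℤ)) where
  toFun τ s := τ - sh (a.σ s) τ
  map_zero' := by funext s; simp
  map_add' d e := by funext s; simp only [map_add, Pi.add_apply]; abel

/-- The values of the derivation on the relators. -/
def ev : (S → (G →₀ ℤ)) →+ (R → (G →₀ ℤ)) where
  toFun d ρ := der a.σ d (a.rr ρ)
  map_zero' := by funext s; simp
  map_add' d e := by funext s; simp [der_add]

/-- The coboundary in the coordinates of the ascending HNN extension. -/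
def cobA : (S → (G →₀ ℤ)) × (G →₀ ℤ) →+ (S → (G →₀ ℤ)) × (R → (G →₀ ℤ)) where
  toFun p := (p.1 - a.Th p.1 - a.dl p.2, a.ev p.1)
  map_zero' := by simp
  map_add' p p' := by
    ext1
    · simp only [Prod.fst_add, Prod.snd_add, map_add]; abel
    · simp only [Prod.fst_add, Prod.snd_add, map_add]

lemma Th_apply (d : S → (G →₀ ℤ)) (s : S) :
    a.Th d s = sh a.t (der a.σ d (a.φ (FreeGroup.of s))) := rfl
lemma dl_apply (τ : G →₀ ℤ) (s : S) : a.dl τ s = τ - sh (a.σ s) τ := rfl
lemma ev_apply (d : S → (G →₀ ℤ)) (ρ : R) : a.ev d ρ = der a.σ d (a.rr ρ) := rfl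
lemma cobA_apply (p : (S → (G →₀ ℤ)) × (G →₀ ℤ)) :
    a.cobA p = (p.1 - a.Th p.1 - a.dl p.2, a.ev p.1) := rfl

/-- The derivation of `Th d`. -/
lemma der_Th (d : S → (G →₀ ℤ)) (u : FreeGroup S) :
    der a.σ (a.Th d) u = sh a.t (der a.σ d (a.φ u)) := by
  have h := eq_der a.σ (fun u => sh a.t (der a.σ d (a.φ u)))
    (by
      intro u v
      rw [map_mul, der_mul, map_add, ← sh_mul, ← a.qt, sh_mul]) u
  exact h.symm

/-- The derivation of an inner derivation. -/
lemma der_dl (τ : G →₀ ℤ) (u : FreeGroup S) :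
    der a.σ (a.dl τ) u = τ - sh (a.q u) τ := by
  have h := eq_der a.σ (fun u => τ - sh (a.q u) τ)
    (by
      intro u v
      rw [map_mul, map_sub, sh_mul]
      abel) u
  simp only [FreeGroup.lift_apply_of] at h
  exact h.symm

lemma der_Th_iterate (d : S → (G →₀ ℤ)) (n : ℕ) (u : FreeGroup S) :
    der a.σ (a.Th^[n] d) u = sh (a.t ^ n) (der a.σ d (a.φ^[n] u)) := by
  induction n generalizing d u with
  | zero => simp
  | succ n ih =>
    rw [Function.iterate_succ_apply, ih, der_Th, ← sh_mul, ← Function.iterate_succ_apply' a.φ,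
      pow_succ]

lemma q_iterate (n : ℕ) (u : FreeGroup S) :
    a.q u * a.t ^ n = a.t ^ n * a.q (a.φ^[n] u) := by
  induction n generalizing u with
  | zero => simp
  | succ n ih =>
    rw [pow_succ', ← mul_assoc, a.qt, mul_assoc, ih, Function.iterate_succ_apply, mul_assoc]

lemma q_iterate_eq_one (n : ℕ) (u : FreeGroup S) (hu : a.q u = 1) : a.q (a.φ^[n] u) = 1 := by
  have h := a.q_iterate n u
  rw [hu, one_mul] at h
  exact (mul_eq_left.mp h.symm)

lemma ht_one : a.ht 1 = 0 := by
  have := a.ht_mul 1 1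
  simpa using this

lemma ht_inv (g : G) : a.ht g⁻¹ = - a.ht g := by
  have := a.ht_mul g⁻¹ g
  rw [inv_mul_cancel, ht_one] at this
  omega

lemma ht_q (u : FreeGroup S) : a.ht (a.q u) = 0 := by
  induction u using FreeGroup.induction_on with
  | C1 => rw [map_one, ht_one]
  | of x => rw [FreeGroup.lift_apply_of, a.htσ]
  | inv_of x h => rw [map_inv, ht_inv, h, neg_zero]
  | mul x y hx hy => rw [map_mul, a.ht_mul, hx, hy, add_zero]

lemma ht_pow (n : ℕ) : a.ht (a.t ^ n) = n := by
  induction n with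
  | zero => simpa using a.ht_one
  | succ n ih => rw [pow_succ, a.ht_mul, ih, a.htt]; push_cast; ring

lemma ht_zpow (n : ℤ) : a.ht (a.t ^ n) = n := by
  obtain ⟨m, rfl | rfl⟩ := n.eq_nat_or_neg
  · rw [zpow_natCast, ht_pow]
  · rw [zpow_neg, zpow_natCast, ht_inv, ht_pow]

/-- The derivations which vanish on the kernel of `q`, as functions of the letters. -/
def Z : AddSubgroup (S → (G →₀ ℤ)) where
  carrier := {h | ∀ u, a.q u = 1 → der a.σ h u = 0}
  zero_mem' := by intro u _; simp
  add_mem' := by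
    intro h k hh hk u hu
    rw [der_add, hh u hu, hk u hu, add_zero]
  neg_mem' := by
    intro h hh u hu
    rw [der_neg, hh u hu, neg_zero]

lemma mem_Z (h : S → (G →₀ ℤ)) : h ∈ a.Z ↔ ∀ u, a.q u = 1 → der a.σ h u = 0 := Iff.rfl

lemma Th_mem_Z {h : S → (G →₀ ℤ)} (hh : h ∈ a.Z) : a.Th h ∈ a.Z := by
  intro u hu
  have h1 := a.q_iterate_eq_one 1 u hu
  rw [der_Th, hh _ (by simpa using h1), map_zero]

lemma Th_iterate_mem_Z {h : S → (G →₀ ℤ)} (hh : h ∈ a.Z) (n : ℕ) : a.Th^[n] h ∈ a.Z := by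
  induction n generalizing h with
  | zero => exact hh
  | succ n ih => rw [Function.iterate_succ_apply]; exact ih (a.Th_mem_Z hh)

lemma dl_mem_Z (τ : G →₀ ℤ) : a.dl τ ∈ a.Z := by
  intro u hu
  rw [der_dl, hu, sh_one, sub_self]

/-- For `h ∈ Z` the value of the derivation only depends on `q u`. -/
lemma der_congr {h : S → (G →₀ ℤ)} (hh : h ∈ a.Z) {u v : FreeGroup S} (huv : a.q u = a.q v) :
    der a.σ h u = der a.σ h v := by
  have h1 : der a.σ h (v⁻¹ * u) = 0 := hh _ (by rw [map_mul, map_inv, huv, inv_mul_cancel])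
  have h2 := der_mul a.σ h v (v⁻¹ * u)
  rw [mul_inv_cancel_left, h1, map_zero, add_zero] at h2
  exact h2

/-- The subgroup of those `h` whose derivation vanishes on all `φ^n (rr ρ)`. -/
def Hinf : AddSubgroup (S → (G →₀ ℤ)) where
  carrier := {h | ∀ (n : ℕ) (ρ : R), der a.σ h (a.φ^[n] (a.rr ρ)) = 0}
  zero_mem' := by intro n ρ; simp
  add_mem' := by
    intro h k hh hk n ρ
    rw [der_add, hh n ρ, hk n ρ, add_zero]
  neg_mem' := by
    intro h hh n ρ
    rw [der_neg, hh n ρ, neg_zero]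

lemma mem_Hinf (h : S → (G →₀ ℤ)) :
    h ∈ a.Hinf ↔ ∀ (n : ℕ) (ρ : R), der a.σ h (a.φ^[n] (a.rr ρ)) = 0 := Iff.rfl

lemma Z_le_Hinf : a.Z ≤ a.Hinf := by
  intro h hh n ρ
  exact hh _ (a.q_iterate_eq_one n _ (a.qr ρ))

lemma Th_mem_Hinf {h : S → (G →₀ ℤ)} (hh : h ∈ a.Hinf) : a.Th h ∈ a.Hinf := by
  intro n ρ
  rw [der_Th, ← Function.iterate_succ_apply' a.φ, hh (n + 1) ρ, map_zero]

lemma Th_iterate_mem_Hinf {h : S → (G →₀ ℤ)} (hh : h ∈ a.Hinf) (n : ℕ) :
    a.Th^[n] h ∈ a.Hinf := by
  induction n generalizing h with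
  | zero => exact hh
  | succ n ih => rw [Function.iterate_succ_apply]; exact ih (a.Th_mem_Hinf hh)

/-- Pushing an element of `Hinf` does not change its class. -/
lemma push_Hinf {h : S → (G →₀ ℤ)} (hh : h ∈ a.Hinf) (n : ℕ) :
    ((h - a.Th^[n] h, 0) : (S → (G →₀ ℤ)) × (R → (G →₀ ℤ))) ∈ a.cobA.range := by
  induction n generalizing h with
  | zero =>
    rw [Function.iterate_zero, id, sub_self]
    exact a.cobA.range.zero_mem
  | succ n ih =>
    have h1 := ih (a.Th_mem_Hinf hh)
    have h2 : ((h - a.Th h, 0) : (S → (G →₀ ℤ)) × (R → (G →₀ ℤ))) ∈ a.cobA.range := by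
      refine ⟨(h, 0), ?_⟩
      rw [cobA_apply]
      ext1
      · simp
      · funext ρ
        exact hh 0 ρ
    have h3 := a.cobA.range.add_mem h2 h1
    rw [Function.iterate_succ_apply]
    convert h3 using 1
    ext1 <;> simp

/-- Inner derivations are coboundaries. -/
lemma dl_mem_range (τ : G →₀ ℤ) :
    ((a.dl τ, 0) : (S → (G →₀ ℤ)) × (R → (G →₀ ℤ))) ∈ a.cobA.range := by
  refine ⟨(0, -τ), ?_⟩
  rw [cobA_apply]
  ext1 <;> simp

end Asc

end

end Pool.Agent.Helper39.AH
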