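import Pool.Agent.Helper39.AH.Pd

/-!
# AH-Fip: a class which is never inner is seen by an ultrafilter

Proof of `inner_of_forall`. Let `k = Th^[n] h ∈ Z` and
`C' = C.image (fun x => x * (a.t ^ n)⁻¹)`, so `z ∈ C' ↔ z * t^n ∈ C`. For `z`, `z'` in the same
coset and not in `C'` we have `pd k z z' = pd h (z * t^n) (z' * t^n) = 0` (`pd_Th_iterate`, `hC`
with `x = z * t^n`, `y = z' * t^n`: `x * (t^n)⁻¹ = z`). Choose for every coset of `A = a.q.range`
(element of `G ⧸ a.q.range`) a point `β`, which is not in `C'` if the coset has an element not in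
`C'`; so `β : G → G` with `z⁻¹ * β z ∈ A`, `β z = β z'` if `z⁻¹ * z' ∈ A`, and
`z ∉ C' → β z ∉ C'`. Let `τ z = pd k z (β z)`. If `z ∉ C'`, then `β z ∉ C'` and `τ z = 0`; so
`τ` has finite support (`Finsupp.onFinset C'`). For `s : S`, `z : G`, with
`z' = z * a.σ s`: `β z = β z'` and `k s z = pd k z z' = τ z - τ z'` (`apply_eq_pd`, `pd_trans`,
`pd_symm`), which is `dl τ s z`.

Proof of `exists_ult`. For `n : ℕ` and a finite set `C` let `Y (n, C)` be the set of all `p`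
with `(p.1 * (t^n)⁻¹)⁻¹ * (p.2 * (t^n)⁻¹) ∈ A`, `p.1 ∉ C`, `p.2 ∉ C`, `pd h p.1 p.2 ≠ 0`.
It is nonempty (otherwise `inner_of_forall` applies to `n` and `C`), and
`Y (m, C') ⊆ Y (n, C)` for `n ≤ m`, `C ⊆ C'` (`coset_t_pow` with `m - n`). So the filter
`⨅ i, 𝓟 (Y i)` over `i : ℕ × Finset G` is proper (`Filter.iInf_neBot_of_directed`; the index
set is directed) and there is an ultrafilter `Ω` below it (`Ultrafilter.of`). Every `Y i` is in
`Ω`. For `n : ℕ` the condition `h1` for `-n` is part of `Y (n, ∅)`; for `+n` it follows from the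
one for `0` and `coset_t_pow`. The height: `pd h p.1 p.2 ≠ 0` implies `ht p.1 = K`
(`pd_height`).
-/

namespace Pool.Agent.Helper39.AH

namespace Asc

variable {R S G : Type} [Group G] (a : Asc S R G)

/-- The chosen point of a coset. -/
private noncomputable def Fip_rep (A : Subgroup G) (C' : Finset G) (c : G ⧸ A) : G :=
  open Classical in
  if H : ∃ z : G, (z : G ⧸ A) = c ∧ z ∉ C' then Classical.choose H else Quotient.out c

private lemma Fip_rep_mk (A : Subgroup G) (C' : Finset G) (c : G ⧸ A) :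
    ((Fip_rep A C' c : G) : G ⧸ A) = c := by
  unfold Fip_rep
  split_ifs with H
  · exact (Classical.choose_spec H).1
  · exact Quotient.out_eq c

private lemma Fip_rep_notMem (A : Subgroup G) (C' : Finset G) (z : G) (hz : z ∉ C') :
    Fip_rep A C' (z : G ⧸ A) ∉ C' := by
  have H : ∃ z' : G, (z' : G ⧸ A) = (z : G ⧸ A) ∧ z' ∉ C' := ⟨z, rfl, hz⟩
  unfold Fip_rep
  rw [dif_pos H]
  exact (Classical.choose_spec H).2

theorem inner_of_forall [Finite S] {h : S → (G →₀ ℤ)} (hh : h ∈ a.Z) (n : ℕ) (C : Finset G)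
    (hC : ∀ x y : G, (x * (a.t ^ n)⁻¹)⁻¹ * (y * (a.t ^ n)⁻¹) ∈ a.q.range →
      x ∉ C → y ∉ C → a.pd h x y = 0) :
    ∃ τ : G →₀ ℤ, a.Th^[n] h = a.dl τ := by
  classical
  have hk : a.Th^[n] h ∈ a.Z := a.Th_iterate_mem_Z hh n
  let C' : Finset G := C.image (fun x => x * (a.t ^ n)⁻¹)
  have hC' : ∀ z, z ∉ C' → z * a.t ^ n ∉ C := by
    intro z hz hzC
    exact hz (Finset.mem_image.2 ⟨_, hzC, mul_inv_cancel_right _ _⟩)
  have hpd : ∀ z z' : G, z⁻¹ * z' ∈ a.q.range → z ∉ C' → z' ∉ C' →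
      a.pd (a.Th^[n] h) z z' = 0 := by
    intro z z' h1 h2 h3
    rw [a.pd_Th_iterate hh n h1]
    refine hC _ _ ?_ (hC' z h2) (hC' z' h3)
    rw [mul_inv_cancel_right, mul_inv_cancel_right]
    exact h1
  let β : G → G := fun z => Fip_rep a.q.range C' (z : G ⧸ a.q.range)
  have hβ : ∀ z, z⁻¹ * β z ∈ a.q.range := by
    intro z
    rw [← QuotientGroup.eq]
    exact (Fip_rep_mk a.q.range C' (z : G ⧸ a.q.range)).symm
  have hβC : ∀ z, z ∉ C' → β z ∉ C' := fun z hz => Fip_rep_notMem a.q.range C' z hz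
  let τ : G →₀ ℤ := Finsupp.onFinset C' (fun z => a.pd (a.Th^[n] h) z (β z)) (by
    intro z hz
    by_contra hzC
    exact hz (hpd z (β z) (hβ z) hzC (hβC z hzC)))
  refine ⟨τ, ?_⟩
  funext s
  ext z
  have h1 : z⁻¹ * (z * a.σ s) ∈ a.q.range := by
    rw [inv_mul_cancel_left]
    exact ⟨FreeGroup.of s, FreeGroup.lift_apply_of⟩
  have h2 : β (z * a.σ s) = β z := by
    have : ((z : G) : G ⧸ a.q.range) = ((z * a.σ s : G) : G ⧸ a.q.range) :=
      QuotientGroup.eq.2 h1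
    change Fip_rep a.q.range C' _ = Fip_rep a.q.range C' _
    rw [this]
  have h3 : (β z)⁻¹ * (z * a.σ s) ∈ a.q.range := by
    have := a.q.range.mul_mem (a.q.range.inv_mem (hβ z)) h1
    rw [mul_inv_rev, inv_inv, mul_assoc, mul_inv_cancel_left] at this
    exact this
  have h4 : (z * a.σ s)⁻¹ * β z ∈ a.q.range := by
    have := a.q.range.inv_mem h3
    rwa [mul_inv_rev, inv_inv] at this
  rw [a.apply_eq_pd hk s z, a.pd_trans hk (hβ z) h3, a.pd_symm hk h4, dl_apply,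
    Finsupp.sub_apply, sh_apply]
  change _ = a.pd (a.Th^[n] h) z (β z) - a.pd (a.Th^[n] h) (z * a.σ s) (β (z * a.σ s))
  rw [h2]
  ring

theorem exists_ult [Finite S] {h : S → (G →₀ ℤ)} (hh : h ∈ a.Z) (K : ℤ)
    (hK : ∀ s g, h s g ≠ 0 → a.ht g = K)
    (hn : ∀ (n : ℕ) (τ : G →₀ ℤ), a.Th^[n] h ≠ a.dl τ) :
    ∃ Ω : Ultrafilter (G × G),
      (∀ n : ℤ, ∀ᶠ p in (Ω : Filter (G × G)),
        (p.1 * a.t ^ n)⁻¹ * (p.2 * a.t ^ n) ∈ a.q.range) ∧
      (∀ C : Finset G, ∀ᶠ p in (Ω : Filter (G × G)), p.1 ∉ C ∧ p.2 ∉ C) ∧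
      (∀ᶠ p in (Ω : Filter (G × G)), a.ht p.1 = K) ∧
      ∀ᶠ p in (Ω : Filter (G × G)), a.pd h p.1 p.2 ≠ 0 := by
  classical
  let Y : ℕ × Finset G → Set (G × G) := fun i =>
    {p | (p.1 * (a.t ^ i.1)⁻¹)⁻¹ * (p.2 * (a.t ^ i.1)⁻¹) ∈ a.q.range ∧ p.1 ∉ i.2 ∧
      p.2 ∉ i.2 ∧ a.pd h p.1 p.2 ≠ 0}
  have hY : ∀ i, (Y i).Nonempty := by
    intro i
    by_contra hem
    rw [Set.not_nonempty_iff_eq_empty, Set.eq_empty_iff_forall_notMem] at hem
    obtain ⟨τ, hτ⟩ := a.inner_of_forall hh i.1 i.2 (fun x y h1 h2 h3 => by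
      by_contra h4
      exact hem (x, y) ⟨h1, h2, h3, h4⟩)
    exact hn i.1 τ hτ
  have hanti : ∀ i j, i ≤ j → Y j ⊆ Y i := by
    rintro i j ⟨h1, h2⟩ p ⟨h3, h4, h5, h6⟩
    refine ⟨?_, fun h => h4 (h2 h), fun h => h5 (h2 h), h6⟩
    obtain ⟨d, hd⟩ := Nat.exists_eq_add_of_le h1
    have h7 := a.coset_t_pow h3 d
    have h8 : ∀ x : G, x * (a.t ^ j.1)⁻¹ * a.t ^ d = x * (a.t ^ i.1)⁻¹ := by
      intro x
      rw [hd, Nat.add_comm, pow_add, mul_inv_rev, mul_assoc, mul_assoc, inv_mul_cancel, mul_one]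
    rw [h8, h8] at h7
    exact h7
  let f : Filter (G × G) := ⨅ i, Filter.principal (Y i)
  have hf : f.NeBot := by
    refine Filter.iInf_neBot_of_directed ?_ fun i => Filter.principal_neBot_iff.2 (hY i)
    intro i j
    exact ⟨i ⊔ j, Filter.principal_mono.2 (hanti i _ le_sup_left),
      Filter.principal_mono.2 (hanti j _ le_sup_right)⟩
  have hmem : ∀ i, Y i ∈ (Ultrafilter.of f : Filter (G × G)) := fun i =>
    Ultrafilter.of_le f (Filter.mem_iInf_of_mem i (Filter.mem_principal_self _))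
  refine ⟨Ultrafilter.of f, fun n => ?_, fun C => ?_, ?_, ?_⟩
  · obtain ⟨m, rfl | rfl⟩ := n.eq_nat_or_neg
    · filter_upwards [hmem (0, ∅)] with p hp
      have h1 := hp.1
      rw [pow_zero, inv_one, mul_one, mul_one] at h1
      rw [zpow_natCast]
      exact a.coset_t_pow h1 m
    · filter_upwards [hmem (m, ∅)] with p hp
      rw [zpow_neg, zpow_natCast]
      exact hp.1
  · filter_upwards [hmem (0, C)] with p hp
    exact ⟨hp.2.1, hp.2.2.1⟩
  · filter_upwards [hmem (0, ∅)] with p hp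
    by_contra h1
    exact hp.2.2.2 (a.pd_height hK p.2 h1)
  · filter_upwards [hmem (0, ∅)] with p hp
    exact hp.2.2.2

end Asc

end Pool.Agent.Helper39.AH
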