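import Pool.Agent.Helper39.AH.PdFin

/-!
# AH-Ult: the functional of an ultrafilter

For `h ∈ Z`, `n : ℤ` and `p : G × G` let
`T h n p = a.pd h (p.1 * t^n) (p.2 * t^n)`.

(0) `ul : ((G × G) → ℤ) → ℤ`: if a function `F` has finite range there is exactly one `c : ℤ`
with `F p = c` for `Ω`-almost all `p` (for an ultrafilter, `Ultrafilter.eventually_or`, or
`Ultrafilter.finite_biUnion_mem_iff`); let `ul F = c` (by choice, `0` if there is no such `c`).
`ul` is additive on functions with finite range, and `ul F = ul F'` if `F = F'`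
`Ω`-almost everywhere.

(1) Each `T h n` has finite range (`pd_finite`). For `h` fixed, `ul (T h n) = 0` for all but
finitely many `n`: by `h3` almost all `p` have `ht (p.1 * t^n) = K + n` (`ht_zpow`), and
if `K + n` is not the height of a value of `h` then `pd h (p.1 * t^n) _ = 0`
(`height_bound` and `a.pd_eq`/`der_height`; the proof is the one of `pd_height`).

(2) `μ h = ∑ᶠ n : ℤ, ul (T h n)` is additive (`pd_add`, `finsum_add_distrib`).

(3) `μ (dl τ) = 0`: by `h1` and `pd_dl`, almost everywhere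
`T (dl τ) n p = τ (p.1 * t^n) - τ (p.2 * t^n)`, which is zero as soon as `p.1`, `p.2` are not in
the finite set `{x | x * t^n ∈ τ.support}` (`h2`). So `ul (T (dl τ) n) = 0`.

(4) `μ (Th h) = μ h`: by `h1` and `pd_Th`, almost everywhere `T (Th h) n p = T h (n + 1) p`
(`t^n * t = t^(n+1)`); reindex the sum over `ℤ` (`finsum_comp_equiv (Equiv.addRight 1)`).

(5) If `h` is homogeneous of height `K`, then for `n ≠ 0` and almost all `p`, `T h n p = 0`
(`pd_height`, as `ht (p.1 * t^n) = K + n ≠ K`), so `μ h = ul (T h 0)` (`finsum_eq_single`), and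
`T h 0 p = pd h p.1 p.2`.
-/

namespace Pool.Agent.Helper39.AH

open Classical in
/-- The limit of a function along an ultrafilter. -/
private noncomputable def Ult_ul {α : Type} (Ω : Ultrafilter α) (F : α → ℤ) : ℤ :=
  if H : ∃ c : ℤ, ∀ᶠ p in (Ω : Filter α), F p = c then H.choose else 0

private lemma Ult_unique {α : Type} (Ω : Ultrafilter α) (F : α → ℤ) (c : ℤ)
    (h : ∀ᶠ p in (Ω : Filter α), F p = c) : Ult_ul Ω F = c := by
  have H : ∃ c : ℤ, ∀ᶠ p in (Ω : Filter α), F p = c := ⟨c, h⟩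
  unfold Ult_ul
  rw [dif_pos H]
  obtain ⟨p, hp1, hp2⟩ := (H.choose_spec.and h).exists
  rw [← hp1, hp2]

private lemma Ult_spec {α : Type} (Ω : Ultrafilter α) (F : α → ℤ) (hF : (Set.range F).Finite) :
    ∀ᶠ p in (Ω : Filter α), F p = Ult_ul Ω F := by
  have h1 : Set.range F ∈ Ω.map F := by
    rw [Ultrafilter.mem_map]
    have : F ⁻¹' Set.range F = Set.univ := Set.eq_univ_of_forall fun p => ⟨p, rfl⟩
    rw [this]
    exact Filter.univ_mem
  obtain ⟨c, -, hc⟩ := Ultrafilter.eq_pure_of_finite_mem hF h1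
  have h2 : ({c} : Set ℤ) ∈ Ω.map F := by
    rw [hc]
    exact Ultrafilter.mem_pure.2 rfl
  have h3 : ∀ᶠ p in (Ω : Filter α), F p = c := by
    rw [Ultrafilter.mem_map] at h2
    exact h2
  rw [Ult_unique Ω F c h3]
  exact h3

private lemma Ult_add {α : Type} (Ω : Ultrafilter α) (F F' : α → ℤ) (hF : (Set.range F).Finite)
    (hF' : (Set.range F').Finite) :
    Ult_ul Ω (fun p => F p + F' p) = Ult_ul Ω F + Ult_ul Ω F' := by
  apply Ult_unique
  filter_upwards [Ult_spec Ω F hF, Ult_spec Ω F' hF'] with p hp hp'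
  rw [hp, hp']

private lemma Ult_congr {α : Type} (Ω : Ultrafilter α) (F F' : α → ℤ)
    (hF' : (Set.range F').Finite) (h : ∀ᶠ p in (Ω : Filter α), F p = F' p) :
    Ult_ul Ω F = Ult_ul Ω F' := by
  apply Ult_unique
  filter_upwards [h, Ult_spec Ω F' hF'] with p hp hp'
  rw [hp, hp']

namespace Asc

variable {R S G : Type} [Group G] (a : Asc S R G)

private lemma Ult_fin [Finite S] {h : S → (G →₀ ℤ)} (hh : h ∈ a.Z) (n : ℤ) :
    (Set.range fun p : G × G => a.pd h (p.1 * a.t ^ n) (p.2 * a.t ^ n)).Finite := by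
  refine (a.pd_finite hh).subset ?_
  rintro _ ⟨p, rfl⟩
  exact ⟨(p.1 * a.t ^ n, p.2 * a.t ^ n), rfl⟩

private lemma Ult_supp [Finite S] (Ω : Ultrafilter (G × G)) (K : ℤ)
    (h3 : ∀ᶠ p in (Ω : Filter (G × G)), a.ht p.1 = K) (h : S → (G →₀ ℤ)) :
    (Function.support fun n : ℤ =>
      Ult_ul Ω fun p : G × G => a.pd h (p.1 * a.t ^ n) (p.2 * a.t ^ n)).Finite := by
  obtain ⟨N, hN⟩ := a.height_bound h
  refine (Set.finite_Icc (-(N : ℤ) - K) (N - K)).subset ?_
  intro n hn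
  by_contra hcon
  apply hn
  apply Ult_unique
  filter_upwards [h3] with p hp
  unfold pd
  split_ifs with H
  · by_contra h1
    have h2 := a.der_height (fun k => |k| ≤ N) h hN _ _ h1
    rw [a.ht_mul, a.ht_zpow, hp, abs_le] at h2
    apply hcon
    constructor <;> omega
  · rfl

theorem ult_functional [Finite S] (Ω : Ultrafilter (G × G)) (K : ℤ)
    (h1 : ∀ n : ℤ, ∀ᶠ p in (Ω : Filter (G × G)),
      (p.1 * a.t ^ n)⁻¹ * (p.2 * a.t ^ n) ∈ a.q.range)
    (h2 : ∀ C : Finset G, ∀ᶠ p in (Ω : Filter (G × G)), p.1 ∉ C ∧ p.2 ∉ C)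
    (h3 : ∀ᶠ p in (Ω : Filter (G × G)), a.ht p.1 = K) :
    ∃ μ : a.Z →+ ℤ, (∀ τ : G →₀ ℤ, μ ⟨a.dl τ, a.dl_mem_Z τ⟩ = 0) ∧
      (∀ h : a.Z, μ ⟨a.Th h, a.Th_mem_Z h.2⟩ = μ h) ∧
      ∀ h : a.Z, (∀ s g, (h : S → (G →₀ ℤ)) s g ≠ 0 → a.ht g = K) →
        ∀ᶠ p in (Ω : Filter (G × G)), μ h = a.pd h p.1 p.2 := by
  classical
  let T : (S → (G →₀ ℤ)) → ℤ → G × G → ℤ := fun h n p =>
    a.pd h (p.1 * a.t ^ n) (p.2 * a.t ^ n)
  have hT : ∀ h n p, T h n p = a.pd h (p.1 * a.t ^ n) (p.2 * a.t ^ n) := fun _ _ _ => rfl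
  have hfin : ∀ (h : a.Z) (n : ℤ), (Set.range (T h n)).Finite := fun h n => a.Ult_fin h.2 n
  have hsupp : ∀ h : a.Z, (Function.support fun n : ℤ => Ult_ul Ω (T h n)).Finite :=
    fun h => a.Ult_supp Ω K h3 h
  let μ : a.Z →+ ℤ := AddMonoidHom.mk' (fun h => ∑ᶠ n : ℤ, Ult_ul Ω (T h n)) (by
    intro h k
    rw [← finsum_add_distrib (hsupp h) (hsupp k)]
    apply finsum_congr
    intro n
    rw [← Ult_add Ω _ _ (hfin h n) (hfin k n)]
    congr 1
    funext p
    rw [hT, hT, hT]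
    exact a.pd_add _ _ _ _)
  have hμ : ∀ h : a.Z, μ h = ∑ᶠ n : ℤ, Ult_ul Ω (T h n) := fun h => rfl
  refine ⟨μ, ?_, ?_, ?_⟩
  · intro τ
    rw [hμ]
    apply finsum_eq_zero_of_forall_eq_zero
    intro n
    apply Ult_unique
    filter_upwards [h1 n, h2 (τ.support.image fun x => x * (a.t ^ n)⁻¹)] with p hp1 hp2
    have key : ∀ x : G, x ∉ (τ.support.image fun x => x * (a.t ^ n)⁻¹) →
        τ (x * a.t ^ n) = 0 := by
      intro x hx
      by_contra h4
      apply hx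
      rw [Finset.mem_image]
      exact ⟨x * a.t ^ n, Finsupp.mem_support_iff.2 h4, by group⟩
    change a.pd (a.dl τ) (p.1 * a.t ^ n) (p.2 * a.t ^ n) = 0
    rw [a.pd_dl τ hp1, key _ hp2.1, key _ hp2.2, sub_self]
  · intro h
    rw [hμ, hμ]
    rw [← finsum_comp_equiv (Equiv.addRight (1 : ℤ)) (f := fun n : ℤ => Ult_ul Ω (T h n))]
    apply finsum_congr
    intro n
    apply Ult_congr Ω _ _ (hfin h _)
    filter_upwards [h1 n] with p hp
    change a.pd (a.Th h) (p.1 * a.t ^ n) (p.2 * a.t ^ n) =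
      a.pd h (p.1 * a.t ^ (n + 1)) (p.2 * a.t ^ (n + 1))
    rw [a.pd_Th h.2 hp, mul_assoc, mul_assoc, zpow_add_one]
  · intro h hK
    have h4 : μ h = Ult_ul Ω (T h 0) := by
      rw [hμ]
      apply finsum_eq_single
      intro n hn
      apply Ult_unique
      filter_upwards [h3] with p hp
      apply a.pd_height hK
      rw [a.ht_mul, a.ht_zpow, hp]
      omega
    rw [h4]
    filter_upwards [Ult_spec Ω _ (hfin h 0)] with p hp
    rw [← hp, hT, zpow_zero, mul_one, mul_one]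

end Asc

end Pool.Agent.Helper39.AH
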