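import Pool.Agent.Helper39.AH.Push
import Pool.Agent.Helper39.AH.Ult
import Pool.Agent.Helper39.AH.Fip

/-!
# AH-Ends: derivations of the base group

Proof of `mem_Z_of_cobA`. Let `(h, 0) = cobA (d, τ)` with `h ∈ Z`, so `h = d - Th d - dl τ`. Let
`a.q u = 1`. Then `0 = der h u = der d u - sh t (der d (φ u)) - 0` (`der_sub`, `der_Th`,
`der_dl`), so `der d u g = der d (φ u) (g * t)` for all `g`, and by induction on `n` (as
`q (φ^[n] u) = 1`) `der d u g = der d (φ^[n] u) (g * t ^ n)`. The height of `g * t^n` is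
`ht g + n`, which is larger than all the heights of the values of `d` for large `n`
(`height_bound`), so the right hand side is zero (`der_height`).

Proof of `ends`. By `push_Z` there are `K` and `h' ∈ Z` homogeneous of height `K` with
`(h - h', 0)` in the range. It is enough to show that `(h', 0)` is in the range. Suppose
`Th^[n] h' ≠ dl τ` for all `n`, `τ`. Then `exists_ult` and `ult_functional` give `Ω` and `μ`.
`μ` vanishes on all `k ∈ Z` with `(k, 0) ∈ range`: by `mem_Z_of_cobA`,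
`k = d - Th d - dl τ` with `d ∈ Z`, so `μ k = μ d - μ (Th d) - μ (dl τ) = 0`. So `μ h = 0` by
the hypothesis, and `μ (h - h') = 0`, so `μ h' = 0`. But almost everywhere
`μ h' = pd h' p.1 p.2 ≠ 0` (`Filter.Eventually.and`, `.exists`), a contradiction. So
`Th^[n] h' = dl τ` for some `n`, `τ`, and `(h', 0) = (h' - Th^[n] h', 0) + (dl τ, 0)` is in the
range by `push_Hinf` (`Z_le_Hinf`) and `dl_mem_range`.
-/

namespace Pool.Agent.Helper39.AH

namespace Asc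

variable {R S G : Type} [Group G] (a : Asc S R G)

private lemma Ends_step [Finite S] {h d : S → (G →₀ ℤ)} {τ : G →₀ ℤ} (hh : h ∈ a.Z)
    (hd : h = d - a.Th d - a.dl τ) {u : FreeGroup S} (hu : a.q u = 1) :
    der a.σ d u = sh a.t (der a.σ d (a.φ u)) := by
  have h0 := hh u hu
  rw [hd, der_sub, der_sub, der_Th, der_dl, hu, sh_one, sub_self, sub_zero] at h0
  exact sub_eq_zero.mp h0

private lemma Ends_iter [Finite S] {h d : S → (G →₀ ℤ)} {τ : G →₀ ℤ} (hh : h ∈ a.Z)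
    (hd : h = d - a.Th d - a.dl τ) {u : FreeGroup S} (hu : a.q u = 1) (n : ℕ) :
    der a.σ d u = sh (a.t ^ n) (der a.σ d (a.φ^[n] u)) := by
  induction n with
  | zero => simp
  | succ n ih =>
    rw [ih, Ends_step a hh hd (a.q_iterate_eq_one n u hu), ← sh_mul, ← pow_succ,
      ← Function.iterate_succ_apply' a.φ]

theorem mem_Z_of_cobA [Finite S] {h d : S → (G →₀ ℤ)} {τ : G →₀ ℤ} (hh : h ∈ a.Z)
    (hd : h = d - a.Th d - a.dl τ) : d ∈ a.Z := by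
  intro u hu
  obtain ⟨N, hN⟩ := a.height_bound d
  ext g
  rw [Finsupp.zero_apply]
  by_contra hg
  rw [Ends_iter a hh hd hu (N + 1 + (a.ht g).natAbs), sh_apply] at hg
  have h1 := a.der_height (fun k => |k| ≤ (N : ℤ)) d hN _ _ hg
  rw [a.ht_mul, a.ht_pow] at h1
  have h2 := (abs_le.mp h1).2
  push_cast at h2
  have h3 := neg_abs_le (a.ht g)
  omega

private lemma Ends_vanish [Finite S] (μ : a.Z →+ ℤ)
    (h1 : ∀ τ : G →₀ ℤ, μ ⟨a.dl τ, a.dl_mem_Z τ⟩ = 0)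
    (h2 : ∀ h : a.Z, μ ⟨a.Th h, a.Th_mem_Z h.2⟩ = μ h) (k : a.Z)
    (hk : (((k : S → (G →₀ ℤ)), 0) : (S → (G →₀ ℤ)) × (R → (G →₀ ℤ))) ∈ a.cobA.range) :
    μ k = 0 := by
  obtain ⟨⟨d, τ⟩, hdτ⟩ := hk
  rw [cobA_apply] at hdτ
  have h3 : (k : S → (G →₀ ℤ)) = d - a.Th d - a.dl τ := (congrArg Prod.fst hdτ).symm
  have h4 : d ∈ a.Z := a.mem_Z_of_cobA k.2 h3
  have h5 : k = ⟨d, h4⟩ - ⟨a.Th d, a.Th_mem_Z h4⟩ - ⟨a.dl τ, a.dl_mem_Z τ⟩ := Subtype.ext h3
  have h6 := h2 ⟨d, h4⟩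
  rw [h5, map_sub, map_sub, h1, h6, sub_self, sub_zero]

theorem ends [Finite S] {h : S → (G →₀ ℤ)} (hh : h ∈ a.Z)
    (hμ : ∀ μ : a.Z →+ ℤ,
      (∀ k : a.Z, (((k : S → (G →₀ ℤ)), 0) : (S → (G →₀ ℤ)) × (R → (G →₀ ℤ))) ∈ a.cobA.range →
        μ k = 0) → μ ⟨h, hh⟩ = 0) :
    ((h, 0) : (S → (G →₀ ℤ)) × (R → (G →₀ ℤ))) ∈ a.cobA.range := by
  obtain ⟨K, h', hh', hr, hK⟩ := a.push_Z hh
  have hmain : ((h', 0) : (S → (G →₀ ℤ)) × (R → (G →₀ ℤ))) ∈ a.cobA.range := by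
    by_cases hex : ∃ (n : ℕ) (τ : G →₀ ℤ), a.Th^[n] h' = a.dl τ
    · obtain ⟨n, τ, hn⟩ := hex
      have h1 := a.push_Hinf (a.Z_le_Hinf hh') n
      have h2 := a.dl_mem_range τ
      rw [← hn] at h2
      have h3 := a.cobA.range.add_mem h1 h2
      convert h3 using 1
      ext1 <;> simp
    · push Not at hex
      exfalso
      obtain ⟨Ω, hΩ1, hΩ2, hΩ3, hΩ4⟩ := a.exists_ult hh' K hK hex
      obtain ⟨μ, hμ1, hμ2, hμ3⟩ := a.ult_functional Ω K hΩ1 hΩ2 hΩ3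
      have h1 := hμ μ (Ends_vanish a μ hμ1 hμ2)
      have hdiff : h - h' ∈ a.Z := a.Z.sub_mem hh hh'
      have h2 := Ends_vanish a μ hμ1 hμ2 ⟨h - h', hdiff⟩ hr
      have h3 : (⟨h', hh'⟩ : a.Z) = ⟨h, hh⟩ - ⟨h - h', hdiff⟩ := by
        apply Subtype.ext
        change h' = h - (h - h')
        abel
      have h4 : μ ⟨h', hh'⟩ = 0 := by rw [h3, map_sub, h1, h2, sub_zero]
      obtain ⟨p, hp1, hp2⟩ := ((hμ3 ⟨h', hh'⟩ hK).and hΩ4).exists
      rw [h4] at hp1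
      exact hp2 hp1.symm
  have h5 := a.cobA.range.add_mem hr hmain
  convert h5 using 1
  ext1 <;> simp

end Asc

end Pool.Agent.Helper39.AH
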