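import Mathlib

/-!
# AH: finite rank closures
-/

namespace Pool.Agent.Helper39.AH

/-- The rational closures of the finitely generated subgroups of `A / B` are contained in
finitely generated subgroups. -/
def FR {A : Type} [AddCommGroup A] (B : AddSubgroup A) : Prop :=
  ∀ F : Finset A, ∃ F' : Finset A, ∀ (m : ℤ) (x : A), m ≠ 0 →
    m • x ∈ AddSubgroup.closure (F : Set A) ⊔ B → x ∈ AddSubgroup.closure (F' : Set A) ⊔ B

end Pool.Agent.Helper39.AH
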