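import Pool.Agent.Helper39.AH.Der
import Pool.Agent.Helper39.AH.FRdef

/-!
# AH: left translations, equivariant operators, fillings

A family `σ : X → Γ` and relators `rel` present `Γ` (`Pres σ rel`) if the kernel of
`FreeGroup.lift σ` is the normal closure of the relators.
-/

namespace Pool.Agent.Helper39.AH

noncomputable section

variable {X R Γ : Type} [Group Γ]

/-- The relators `rel` are defining relators for the family `σ`. -/
def Pres (σ : X → Γ) (rel : R → List (X × Bool)) : Prop :=
  (FreeGroup.lift σ).ker = Subgroup.normalClosure (Set.range fun ρ => FreeGroup.mk (rel ρ))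

/-- Left translation `(lt g m)(x) = m (g⁻¹ x)`. -/
def lt (g : Γ) : (Γ →₀ ℤ) →+ (Γ →₀ ℤ) := Finsupp.mapDomain.addMonoidHom fun x => g * x

@[simp] lemma lt_apply (g : Γ) (m : Γ →₀ ℤ) (x : Γ) : lt g m x = m (g⁻¹ * x) := by
  have h := Finsupp.mapDomain_apply (f := fun x : Γ => g * x) (mul_right_injective g) m (g⁻¹ * x)
  simp only [mul_inv_cancel_left] at h
  exact h

lemma sh_lt (u g : Γ) (m : Γ →₀ ℤ) : sh u (lt g m) = lt g (sh u m) := by
  ext x
  simp [mul_assoc]

lemma der_lt (σ : X → Γ) (g : Γ) (b : X → (Γ →₀ ℤ)) (u : FreeGroup X) :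
    der σ (fun x => lt g (b x)) u = lt g (der σ b u) := by
  have h := eq_der σ (fun u => lt g (der σ b u))
    (by
      intro u v
      rw [der_mul, map_add, sh_lt]) u
  simp only [der_of] at h
  exact h.symm

/-- An additive operator from families to functions which commutes with left translations. -/
def Equi (T : (R → (Γ →₀ ℤ)) →+ (Γ →₀ ℤ)) : Prop :=
  ∀ (g : Γ) (c : R → (Γ →₀ ℤ)), T (fun ρ => lt g (c ρ)) = lt g (T c)

/-- Filling: the derivation at a relation is an equivariant operator of the coboundary. -/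
theorem fill (σ : X → Γ) (rel : R → List (X × Bool)) (hP : Pres σ rel) (u : FreeGroup X)
    (hu : FreeGroup.lift σ u = 1) :
    ∃ T : (R → (Γ →₀ ℤ)) →+ (Γ →₀ ℤ), Equi T ∧ ∀ b, T (cob σ rel b) = der σ b u := by
  have hrel : ∀ ρ, FreeGroup.lift σ (FreeGroup.mk (rel ρ)) = 1 := by
    intro ρ
    have : FreeGroup.mk (rel ρ) ∈ (FreeGroup.lift σ).ker := by
      rw [hP]
      exact Subgroup.subset_normalClosure ⟨ρ, rfl⟩
    exact this
  have hmem : u ∈ Subgroup.normalClosure (Set.range fun ρ => FreeGroup.mk (rel ρ)) := by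
    rw [← hP]
    exact hu
  let N : Subgroup (FreeGroup X) :=
    { carrier := {u | FreeGroup.lift σ u = 1 ∧
        ∃ T : (R → (Γ →₀ ℤ)) →+ (Γ →₀ ℤ), Equi T ∧ ∀ b, T (cob σ rel b) = der σ b u}
      one_mem' := ⟨map_one _, 0, fun g c => by simp, fun b => by simp⟩
      mul_mem' := by
        rintro u v ⟨hu, T, hT, hTu⟩ ⟨hv, T', hT', hTv⟩
        refine ⟨by rw [map_mul, hu, hv, one_mul], T + T', ?_, ?_⟩
        · intro g c
          rw [AddMonoidHom.add_apply, AddMonoidHom.add_apply, hT, hT', map_add]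
        · intro b
          rw [AddMonoidHom.add_apply, hTu, hTv, der_mul, hu, sh_one]
      inv_mem' := by
        rintro u ⟨hu, T, hT, hTu⟩
        refine ⟨by rw [map_inv, hu, inv_one], -T, ?_, ?_⟩
        · intro g c
          rw [AddMonoidHom.neg_apply, AddMonoidHom.neg_apply, hT, map_neg]
        · intro b
          rw [AddMonoidHom.neg_apply, hTu, der_inv, hu, inv_one, sh_one] }
  have hN : N.Normal := by
    constructor
    rintro u ⟨hu, T, hT, hTu⟩ v
    refine ⟨by rw [map_mul, map_mul, hu, mul_one, map_inv, mul_inv_cancel],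
      (sh (FreeGroup.lift σ v)).comp T, ?_, ?_⟩
    · intro g c
      rw [AddMonoidHom.comp_apply, AddMonoidHom.comp_apply, hT, sh_lt]
    · intro b
      rw [AddMonoidHom.comp_apply, hTu, der_mul, der_mul, map_mul, hu, mul_one, der_inv]
      ext x
      simp
  have hle : Subgroup.normalClosure (Set.range fun ρ => FreeGroup.mk (rel ρ)) ≤ N := by
    apply Subgroup.normalClosure_le_normal
    rintro _ ⟨ρ, rfl⟩
    refine ⟨hrel ρ, Pi.evalAddMonoidHom _ ρ, ?_, ?_⟩
    · intro g c
      rfl
    · intro b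
      rfl
  exact (hle hmem).2

/-- The cocycles: the families killed by all equivariant operators which kill coboundaries. -/
def ZZ (σ : X → Γ) (rel : R → List (X × Bool)) : AddSubgroup (R → (Γ →₀ ℤ)) where
  carrier := {c | ∀ T : (R → (Γ →₀ ℤ)) →+ (Γ →₀ ℤ), Equi T →
    (∀ b, T (cob σ rel b) = 0) → T c = 0}
  zero_mem' := by intro T _ _; simp
  add_mem' := by
    intro c c' hc hc' T h1 h2
    rw [map_add, hc T h1 h2, hc' T h1 h2, add_zero]
  neg_mem' := by
    intro c hc T h1 h2
    rw [map_neg, hc T h1 h2, neg_zero]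

end

end Pool.Agent.Helper39.AH
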