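import Pool.Agent.Helper39.AH.FRdef

/-!
# AH-ExtFR: the property FR passes to extensions

Proof. Let `F` be a finite set of elements of `A`, `P0 = closure F`. Put
`Pc = {x | ∃ m ≠ 0, m • x ∈ P0 ⊔ B}`, a subgroup containing `B`. By `h1` there is a finite `F1`
such that `Pc ≤ closure F1 ⊔ (B ⊔ range j)` (if `m • x ∈ P0 ⊔ B` then
`m • x ∈ P0 ⊔ (B ⊔ range j)`). Hence the image of `Pc` in `A / (B ⊔ range j)` is contained in
the image of `closure F1`, a finitely generated abelian group, so it is finitely generated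
(Noetherian), and there is a finite set `F2 ⊆ Pc` with
`Pc ≤ closure F2 ⊔ (B ⊔ range j)`. Next, `P0 ⊓ (B ⊔ range j)` is finitely generated (a subgroup
of the finitely generated `P0`), say by `p_i = b_i + j z_i`; let `FZ` be the finite set of the
`z_i`, and let `FZ'` be the finite set which `h2` gives for `FZ`. Put `F' = F2 ∪ j(FZ')`.
Let `x ∈ Pc`. Write `x = y + b + j z` with `y ∈ closure F2 ≤ Pc`, `b ∈ B ≤ Pc`; then `j z ∈ Pc`,
so `m • j z = p + b'` for some `m ≠ 0`, `p ∈ P0`, `b' ∈ B`. Then `p = j (m • z) - b'` is in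
`P0 ⊓ (B ⊔ range j)`, so `p = j z0 + b''` with `z0 ∈ closure FZ`, `b'' ∈ B`, and
`j (m • z - z0) = b' + b'' ∈ B`, i.e. `m • z ∈ closure FZ ⊔ B.comap j`. By `h2`,
`z ∈ closure FZ' ⊔ B.comap j`, so `j z ∈ closure (j(FZ')) ⊔ B` and `x ∈ closure F' ⊔ B`.
-/

namespace Pool.Agent.Helper39.AH

private theorem ExtFR_fg {A : Type} [AddCommGroup A] {S : AddSubgroup A} {F : Finset A}
    (h : S ≤ AddSubgroup.closure (F : Set A)) :
    ∃ F' : Finset A, AddSubgroup.closure (F' : Set A) = S := by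
  have h1 : (AddSubgroup.toIntSubmodule S) ≤ Submodule.span ℤ (F : Set A) := by
    intro x hx
    have h2 : x ∈ AddSubgroup.closure (F : Set A) := h hx
    rw [← Submodule.span_int_eq_addSubgroupClosure] at h2
    exact h2
  obtain ⟨F', hF'⟩ := Submodule.FG.of_le ⟨F, rfl⟩ h1
  refine ⟨F', ?_⟩
  rw [← Submodule.span_int_eq_addSubgroupClosure, hF']
  rfl

/-- A subgroup whose image is contained in a finitely generated group. -/
private theorem ExtFR_lift {A Q : Type} [AddCommGroup A] [AddCommGroup Q] (q : A →+ Q)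
    (P : AddSubgroup A) (F : Finset A) (h : ∀ x ∈ P, q x ∈ AddSubgroup.closure (q '' (F : Set A))) :
    ∃ F2 : Finset A, (∀ y ∈ F2, y ∈ P) ∧
      ∀ x ∈ P, ∃ y ∈ AddSubgroup.closure (F2 : Set A), q x = q y := by
  classical
  have h1 : P.map q ≤ AddSubgroup.closure ((F.image q : Finset Q) : Set Q) := by
    rintro _ ⟨x, hx, rfl⟩
    rw [Finset.coe_image]
    exact h x hx
  obtain ⟨G, hG⟩ := ExtFR_fg h1
  have h2 : ∀ g : Q, ∃ x : A, g ∈ G → x ∈ P ∧ q x = g := by
    intro g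
    by_cases hg : g ∈ G
    · have h3 : g ∈ P.map q := by
        rw [← hG]
        exact AddSubgroup.subset_closure hg
      obtain ⟨x, hx, hxg⟩ := h3
      exact ⟨x, fun _ => ⟨hx, hxg⟩⟩
    · exact ⟨0, fun h => absurd h hg⟩
  choose f hf using h2
  refine ⟨G.image f, ?_, ?_⟩
  · intro y hy
    obtain ⟨g, hg, rfl⟩ := Finset.mem_image.1 hy
    exact (hf g hg).1
  · intro x hx
    have h3 : q x ∈ AddSubgroup.closure (G : Set Q) := by
      rw [hG]
      exact ⟨x, hx, rfl⟩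
    have h4 : AddSubgroup.closure (G : Set Q) ≤
        (AddSubgroup.closure ((G.image f : Finset A) : Set A)).map q := by
      rw [AddSubgroup.closure_le]
      intro g hg
      refine ⟨f g, AddSubgroup.subset_closure ?_, (hf g hg).2⟩
      exact Finset.mem_coe.2 (Finset.mem_image_of_mem f hg)
    obtain ⟨y, hy, hyx⟩ := h4 h3
    exact ⟨y, hy, hyx.symm⟩

theorem FR_ext {A Z : Type} [AddCommGroup A] [AddCommGroup Z] (B : AddSubgroup A) (j : Z →+ A)
    (h1 : FR (B ⊔ j.range)) (h2 : FR (B.comap j)) : FR B := by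
  classical
  intro F
  set P0 := AddSubgroup.closure (F : Set A) with hP0
  set D := B ⊔ j.range with hD
  obtain ⟨F1, hF1⟩ := h1 F
  have hBD : B ≤ D := le_sup_left
  -- the closure
  let Pc : AddSubgroup A :=
    { carrier := {x | ∃ m : ℤ, m ≠ 0 ∧ m • x ∈ P0 ⊔ B}
      zero_mem' := ⟨1, one_ne_zero, by rw [smul_zero]; exact AddSubgroup.zero_mem _⟩
      add_mem' := by
        rintro x y ⟨m, hm, hx⟩ ⟨n, hn, hy⟩
        refine ⟨m * n, mul_ne_zero hm hn, ?_⟩
        have e : (m * n) • (x + y) = n • (m • x) + m • (n • y) := by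
          rw [smul_add, smul_smul, smul_smul, mul_comm n m]
        rw [e]
        exact AddSubgroup.add_mem _ (AddSubgroup.zsmul_mem _ hx _)
          (AddSubgroup.zsmul_mem _ hy _)
      neg_mem' := by
        rintro x ⟨m, hm, hx⟩
        refine ⟨m, hm, ?_⟩
        rw [smul_neg]
        exact AddSubgroup.neg_mem _ hx }
  have hPc : ∀ x, x ∈ Pc ↔ ∃ m : ℤ, m ≠ 0 ∧ m • x ∈ P0 ⊔ B := fun x => Iff.rfl
  have hBPc : ∀ b ∈ B, b ∈ Pc := fun b hb => (hPc b).2 ⟨1, one_ne_zero, by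
    rw [one_smul]
    exact (le_sup_right : B ≤ P0 ⊔ B) hb⟩
  -- finite generation modulo `D`
  obtain ⟨F2, hF2, hF2'⟩ := ExtFR_lift (QuotientAddGroup.mk' D) Pc F1 (by
    rintro x ⟨m, hm, hx⟩
    have h3 : x ∈ AddSubgroup.closure (F1 : Set A) ⊔ D :=
      hF1 m x hm ((sup_le_sup_left hBD P0) hx)
    obtain ⟨y, hy, d, hd, rfl⟩ := AddSubgroup.mem_sup.1 h3
    have h4 : (QuotientAddGroup.mk' D) (y + d) = (QuotientAddGroup.mk' D) y := by
      rw [map_add]
      have h5 : (QuotientAddGroup.mk' D) d = 0 := (QuotientAddGroup.eq_zero_iff d).2 hd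
      rw [h5, add_zero]
    rw [h4, ← AddMonoidHom.map_closure]
    exact ⟨y, hy, rfl⟩)
  have hF2c : AddSubgroup.closure (F2 : Set A) ≤ Pc := by
    rw [AddSubgroup.closure_le]
    exact fun y hy => hF2 y hy
  -- the intersection of `P0` and `D`
  obtain ⟨P, hP⟩ := ExtFR_fg (S := P0 ⊓ D) (F := F) inf_le_left
  have hz : ∀ p : A, ∃ z : Z, p ∈ D → p - j z ∈ B := by
    intro p
    by_cases hp : p ∈ D
    · obtain ⟨b, hb, _, ⟨z, rfl⟩, rfl⟩ := AddSubgroup.mem_sup.1 hp
      exact ⟨z, fun _ => by rw [add_sub_cancel_right]; exact hb⟩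
    · exact ⟨0, fun h => absurd h hp⟩
  choose zf hzf using hz
  obtain ⟨FZ', hFZ'⟩ := h2 (P.image zf)
  have hcl : ∀ p ∈ P0 ⊓ D, ∃ z0 ∈ AddSubgroup.closure ((P.image zf : Finset Z) : Set Z),
      p - j z0 ∈ B := by
    have h3 : AddSubgroup.closure (P : Set A) ≤
        (AddSubgroup.closure ((P.image zf : Finset Z) : Set Z)).map j ⊔ B := by
      rw [AddSubgroup.closure_le]
      intro p hp
      have hpD : p ∈ D := by
        have h4 : p ∈ P0 ⊓ D := by
          rw [← hP]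
          exact AddSubgroup.subset_closure hp
        exact h4.2
      refine AddSubgroup.mem_sup.2 ⟨j (zf p), ⟨zf p, AddSubgroup.subset_closure ?_, rfl⟩,
        p - j (zf p), hzf p hpD, by rw [add_sub_cancel]⟩
      exact Finset.mem_coe.2 (Finset.mem_image_of_mem zf hp)
    intro p hp
    rw [← hP] at hp
    obtain ⟨_, ⟨z0, hz0, rfl⟩, b, hb, rfl⟩ := AddSubgroup.mem_sup.1 (h3 hp)
    exact ⟨z0, hz0, by rw [add_sub_cancel_left]; exact hb⟩
  refine ⟨F2 ∪ FZ'.image j, fun m x hm hx => ?_⟩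
  have hxPc : x ∈ Pc := ⟨m, hm, hx⟩
  obtain ⟨y, hy, hxy⟩ := hF2' x hxPc
  have hxyD : x - y ∈ D := by
    rw [← QuotientAddGroup.eq_zero_iff]
    have h3 : (QuotientAddGroup.mk' D) (x - y) = 0 := by
      rw [map_sub, hxy, sub_self]
    exact h3
  obtain ⟨b, hb, _, ⟨z, rfl⟩, hbz⟩ := AddSubgroup.mem_sup.1 hxyD
  have hjz : j z ∈ Pc := by
    have h3 : j z = x - y - b := by
      rw [← hbz, add_sub_cancel_left]
    rw [h3]
    exact AddSubgroup.sub_mem _ (AddSubgroup.sub_mem _ hxPc (hF2c hy)) (hBPc b hb)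
  obtain ⟨m', hm', hjm⟩ := hjz
  obtain ⟨p, hp, b', hb', hpb⟩ := AddSubgroup.mem_sup.1 hjm
  have hpD : p ∈ D := by
    have h3 : p = m' • j z - b' := by
      rw [← hpb, add_sub_cancel_right]
    rw [h3]
    refine AddSubgroup.sub_mem _ (AddSubgroup.zsmul_mem _ ?_ _) (hBD hb')
    exact (le_sup_right : j.range ≤ D) ⟨z, rfl⟩
  obtain ⟨z0, hz0, hpz⟩ := hcl p ⟨hp, hpD⟩
  have h3 : m' • z ∈ AddSubgroup.closure ((P.image zf : Finset Z) : Set Z) ⊔ B.comap j := by
    refine AddSubgroup.mem_sup.2 ⟨z0, hz0, m' • z - z0, ?_, by rw [add_sub_cancel]⟩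
    rw [AddSubgroup.mem_comap, map_sub, map_zsmul]
    have h4 : m' • j z - j z0 = b' + (p - j z0) := by
      rw [← hpb]
      abel
    rw [h4]
    exact AddSubgroup.add_mem _ hb' hpz
  obtain ⟨z1, hz1, z2, hz2, hzz⟩ := AddSubgroup.mem_sup.1 (hFZ' m' z hm' h3)
  refine AddSubgroup.mem_sup.2 ⟨y + j z1, AddSubgroup.add_mem _ ?_ ?_, b + j z2,
    AddSubgroup.add_mem _ hb hz2, ?_⟩
  · refine (AddSubgroup.closure_mono ?_) hy
    rw [Finset.coe_union]
    exact Set.subset_union_left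
  · have h4 : j z1 ∈ (AddSubgroup.closure (FZ' : Set Z)).map j := ⟨z1, hz1, rfl⟩
    rw [AddMonoidHom.map_closure] at h4
    refine (AddSubgroup.closure_mono ?_) h4
    rw [Finset.coe_union, Finset.coe_image]
    exact Set.subset_union_right
  · have h5 : x = y + (x - y) := by abel
    rw [h5, ← hbz, ← hzz, map_add]
    abel

end Pool.Agent.Helper39.AH
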