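import Mathlib

/-!
# AH-ExtPure: extension of functionals, and torsion elements

Proof of `ext_pure`. `A` has a basis; the finitely many elements of `F` lie in the span `A0` of
finitely many basis vectors `b_j`, `j ∈ J`, and there is a projection `π : A → A0` (put the
other coordinates equal to zero) which is the identity on `A0`. Let `U` be the subgroup of all
`x ∈ A0` with `m • x ∈ closure F` for some `m ≠ 0`; then `U ≤ V` by `hV`. `A0 / U` is finitely
generated and torsion free, so free and projective, so `U` has a retraction `r : A0 → U`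
(`x - s (mk x)` for a section `s` of `A0 → A0 / U`). Put `W = μ ∘ r ∘ π`.

Proof of `torsion_of_functionals`. The group `Q = (closure F ⊔ B) / B` is finitely generated.
If `x ∈ closure F ⊔ B` is killed by all functionals of `closure F ⊔ B` which vanish on `B`, then
the image of `x` in `Q` is killed by all functionals of `Q`, hence it is a torsion element
(`Q` modulo its torsion is free, and functionals separate the points of a free module), so
`m • x ∈ B` for some `m ≠ 0`.
-/

namespace Pool.Agent.Helper39.AH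

private lemma extPure_extend {M : Type} [AddCommGroup M] [Module.Finite ℤ M] (U : AddSubgroup M)
    (hU : ∀ (m : ℤ) (y : M), m ≠ 0 → m • y ∈ U → y ∈ U) (ν : U →+ ℤ) :
    ∃ Φ : M →+ ℤ, ∀ (y : M) (hy : y ∈ U), Φ y = ν ⟨y, hy⟩ := by
  let U' : Submodule ℤ M := AddSubgroup.toIntSubmodule U
  have hmem : ∀ y, y ∈ U' ↔ y ∈ U := fun y => Iff.rfl
  have : Module.IsTorsionFree ℤ (M ⧸ U') := by
    rw [Module.isTorsionFree_iff_smul_eq_zero]
    intro m z hz
    by_cases hm : m = 0
    · exact Or.inl hm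
    · right
      obtain ⟨y, rfl⟩ := Submodule.mkQ_surjective U' z
      rw [← map_smul, Submodule.mkQ_apply, Submodule.Quotient.mk_eq_zero] at hz
      rw [Submodule.mkQ_apply, Submodule.Quotient.mk_eq_zero]
      exact hU m y hm hz
  have : Module.Free ℤ (M ⧸ U') := inferInstance
  obtain ⟨s, hs⟩ := Module.projective_lifting_property U'.mkQ LinearMap.id U'.mkQ_surjective
  have hs' : ∀ z, U'.mkQ (s z) = z := fun z => by
    have := LinearMap.congr_fun hs z
    simpa using this
  have hr : ∀ y : M, y - s (U'.mkQ y) ∈ U := by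
    intro y
    have : U'.mkQ (y - s (U'.mkQ y)) = 0 := by
      rw [map_sub, hs', sub_self]
    rw [Submodule.mkQ_apply, Submodule.Quotient.mk_eq_zero] at this
    exact this
  refine ⟨AddMonoidHom.mk' (fun y => ν ⟨y - s (U'.mkQ y), hr y⟩) ?_, ?_⟩
  · intro a b
    rw [← map_add]
    congr 1
    apply Subtype.ext
    simp only [map_add, AddSubgroup.coe_add]
    abel
  · intro y hy
    have h0 : U'.mkQ y = 0 := by
      rw [Submodule.mkQ_apply, Submodule.Quotient.mk_eq_zero]
      exact hy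
    simp only [AddMonoidHom.mk'_apply]
    congr 1
    apply Subtype.ext
    simp [h0]

theorem ext_pure {A : Type} [AddCommGroup A] [Module.Free ℤ A] (F : Finset A)
    (V : AddSubgroup A)
    (hV : ∀ (m : ℤ) (x : A), m ≠ 0 → m • x ∈ AddSubgroup.closure (F : Set A) → x ∈ V)
    (μ : V →+ ℤ) :
    ∃ W : A →+ ℤ, ∀ (x : A) (hx : x ∈ V), x ∈ AddSubgroup.closure (F : Set A) →
      W x = μ ⟨x, hx⟩ := by
  classical
  let b := Module.Free.chooseBasis ℤ A
  let J : Finset (Module.Free.ChooseBasisIndex ℤ A) := F.biUnion fun f => (b.repr f).support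
  -- the projection and the inclusion
  let e : (J →₀ ℤ) →ₗ[ℤ] A := Finsupp.linearCombination ℤ (fun j : J => b j)
  let π : A →ₗ[ℤ] (J →₀ ℤ) :=
    (Finsupp.lsubtypeDomain (M := ℤ) (R := ℤ)
      (J : Set (Module.Free.ChooseBasisIndex ℤ A))).comp (b.repr : A →ₗ[ℤ] _)
  have hπ : ∀ x (j : J), π x j = b.repr x j := fun x j => rfl
  have hrepr : ∀ (y : J →₀ ℤ) i, b.repr (e y) i = if h : i ∈ J then y ⟨i, h⟩ else 0 := by
    intro y i
    have : b.repr (e y) = Finsupp.mapDomain (fun j : J => (j : Module.Free.ChooseBasisIndex ℤ A)) y := by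
      simp only [e, Finsupp.linearCombination_apply, Finsupp.sum, map_sum, map_smul,
        Module.Basis.repr_self, Finsupp.mapDomain, Finsupp.smul_single, smul_eq_mul, mul_one]
    rw [this]
    split_ifs with h
    · exact Finsupp.mapDomain_apply Subtype.val_injective y ⟨i, h⟩
    · apply Finsupp.mapDomain_of_notMem_range
      rintro ⟨j, hj⟩
      exact h (hj ▸ j.2)
  have hcl : ∀ x ∈ AddSubgroup.closure (F : Set A), e (π x) = x := by
    intro x hx
    have hsupp : ∀ i, i ∉ J → b.repr x i = 0 := by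
      intro i hi
      induction hx using AddSubgroup.closure_induction with
      | mem f hf =>
        by_contra h
        exact hi (Finset.mem_biUnion.2 ⟨f, hf, Finsupp.mem_support_iff.2 h⟩)
      | zero => simp
      | add x y _ _ hx hy => simp [hx, hy]
      | neg x _ hx => simp [hx]
    apply b.repr.injective
    ext i
    rw [hrepr]
    split_ifs with h
    · exact hπ x ⟨i, h⟩
    · exact (hsupp i h).symm
  let U : AddSubgroup (J →₀ ℤ) :=
    { carrier := {y | ∃ m : ℤ, m ≠ 0 ∧ m • e y ∈ AddSubgroup.closure (F : Set A)}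
      zero_mem' := ⟨1, one_ne_zero, by simp⟩
      add_mem' := by
        rintro x y ⟨m, hm, hx⟩ ⟨n, hn, hy⟩
        refine ⟨m * n, mul_ne_zero hm hn, ?_⟩
        have : (m * n) • e (x + y) = n • (m • e x) + m • (n • e y) := by
          rw [map_add, smul_add, smul_smul, smul_smul, mul_comm n m]
        rw [this]
        exact add_mem (zsmul_mem hx n) (zsmul_mem hy m)
      neg_mem' := by
        rintro x ⟨m, hm, hx⟩
        refine ⟨m, hm, ?_⟩
        rw [map_neg, smul_neg]
        exact neg_mem hx }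
  have hUV : ∀ y ∈ U, e y ∈ V := by
    rintro y ⟨m, hm, hy⟩
    exact hV m _ hm hy
  let ν : U →+ ℤ := AddMonoidHom.mk' (fun y => μ ⟨e y, hUV y y.2⟩) (by
    intro y z
    rw [← map_add]
    congr 1
    apply Subtype.ext
    simp)
  obtain ⟨Φ, hΦ⟩ := extPure_extend U (by
    rintro m y hm ⟨n, hn, hy⟩
    refine ⟨n * m, mul_ne_zero hn hm, ?_⟩
    rwa [map_smul, smul_smul] at hy) ν
  refine ⟨Φ.comp π.toAddMonoidHom, ?_⟩
  intro x hx hxF
  have hU : π x ∈ U := ⟨1, one_ne_zero, by rw [one_smul, hcl x hxF]; exact hxF⟩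
  have h1 := hΦ (π x) hU
  have h2 : ν ⟨π x, hU⟩ = μ ⟨x, hx⟩ := by
    change μ ⟨e (π x), _⟩ = μ ⟨x, hx⟩
    congr 1
    apply Subtype.ext
    exact hcl x hxF
  rw [← h2, ← h1]
  rfl

theorem torsion_of_functionals {A : Type} [AddCommGroup A] (F : Finset A) (B : AddSubgroup A)
    (x : A) (hx : x ∈ AddSubgroup.closure (F : Set A) ⊔ B)
    (h : ∀ μ : ↥(AddSubgroup.closure (F : Set A) ⊔ B) →+ ℤ,
      (∀ (b : A) (hb : b ∈ AddSubgroup.closure (F : Set A) ⊔ B), b ∈ B → μ ⟨b, hb⟩ = 0) →
        μ ⟨x, hx⟩ = 0) :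
    ∃ m : ℤ, m ≠ 0 ∧ m • x ∈ B := by
  classical
  let P : AddSubgroup A := AddSubgroup.closure (F : Set A) ⊔ B
  let BB : Submodule ℤ P := AddSubgroup.toIntSubmodule (B.addSubgroupOf P)
  have hBB : ∀ y : P, y ∈ BB ↔ (y : A) ∈ B := fun y => Iff.rfl
  let C : AddSubgroup A := AddSubgroup.closure (F : Set A)
  have : Module.Finite ℤ C := by
    rw [Module.Finite.iff_addGroup_fg]
    exact (AddGroup.fg_iff_addSubgroup_fg C).2 ⟨F, rfl⟩
  let ι : C →ₗ[ℤ] P := (AddSubgroup.inclusion (le_sup_left : C ≤ P)).toIntLinearMap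
  have : Module.Finite ℤ (P ⧸ BB) := by
    refine Module.Finite.of_surjective (BB.mkQ.comp ι) ?_
    intro z
    obtain ⟨y, rfl⟩ := BB.mkQ_surjective z
    obtain ⟨c, hc, b, hb, hcb⟩ := AddSubgroup.mem_sup.1 y.2
    refine ⟨⟨c, hc⟩, ?_⟩
    rw [LinearMap.comp_apply, ← sub_eq_zero, ← map_sub, Submodule.mkQ_apply,
      Submodule.Quotient.mk_eq_zero, hBB]
    have : ((ι ⟨c, hc⟩ - y : P) : A) = - b := by
      rw [AddSubgroup.coe_sub, ← hcb]
      change c - (c + b) = -b
      abel
    rw [this]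
    exact neg_mem hb
  let T := Submodule.torsion ℤ (P ⧸ BB)
  have : Module.IsTorsionFree ℤ ((P ⧸ BB) ⧸ T) := inferInstance
  have : Module.Free ℤ ((P ⧸ BB) ⧸ T) := inferInstance
  have key : T.mkQ (BB.mkQ ⟨x, hx⟩) = 0 := by
    rw [← Module.forall_dual_apply_eq_zero_iff ℤ]
    intro φ
    have := h ((φ.comp (T.mkQ.comp BB.mkQ)).toAddMonoidHom) (by
      intro b hb hbB
      have h0 : BB.mkQ ⟨b, hb⟩ = 0 := by
        rw [Submodule.mkQ_apply, Submodule.Quotient.mk_eq_zero]
        exact hbB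
      change φ (T.mkQ (BB.mkQ ⟨b, hb⟩)) = 0
      rw [h0, map_zero, map_zero])
    exact this
  rw [Submodule.mkQ_apply, Submodule.Quotient.mk_eq_zero] at key
  obtain ⟨m, hm⟩ := (Submodule.mem_torsion_iff _).1 key
  refine ⟨m, nonZeroDivisors.ne_zero m.2, ?_⟩
  have h1 : (m : ℤ) • BB.mkQ ⟨x, hx⟩ = 0 := hm
  rw [← map_smul, Submodule.mkQ_apply, Submodule.Quotient.mk_eq_zero] at h1
  exact h1

end Pool.Agent.Helper39.AH
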