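import Pool.Agent.Helper39.AH.Defs

/-!
# AH-Rows: Fox rows, and coefficients of finitely supported functions in a ring

Proof of `exists_row`. Construct `row` as `der` in `Defs`, `Der`: the letter `s` acts on
`S → E` by the permutation `y ↦ e s + f (of (q (FreeGroup.of s))) • y`, with inverse
`y ↦ f (of (q (FreeGroup.of s))⁻¹) • (y - e s)`, where `e s s' = if s' = s then 1 else 0`;
`aff : FreeGroup S →* Equiv.Perm (S → E)` is the lift and `row u = aff u 0`. By induction on `u`,
`aff u y = row u + f (of (q u)) • y`. Here `f (of a) * f (of b) = f (of (a * b))`.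

Proof of `exists_coef`. For `g : G` let
`co g m = f (m.sum fun y n => if h : g⁻¹ * y ∈ A then single (⟨g⁻¹ * y, h⟩⁻¹) n else 0)`
(or `f` of the image under inversion of the `Finsupp.comapDomain` of `m` along
`fun x : A => g * x`), an additive map. On `m = single y n`: `sh v m = single (y * v⁻¹) n`, and
`g⁻¹ * (y * v⁻¹) ∈ A` if and only if `g⁻¹ * y ∈ A`, and then
`(g⁻¹ * y * v⁻¹)⁻¹ = v * (g⁻¹ * y)⁻¹`. So `co g (sh v m) = f (of v) * co g m` on the
`single y n`, and by additivity for all `m` (`Finsupp.induction_linear`). If `co g m = 0`, then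
by injectivity of `f` the element of the group ring vanishes; its coefficient at `1` is `m g`.
-/

namespace Pool.Agent.Helper39.AH

open Classical in
theorem exists_row {S A E : Type} [Group A] [Ring E] (f : MonoidAlgebra ℤ A →+* E)
    (q : FreeGroup S →* A) :
    ∃ row : FreeGroup S → (S → E),
      (∀ u v, row (u * v) = row u + f (MonoidAlgebra.of ℤ A (q u)) • row v) ∧
      ∀ s, row (FreeGroup.of s) = fun s' => if s' = s then 1 else 0 := by
  obtain ⟨U, hU⟩ : ∃ U : A →* E, ∀ a, U a = f (MonoidAlgebra.of ℤ A a) :=
    ⟨(f : MonoidAlgebra ℤ A →* E).comp (MonoidAlgebra.of ℤ A), fun a => rfl⟩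
  have hinv : ∀ a, U a * U a⁻¹ = 1 := fun a => by rw [← map_mul, mul_inv_cancel, map_one]
  have hinv' : ∀ a, U a⁻¹ * U a = 1 := fun a => by rw [← map_mul, inv_mul_cancel, map_one]
  let e : S → (S → E) := fun s s' => if s' = s then 1 else 0
  let F : FreeGroup S →* Equiv.Perm (S → E) := FreeGroup.lift fun s =>
    { toFun := fun y => e s + U (q (FreeGroup.of s)) • y
      invFun := fun y => U (q (FreeGroup.of s))⁻¹ • (y - e s)
      left_inv := fun y => by
        simp only [add_sub_cancel_left, smul_smul, hinv', one_smul]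
      right_inv := fun y => by
        simp only [smul_smul, hinv, one_smul, add_sub_cancel] }
  have hF : ∀ s y, F (FreeGroup.of s) y = e s + U (q (FreeGroup.of s)) • y := by
    intro s y
    simp only [F, FreeGroup.lift_apply_of, Equiv.coe_fn_mk]
  have hF' : ∀ s y, F (FreeGroup.of s)⁻¹ y = U (q (FreeGroup.of s))⁻¹ • (y - e s) := by
    intro s y
    rw [map_inv]
    simp only [F, FreeGroup.lift_apply_of, Equiv.Perm.inv_def, Equiv.coe_fn_symm_mk]
  have key : ∀ u y, F u y = F u 0 + U (q u) • y := by
    intro u
    induction u using FreeGroup.induction_on with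
    | C1 => intro y; simp
    | of x => intro y; rw [hF, hF, smul_zero, add_zero]
    | inv_of x _ =>
      intro y
      rw [hF', hF', map_inv q, zero_sub, smul_neg, smul_sub]
      abel
    | mul x y hx hy =>
      intro z
      rw [map_mul, Equiv.Perm.mul_apply, Equiv.Perm.mul_apply, hy z, hx (F y 0 + U (q y) • z),
        hx (F y 0), map_mul, map_mul, smul_add, smul_smul, add_assoc]
  refine ⟨fun u => F u 0, fun u v => ?_, fun s => ?_⟩
  · change F (u * v) 0 = F u 0 + f (MonoidAlgebra.of ℤ A (q u)) • F v 0
    rw [← hU, map_mul, Equiv.Perm.mul_apply, key u (F v 0)]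
  · change F (FreeGroup.of s) 0 = _
    rw [hF, smul_zero, add_zero]

theorem exists_coef {G E : Type} [Group G] [Ring E] (A : Subgroup G)
    (f : MonoidAlgebra ℤ A →+* E) (hf : Function.Injective f) :
    ∃ co : G → ((G →₀ ℤ) →+ E),
      (∀ (g : G) (v : A) (m : G →₀ ℤ),
        co g (sh (v : G) m) = f (MonoidAlgebra.of ℤ A v) * co g m) ∧
      ∀ (g : G) (m : G →₀ ℤ), co g m = 0 → m g = 0 := by
  classical
  let c : G → ((G →₀ ℤ) →+ MonoidAlgebra ℤ A) := fun g =>
    Finsupp.liftAddHom fun y => if h : g⁻¹ * y ∈ A then
      MonoidAlgebra.singleAddHom (R := ℤ) ((⟨g⁻¹ * y, h⟩ : A)⁻¹) else 0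
  have hc : ∀ g y n (h : g⁻¹ * y ∈ A), c g (Finsupp.single y n) =
      MonoidAlgebra.single ((⟨g⁻¹ * y, h⟩ : A)⁻¹) n := by
    intro g y n h
    simp only [c, Finsupp.liftAddHom_apply_single, dif_pos h, MonoidAlgebra.singleAddHom_apply]
  have hc' : ∀ g y n, g⁻¹ * y ∉ A → c g (Finsupp.single y n) = 0 := by
    intro g y n h
    simp only [c, Finsupp.liftAddHom_apply_single, dif_neg h, AddMonoidHom.zero_apply]
  refine ⟨fun g => (f : MonoidAlgebra ℤ A →+ E).comp (c g), fun g v m => ?_, fun g m hm => ?_⟩
  · simp only [AddMonoidHom.comp_apply, AddMonoidHom.coe_coe]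
    rw [← map_mul]
    congr 1
    induction m using Finsupp.induction_linear with
    | zero => simp
    | add m m' hm hm' => rw [map_add, map_add, map_add, hm, hm', mul_add]
    | single y n =>
      have hs : sh (v : G) (Finsupp.single y n) = Finsupp.single (y * (v : G)⁻¹) n := by
        simp [sh]
      rw [hs]
      by_cases h : g⁻¹ * y ∈ A
      · have h' : g⁻¹ * (y * (v : G)⁻¹) ∈ A := by
          rw [← mul_assoc]; exact A.mul_mem h (A.inv_mem v.2)
        rw [hc _ _ _ h', hc _ _ _ h, MonoidAlgebra.of_apply, MonoidAlgebra.single_mul_single,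
          one_mul]
        congr 1
        ext
        simp [mul_assoc]
      · have h' : g⁻¹ * (y * (v : G)⁻¹) ∉ A := by
          intro h'
          apply h
          have := A.mul_mem h' v.2
          rwa [mul_assoc, mul_assoc, inv_mul_cancel, mul_one] at this
        rw [hc' _ _ _ h', hc' _ _ _ h, mul_zero]
  · have h1 : c g m = 0 := by
      apply hf
      rw [map_zero]
      exact hm
    have h2 : (c g m).coeff 1 = m g := by
      clear h1 hm
      induction m using Finsupp.induction_linear with
      | zero => simp
      | add m m' hm hm' => rw [map_add, MonoidAlgebra.coeff_add, Finsupp.add_apply, hm, hm',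
          Finsupp.add_apply]
      | single y n =>
        by_cases h : g⁻¹ * y ∈ A
        · rw [hc _ _ _ h, MonoidAlgebra.coeff_single, Finsupp.single_apply, Finsupp.single_apply]
          by_cases hy : y = g
          · subst hy
            rw [if_pos, if_pos rfl]
            ext
            simp
          · rw [if_neg hy, if_neg]
            intro h3
            apply hy
            have h4 := congrArg (fun a : A => (a : G)) h3
            simp only [Subgroup.coe_inv, Subgroup.coe_one, inv_eq_one] at h4
            exact (inv_mul_eq_one.1 h4).symm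
        · rw [hc' _ _ _ h, MonoidAlgebra.coeff_zero, Finsupp.zero_apply, Finsupp.single_apply,
            if_neg]
          rintro rfl
          apply h
          rw [inv_mul_cancel]
          exact A.one_mem
    rw [← h2, h1, MonoidAlgebra.coeff_zero, Finsupp.zero_apply]

end Pool.Agent.Helper39.AH
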