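import Pool.Agent.Helper39.AH.Hgt
import Pool.Agent.Helper39.AH.Rows

/-!
# AH-Kill: the Noetherian argument

Let `A = a.q.range`, `f : MonoidAlgebra ℤ A →+* E` injective, `E` a left Noetherian ring, and let
`q' : FreeGroup S →* A` be `a.q.rangeRestrict`. Let `row` be given by `exists_row f q'` and `co`
by `exists_coef A f`.

(1) For every `d : S → (G →₀ ℤ)`, `g : G` and `u`,
`co g (der a.σ d u) = ∑ s, row u s * co g (d s)` (induction on `u`:
`FreeGroup.induction_on`; both sides are cocycles with the same values on the letters; for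
inverses use `der_mul` for `u⁻¹ * u = 1`, or prove the cocycle identity and deduce).

(2) For `h ∈ Hinf` the derivation vanishes on `R0`: the set
`{u | a.q u = 1 ∧ der a.σ h u = 0}` is a normal subgroup (for `a.q u = 1` and `der u = 0`:
`der (v * u * v⁻¹) = der v + q v • (der u + der v⁻¹) = der v + q v • der v⁻¹ = 0`) which
contains all the `φ^n (rr ρ)` (`q_iterate_eq_one`).

(3) `R0` is mapped to itself by `φ` (`R0.comap φ` is normal and contains the generators), so
`N n = {u | φ^[n] u ∈ R0}` is increasing in `n`.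

(4) Let `C n` be the `E`-submodule of `S → E` spanned by the `row u`, `u ∈ N n`. It is
increasing in `n`; `S → E` is a Noetherian module, so there is `n0` with `C n = C n0` for all
`n ≥ n0` (`monotone_stabilizes_iff_noetherian`); so `C n ≤ C n0` for all `n`.

(5) Let `h ∈ Hinf`, `d = Th^[n0] h`, `g : G`. The map `y ↦ ∑ s, y s * co g (d s)` is `E`-linear
on `S → E`, and it vanishes on `row u` for `u ∈ N n0`, by (1), as
`der a.σ d u = sh (t^n0) (der a.σ h (φ^[n0] u)) = 0` (`der_Th_iterate`, (2)). So it vanishes on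
`C n0`. Let `a.q u = 1`. By the kernel property `u ∈ N n` for some `n`, so `row u ∈ C n ≤ C n0`
and `co g (der a.σ d u) = 0` for all `g`; so `der a.σ d u g = 0` for all `g`.
-/

namespace Pool.Agent.Helper39.AH

private lemma Kill_cocycle {S E : Type} [Ring E] (c D D' : FreeGroup S → E) (hc : c 1 = 1)
    (hD : ∀ u v, D (u * v) = D u + c u * D v) (hD' : ∀ u v, D' (u * v) = D' u + c u * D' v)
    (h : ∀ s, D (FreeGroup.of s) = D' (FreeGroup.of s)) (u : FreeGroup S) : D u = D' u := by
  have h1 : D 1 = 0 := by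
    have := hD 1 1
    rw [mul_one, hc, one_mul] at this
    exact (left_eq_add.1 this)
  have h1' : D' 1 = 0 := by
    have := hD' 1 1
    rw [mul_one, hc, one_mul] at this
    exact (left_eq_add.1 this)
  induction u using FreeGroup.induction_on with
  | C1 => rw [h1, h1']
  | of x => exact h x
  | inv_of x _ =>
    have e1 := hD (FreeGroup.of x)⁻¹ (FreeGroup.of x)
    have e2 := hD' (FreeGroup.of x)⁻¹ (FreeGroup.of x)
    rw [inv_mul_cancel, h1] at e1
    rw [inv_mul_cancel, h1', ← h x, e1] at e2
    exact add_right_cancel e2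
  | mul x y hx hy => rw [hD, hD', hx, hy]

namespace Asc

variable {R S G : Type} [Group G] (a : Asc S R G)

/-- The kernel of the derivation, intersected with the kernel of `q`. -/
private def Kill_K (h : S → (G →₀ ℤ)) : Subgroup (FreeGroup S) where
  carrier := {u | a.q u = 1 ∧ der a.σ h u = 0}
  one_mem' := ⟨map_one _, der_one _ _⟩
  mul_mem' := by
    rintro u v ⟨h1, h2⟩ ⟨h3, h4⟩
    refine ⟨by rw [map_mul, h1, h3, one_mul], ?_⟩
    rw [der_mul, h2, h4, map_zero, add_zero]
  inv_mem' := by
    rintro u ⟨h1, h2⟩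
    refine ⟨by rw [map_inv, h1, inv_one], ?_⟩
    rw [der_inv, h2, map_zero, neg_zero]

private lemma Kill_K_normal (h : S → (G →₀ ℤ)) : (Kill_K a h).Normal := by
  constructor
  rintro u ⟨h1, h2⟩ v
  refine ⟨by rw [map_mul, map_mul, h1, mul_one, map_inv, mul_inv_cancel], ?_⟩
  have h3 : der a.σ h (v * v⁻¹) = 0 := by rw [mul_inv_cancel, der_one]
  rw [der_mul] at h3
  have h4 : FreeGroup.lift a.σ (v * u) = FreeGroup.lift a.σ v := by
    rw [map_mul, show FreeGroup.lift a.σ u = 1 from h1, mul_one]
  rw [der_mul, der_mul, h2, map_zero, add_zero, h4, h3]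

private lemma Kill_R0 {h : S → (G →₀ ℤ)} (hh : h ∈ a.Hinf) {u : FreeGroup S} (hu : u ∈ a.R0) :
    der a.σ h u = 0 := by
  have hle : a.R0 ≤ Kill_K a h := by
    have := Kill_K_normal a h
    refine Subgroup.normalClosure_le_normal ?_
    rintro x ⟨n, ρ, rfl⟩
    exact ⟨a.q_iterate_eq_one n _ (a.qr ρ), hh n ρ⟩
  exact (hle hu).2

private lemma Kill_R0_φ {u : FreeGroup S} (hu : u ∈ a.R0) : a.φ u ∈ a.R0 := by
  have hle : a.R0 ≤ a.R0.comap a.φ := by
    have h1 : a.R0.Normal := Subgroup.normalClosure_normal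
    have h2 : (a.R0.comap a.φ).Normal := Subgroup.Normal.comap h1 a.φ
    refine Subgroup.normalClosure_le_normal ?_
    rintro x ⟨n, ρ, rfl⟩
    change a.φ (a.φ^[n] (a.rr ρ)) ∈ a.R0
    rw [← Function.iterate_succ_apply' a.φ]
    exact Subgroup.subset_normalClosure ⟨n + 1, ρ, rfl⟩
  exact hle hu

theorem kill [Finite S] (hk : a.Ker) (hN : NoetherianEmbeddable a.q.range) :
    ∃ n0 : ℕ, ∀ h ∈ a.Hinf, a.Th^[n0] h ∈ a.Z := by
  classical
  have := Fintype.ofFinite S
  obtain ⟨E, hE, hNE, f, hf⟩ := hN
  obtain ⟨row, hrow, hrow1⟩ := exists_row f a.q.rangeRestrict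
  obtain ⟨co, hco, hco0⟩ := exists_coef a.q.range f hf
  -- the key identity
  have key : ∀ (d : S → (G →₀ ℤ)) (g : G) (u : FreeGroup S),
      co g (der a.σ d u) = ∑ s, row u s * co g (d s) := by
    intro d g u
    refine Kill_cocycle (fun u => f (MonoidAlgebra.of ℤ a.q.range (a.q.rangeRestrict u)))
      (fun u => co g (der a.σ d u)) (fun u => ∑ s, row u s * co g (d s)) ?_ ?_ ?_ ?_ u
    · change f (MonoidAlgebra.of ℤ a.q.range (a.q.rangeRestrict 1)) = 1
      rw [map_one, map_one, map_one]
    · intro u v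
      change co g (der a.σ d (u * v)) = co g (der a.σ d u) +
        f (MonoidAlgebra.of ℤ a.q.range (a.q.rangeRestrict u)) * co g (der a.σ d v)
      rw [der_mul, map_add, ← hco g (a.q.rangeRestrict u)]
      rfl
    · intro u v
      change ∑ s, row (u * v) s * co g (d s) = ∑ s, row u s * co g (d s) +
        f (MonoidAlgebra.of ℤ a.q.range (a.q.rangeRestrict u)) * ∑ s, row v s * co g (d s)
      rw [hrow, Finset.mul_sum, ← Finset.sum_add_distrib]
      refine Finset.sum_congr rfl fun s _ => ?_
      rw [Pi.add_apply, Pi.smul_apply, smul_eq_mul, add_mul, mul_assoc]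
    · intro s
      change co g (der a.σ d (FreeGroup.of s)) = ∑ s', row (FreeGroup.of s) s' * co g (d s')
      rw [der_of, hrow1]
      simp
  -- the chain of submodules
  let C : ℕ →o Submodule E (S → E) :=
    { toFun := fun n => Submodule.span E (row '' {u | a.φ^[n] u ∈ a.R0})
      monotone' := by
        refine monotone_nat_of_le_succ fun n => ?_
        refine Submodule.span_mono (Set.image_mono ?_)
        intro u hu
        change a.φ^[n + 1] u ∈ a.R0
        rw [Function.iterate_succ_apply']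
        exact Kill_R0_φ a hu }
  obtain ⟨n0, hn0⟩ := monotone_stabilizes_iff_noetherian.2
    (inferInstance : IsNoetherian E (S → E)) C
  have hC : ∀ n, C n ≤ C n0 := by
    intro n
    rcases le_total n n0 with h | h
    · exact C.monotone h
    · exact (hn0 n h).ge
  refine ⟨n0, fun h hh u hu => ?_⟩
  obtain ⟨n, hn⟩ := hk u hu
  have hrow2 : row u ∈ C n0 := hC n (Submodule.subset_span ⟨u, hn, rfl⟩)
  ext g
  refine hco0 g _ ?_
  rw [key]
  let Λ : (S → E) →ₗ[E] E :=
    { toFun := fun y => ∑ s, y s * co g (a.Th^[n0] h s)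
      map_add' := fun y z => by
        rw [← Finset.sum_add_distrib]
        exact Finset.sum_congr rfl fun s _ => by rw [Pi.add_apply, add_mul]
      map_smul' := fun e y => by
        rw [RingHom.id_apply, smul_eq_mul, Finset.mul_sum]
        exact Finset.sum_congr rfl fun s _ => by rw [Pi.smul_apply, smul_eq_mul, mul_assoc] }
  have hker : C n0 ≤ LinearMap.ker Λ := by
    refine Submodule.span_le.2 ?_
    rintro _ ⟨v, hv, rfl⟩
    change ∑ s, row v s * co g (a.Th^[n0] h s) = 0
    rw [← key, der_Th_iterate, Kill_R0 a hh hv, map_zero, map_zero]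
  exact hker hrow2

end Asc

end Pool.Agent.Helper39.AH
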