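import Pool.Agent.Helper39.AH.Hgt

/-!
# AH-Lam: the functionals of the infinite cylinders

For `g : G` and `ρ : R` put
`lam g ρ (d, u) = u ρ g - ∑ᶠ i : ℕ, der a.σ d (φ^i (rr ρ)) (g * t^i)`.

Finiteness: the heights of the values of `d` are bounded (`height_bound`), `der_height`, and the
height of `g * t ^ i` is `ht g + i`; so only finitely many `i` contribute.

Additivity: `finsum_add_distrib` (both supports are finite).

`lam_cobA`: let `c = cobA (d, τ)`, so `c.1 = d - Th d - dl τ`, `c.2 = ev d`. Let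
`x i = der a.σ d (φ^i (rr ρ)) (g * t^i)`. As `q (φ^i (rr ρ)) = 1` (`q_iterate_eq_one`, `qr`) and
by `der_Th`, `der_dl`,
`der a.σ c.1 (φ^i (rr ρ)) (g * t^i) = x i - x (i + 1)`, whose sum over `i` is `x 0`
(telescoping, `x` has finite support), and `c.2 ρ g = x 0`.

`lam_Hinf`: all the terms vanish.
-/

namespace Pool.Agent.Helper39.AH

noncomputable section

namespace Asc

variable {R S G : Type} [Group G] (a : Asc S R G)

private lemma Lam_bound [Finite S] (d : S → (G →₀ ℤ)) (g : G) (ρ : R) :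
    ∃ M : ℕ, ∀ i : ℕ, der a.σ d (a.φ^[i] (a.rr ρ)) (g * a.t ^ i) ≠ 0 → i < M := by
  obtain ⟨N, hN⟩ := a.height_bound d
  refine ⟨(N + |a.ht g| + 1).toNat, fun i hi => ?_⟩
  have h1 := a.der_height (fun h => |h| ≤ (N : ℤ)) d hN _ _ hi
  rw [a.ht_mul, a.ht_pow] at h1
  have h2 := abs_le.1 h1
  have h3 := neg_abs_le (a.ht g)
  omega

theorem lam_finite [Finite S] (d : S → (G →₀ ℤ)) (g : G) (ρ : R) :
    (Function.support fun i : ℕ => der a.σ d (a.φ^[i] (a.rr ρ)) (g * a.t ^ i)).Finite := by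
  obtain ⟨M, hM⟩ := Lam_bound a d g ρ
  exact (Set.finite_lt_nat M).subset fun i hi => hM i hi

/-- The functional of the infinite cylinder starting at the cell `(ρ, g)`. -/
def lam [Finite S] (g : G) (ρ : R) : (S → (G →₀ ℤ)) × (R → (G →₀ ℤ)) →+ ℤ where
  toFun c := c.2 ρ g - ∑ᶠ i : ℕ, der a.σ c.1 (a.φ^[i] (a.rr ρ)) (g * a.t ^ i)
  map_zero' := by
    simp
  map_add' c c' := by
    have h1 : (∑ᶠ i : ℕ, der a.σ (c + c').1 (a.φ^[i] (a.rr ρ)) (g * a.t ^ i)) =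
        (∑ᶠ i : ℕ, der a.σ c.1 (a.φ^[i] (a.rr ρ)) (g * a.t ^ i)) +
          ∑ᶠ i : ℕ, der a.σ c'.1 (a.φ^[i] (a.rr ρ)) (g * a.t ^ i) := by
      rw [← finsum_add_distrib (a.lam_finite c.1 g ρ) (a.lam_finite c'.1 g ρ)]
      refine finsum_congr fun i => ?_
      rw [Prod.fst_add, der_add, Finsupp.add_apply]
    rw [h1, Prod.snd_add, Pi.add_apply, Finsupp.add_apply]
    ring

theorem lam_apply [Finite S] (g : G) (ρ : R) (c : (S → (G →₀ ℤ)) × (R → (G →₀ ℤ))) :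
    a.lam g ρ c =
      c.2 ρ g - ∑ᶠ i : ℕ, der a.σ c.1 (a.φ^[i] (a.rr ρ)) (g * a.t ^ i) := rfl

theorem lam_cobA [Finite S] (g : G) (ρ : R) (p : (S → (G →₀ ℤ)) × (G →₀ ℤ)) :
    a.lam g ρ (a.cobA p) = 0 := by
  obtain ⟨M, hM⟩ := Lam_bound a p.1 g ρ
  let x : ℕ → ℤ := fun i => der a.σ p.1 (a.φ^[i] (a.rr ρ)) (g * a.t ^ i)
  have hx : ∀ i, M ≤ i → x i = 0 := fun i hi => by
    by_contra h
    exact absurd (hM i h) (not_lt.2 hi)
  have h1 : ∀ i : ℕ, der a.σ (a.cobA p).1 (a.φ^[i] (a.rr ρ)) (g * a.t ^ i) =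
      x i - x (i + 1) := by
    intro i
    have hq : a.q (a.φ^[i] (a.rr ρ)) = 1 := a.q_iterate_eq_one i _ (a.qr ρ)
    have h2 : g * a.t ^ i * a.t = g * a.t ^ (i + 1) := by rw [pow_succ, mul_assoc]
    have h3 : a.φ (a.φ^[i] (a.rr ρ)) = a.φ^[i + 1] (a.rr ρ) :=
      (Function.iterate_succ_apply' a.φ i _).symm
    rw [cobA_apply, der_sub, der_sub, der_Th, der_dl, hq, sh_one, sub_self, sub_zero,
      Finsupp.sub_apply, sh_apply, h2, h3]
  rw [lam_apply, finsum_congr h1, finsum_eq_sum_of_support_subset (s := Finset.range M),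
    Finset.sum_range_sub' x M, hx M le_rfl, sub_zero]
  · change a.ev p.1 ρ g - x 0 = 0
    rw [ev_apply]
    simp [x]
  · intro i hi
    rw [Finset.coe_range, Set.mem_Iio]
    by_contra h
    apply hi
    change x i - x (i + 1) = 0
    rw [hx i (not_lt.1 h), hx (i + 1) (by omega), sub_zero]

theorem lam_Hinf [Finite S] (g : G) (ρ : R) (h : S → (G →₀ ℤ)) (hh : h ∈ a.Hinf) :
    a.lam g ρ (h, 0) = 0 := by
  rw [lam_apply]
  have h1 : ∀ i : ℕ, der a.σ h (a.φ^[i] (a.rr ρ)) (g * a.t ^ i) = 0 := by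
    intro i
    rw [hh i ρ]
    rfl
  rw [finsum_congr h1]
  simp

end Asc

end

end Pool.Agent.Helper39.AH
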