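import Pool.Agent.Helper39.AH.Push
import Pool.Agent.Helper39.AH.Lam

/-!
# AH-Red: classes killed by all the cylinder functionals

Proof. `push` (with `K0 = 0`) gives `K`, `d'`, `u'` with `c - (d', u')` in the range of `cobA`,
`d'` homogeneous of height `K`, all heights of `u'` larger than `K`. By `lam_cobA` also
`lam g ρ (d', u') = 0` for all `g`, `ρ`.

`u' = 0`: let `ht g > K`. Then all the terms `der a.σ d' (φ^i (rr ρ)) (g * t^i)` vanish, as
`ht (g * t^i) = ht g + i > K` (`der_height` with the predicate `· = K`), so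
`0 = lam g ρ (d', u') = u' ρ g`. For `ht g ≤ K`, `u' ρ g = 0` by the condition on the heights.

`d' ∈ Hinf`: let `n`, `ρ` be given and `g0 : G`; to show `der a.σ d' (φ^n (rr ρ)) g0 = 0`. By
`der_height` we may assume `ht g0 = K`. Let `g = g0 * (t ^ n)⁻¹`, of height `K - n`. The terms of
`lam g ρ (d', 0)` with `i ≠ n` vanish (heights), and the one with `i = n` is
`der a.σ d' (φ^n (rr ρ)) g0`; so `0 = lam g ρ (d', u') = 0 - der a.σ d' (φ^n (rr ρ)) g0`
(`finsum_eq_single`).

Take `h = d'`.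
-/

namespace Pool.Agent.Helper39.AH

namespace Asc

variable {R S G : Type} [Group G] (a : Asc S R G)

theorem red [Finite S] [Finite R] (c : (S → (G →₀ ℤ)) × (R → (G →₀ ℤ)))
    (hc : ∀ g ρ, a.lam g ρ c = 0) : ∃ h ∈ a.Hinf, c - (h, 0) ∈ a.cobA.range := by
  obtain ⟨K, d', u', -, hr, hd, hu⟩ := a.push c 0
  have hl : ∀ g ρ, a.lam g ρ (d', u') = 0 := by
    intro g ρ
    obtain ⟨p, hp⟩ := hr
    have h1 := a.lam_cobA g ρ p
    rw [hp, map_sub, hc, zero_sub, neg_eq_zero] at h1
    exact h1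
  have hder : ∀ (i : ℕ) (ρ : R) (g : G),
      der a.σ d' (a.φ^[i] (a.rr ρ)) g ≠ 0 → a.ht g = K :=
    fun i ρ g hg => a.der_height (· = K) d' hd _ g hg
  have hht : ∀ (g : G) (i : ℕ), a.ht (g * a.t ^ i) = a.ht g + i := by
    intro g i
    rw [a.ht_mul, a.ht_pow]
  have hu0 : u' = 0 := by
    funext ρ
    ext g
    by_contra hne
    have hK := hu ρ g hne
    have h1 := hl g ρ
    rw [a.lam_apply] at h1
    have h2 : ∑ᶠ i : ℕ, der a.σ d' (a.φ^[i] (a.rr ρ)) (g * a.t ^ i) = 0 := by
      apply finsum_eq_zero_of_forall_eq_zero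
      intro i
      by_contra h
      have := hder i ρ _ h
      rw [hht] at this
      omega
    rw [h2, sub_zero] at h1
    exact hne h1
  refine ⟨d', ?_, ?_⟩
  · rw [mem_Hinf]
    intro n ρ
    ext g0
    rw [Finsupp.zero_apply]
    by_contra hne
    have hK := hder n ρ g0 hne
    have h1 := hl (g0 * (a.t ^ n)⁻¹) ρ
    rw [a.lam_apply, finsum_eq_single _ n] at h1
    · rw [hu0, inv_mul_cancel_right] at h1
      simp only [Pi.zero_apply, Finsupp.zero_apply, zero_sub, neg_eq_zero] at h1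
      exact hne h1
    · intro i hi
      by_contra h
      have := hder i ρ _ h
      rw [hht, a.ht_mul, a.ht_inv, a.ht_pow] at this
      omega
  · rw [hu0] at hr
    exact hr

end Asc

end Pool.Agent.Helper39.AH
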