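import Pool.Agent.Helper39.AH.Tless
import Pool.Agent.Helper39.AH.ExtFR
import Pool.Agent.Helper39.AH.Red
import Pool.Agent.Helper39.AH.Kill
import Pool.Agent.Helper39.AH.Ends

/-!
# AH-FRasc: the second cohomology of an ascending HNN extension has the property FR
-/

namespace Pool.Agent.Helper39.AH

namespace Asc

variable {R S G : Type} [Group G] (a : Asc S R G)

/-- The inclusion `h ↦ (h, 0)` of the derivations vanishing on the kernel. -/
def jZ : a.Z →+ (S → (G →₀ ℤ)) × (R → (G →₀ ℤ)) where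
  toFun h := (h, 0)
  map_zero' := rfl
  map_add' h k := by ext1 <;> simp

theorem FR_cobA [Finite S] [Finite R] (hk : a.Ker) (hN : NoetherianEmbeddable a.q.range) :
    FR a.cobA.range := by
  refine FR_ext a.cobA.range a.jZ ?_ ?_
  · refine FR_of_torsionless _ ?_
    intro x hx
    have h1 : ∀ g ρ, a.lam g ρ x = 0 := by
      intro g ρ
      refine hx (a.lam g ρ) ?_
      intro b hb
      obtain ⟨y, ⟨p, rfl⟩, z, ⟨h, rfl⟩, rfl⟩ := AddSubgroup.mem_sup.mp hb
      rw [map_add, a.lam_cobA]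
      have h2 : a.jZ h = ((h : S → (G →₀ ℤ)), 0) := rfl
      rw [h2, a.lam_Hinf g ρ _ (a.Z_le_Hinf h.2), add_zero]
    obtain ⟨h, hh, hx1⟩ := a.red x h1
    obtain ⟨n0, hn0⟩ := a.kill hk hN
    have h3 := a.push_Hinf hh n0
    refine AddSubgroup.mem_sup.mpr ⟨_, a.cobA.range.add_mem hx1 h3, _,
      ⟨⟨a.Th^[n0] h, hn0 h hh⟩, rfl⟩, ?_⟩
    have h4 : a.jZ ⟨a.Th^[n0] h, hn0 h hh⟩ = (a.Th^[n0] h, 0) := rfl
    rw [h4]
    ext1
    · simp
    · simp
  · refine FR_of_torsionless _ ?_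
    intro x hx
    rw [AddSubgroup.mem_comap]
    exact a.ends x.2 (fun μ hμ => hx μ fun b hb => hμ b hb)

end Asc

end Pool.Agent.Helper39.AH
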