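import Pool.Agent.Helper39.AH.FRdef

/-!
# AH-FinComap: preimages of finitely generated subgroups modulo `B`

Proof. The group `(closure F3 ⊔ B) / B` is a finitely generated abelian group. Its subgroup of
the classes of the `j x` with `x : Z`, `j x ∈ closure F3 ⊔ B` is finitely generated (Noetherian),
so there is a finite set `F' ⊆ {x | j x ∈ closure F3 ⊔ B}` such that the class of each such `j x`
is an integral combination of the classes of the `j z`, `z ∈ F'`. Then `x` minus this
combination of the `z` is mapped into `B` by `j`. (Compare the proof of `FR_ext` in `ExtFR.lean`,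
which contains a similar step.)
-/

namespace Pool.Agent.Helper39.AH

private theorem FinComap_fg {A : Type} [AddCommGroup A] {S : AddSubgroup A} {F : Finset A}
    (h : S ≤ AddSubgroup.closure (F : Set A)) :
    ∃ F' : Finset A, AddSubgroup.closure (F' : Set A) = S := by
  have h1 : (AddSubgroup.toIntSubmodule S) ≤ Submodule.span ℤ (F : Set A) := by
    intro x hx
    have h2 : x ∈ AddSubgroup.closure (F : Set A) := h hx
    rw [← Submodule.span_int_eq_addSubgroupClosure] at h2
    exact h2
  obtain ⟨F', hF'⟩ := Submodule.FG.of_le ⟨F, rfl⟩ h1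
  refine ⟨F', ?_⟩
  rw [← Submodule.span_int_eq_addSubgroupClosure, hF']
  rfl

/-- A subgroup whose image is contained in a finitely generated group. -/
private theorem FinComap_lift {A Q : Type} [AddCommGroup A] [AddCommGroup Q] (q : A →+ Q)
    (P : AddSubgroup A) (F : Finset Q) (h : ∀ x ∈ P, q x ∈ AddSubgroup.closure (F : Set Q)) :
    ∃ F2 : Finset A, ∀ x ∈ P, ∃ y ∈ AddSubgroup.closure (F2 : Set A), q x = q y := by
  classical
  have h1 : P.map q ≤ AddSubgroup.closure (F : Set Q) := by
    rintro _ ⟨x, hx, rfl⟩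
    exact h x hx
  obtain ⟨G, hG⟩ := FinComap_fg h1
  have h2 : ∀ g : Q, ∃ x : A, g ∈ G → q x = g := by
    intro g
    by_cases hg : g ∈ G
    · have h3 : g ∈ P.map q := by
        rw [← hG]
        exact AddSubgroup.subset_closure hg
      obtain ⟨x, _, hxg⟩ := h3
      exact ⟨x, fun _ => hxg⟩
    · exact ⟨0, fun h => absurd h hg⟩
  choose f hf using h2
  refine ⟨G.image f, ?_⟩
  intro x hx
  have h3 : q x ∈ AddSubgroup.closure (G : Set Q) := by
    rw [hG]
    exact ⟨x, hx, rfl⟩
  have h4 : AddSubgroup.closure (G : Set Q) ≤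
      (AddSubgroup.closure ((G.image f : Finset A) : Set A)).map q := by
    rw [AddSubgroup.closure_le]
    intro g hg
    refine ⟨f g, AddSubgroup.subset_closure ?_, hf g hg⟩
    exact Finset.mem_coe.2 (Finset.mem_image_of_mem f hg)
  obtain ⟨y, hy, hyx⟩ := h4 h3
  exact ⟨y, hy, hyx.symm⟩

theorem exists_finset_comap {A Z : Type} [AddCommGroup A] [AddCommGroup Z] (B : AddSubgroup A)
    (j : Z →+ A) (F3 : Finset A) :
    ∃ F' : Finset Z, ∀ x : Z, j x ∈ AddSubgroup.closure (F3 : Set A) ⊔ B →
      x ∈ AddSubgroup.closure (F' : Set Z) ⊔ B.comap j := by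
  classical
  have hq0 : ∀ b : A, QuotientAddGroup.mk' B b = 0 ↔ b ∈ B := fun b =>
    QuotientAddGroup.eq_zero_iff b
  obtain ⟨F2, hF2⟩ := FinComap_lift ((QuotientAddGroup.mk' B).comp j)
    ((AddSubgroup.closure (F3 : Set A) ⊔ B).comap j) (F3.image (QuotientAddGroup.mk' B)) (by
    intro x hx
    obtain ⟨y, hy, b, hb, hyb⟩ := AddSubgroup.mem_sup.1 (AddSubgroup.mem_comap.1 hx)
    rw [AddMonoidHom.comp_apply, ← hyb, map_add, (hq0 b).2 hb, add_zero, Finset.coe_image,
      ← AddMonoidHom.map_closure]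
    exact ⟨y, hy, rfl⟩)
  refine ⟨F2, fun x hx => ?_⟩
  obtain ⟨y, hy, hxy⟩ := hF2 x (AddSubgroup.mem_comap.2 hx)
  refine AddSubgroup.mem_sup.2 ⟨y, hy, x - y, ?_, by rw [add_sub_cancel]⟩
  rw [AddSubgroup.mem_comap, ← hq0]
  have h1 : ((QuotientAddGroup.mk' B).comp j) (x - y) = 0 := by
    rw [map_sub, hxy, sub_self]
  exact h1

end Pool.Agent.Helper39.AH
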