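import Pool.Agent.Helper39.AH.FRdef

/-!
# AH-Tless: torsionless quotients have the property FR

Proof. Let `F = {p_1, …, p_k}` and let `Λ` be the group of all `μ : A →+ ℤ` vanishing on `B`.
The vectors `(μ p_i)_i`, `μ ∈ Λ`, form a subgroup of `ℤ^k` (functions on the finite type `F`),
which is finitely generated (Noetherian), so there are `μ_1, …, μ_l ∈ Λ` such that every vector
`(μ p_i)_i`, `μ ∈ Λ`, is an integral combination of the `(μ_j p_i)_i`; then
`μ p = ∑ n_j μ_j p` for all `p` in `closure F` (both sides are additive in `p`).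
Let `Φ : A →+ (Fin l → ℤ)`, `Φ x = (μ_j x)_j`, and let
`Pc = {x | ∃ m ≠ 0, m • x ∈ closure F ⊔ B}`, a subgroup of `A` containing `B`. The subgroup
`Φ(Pc)` of `ℤ^l` is finitely generated, say by `Φ x_1, …, Φ x_n` with `x_i ∈ Pc`; put
`F' = {x_1, …, x_n}`. Let `x ∈ Pc`. There is `y ∈ closure F' ≤ Pc` with `Φ x = Φ y`. For
`z = x - y ∈ Pc` there is `m ≠ 0` with `m • z = p + b`, `p ∈ closure F`, `b ∈ B`, so that
`μ_j p = m * μ_j z = 0` for all `j`, hence `μ p = 0` for all `μ ∈ Λ`, hence `m * μ z = 0` and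
`μ z = 0` for all `μ ∈ Λ`. By the hypothesis `z ∈ B`, so `x = y + z ∈ closure F' ⊔ B`.
-/

namespace Pool.Agent.Helper39.AH

private lemma Tless_lift {M N : Type} [AddCommGroup M] [AddCommGroup N] [IsNoetherian ℤ N]
    (f : M →ₗ[ℤ] N) (P : Submodule ℤ M) :
    ∃ T : Finset M, (∀ t ∈ T, t ∈ P) ∧
      (Submodule.span ℤ (T : Set M)).map f = P.map f := by
  classical
  obtain ⟨S, hS⟩ := IsNoetherian.noetherian (P.map f)
  have hsub : (S : Set N) ⊆ f '' (P : Set M) := by
    intro s hs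
    have : s ∈ P.map f := hS ▸ Submodule.subset_span hs
    exact this
  obtain ⟨T, hT, hTS⟩ := Finset.subset_set_image_iff.1 hsub
  refine ⟨T, fun t ht => hT ht, ?_⟩
  rw [Submodule.map_span, ← hS, ← hTS]
  simp

theorem FR_of_torsionless {A : Type} [AddCommGroup A] (B : AddSubgroup A)
    (h : ∀ x : A, (∀ μ : A →+ ℤ, (∀ b ∈ B, μ b = 0) → μ x = 0) → x ∈ B) : FR B := by
  classical
  intro F
  -- linear functionals vanishing on `B`
  let Λ : Submodule ℤ (A →ₗ[ℤ] ℤ) :=
    { carrier := {μ | ∀ b ∈ B, μ b = 0}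
      add_mem' := fun {μ ν} h1 h2 b hb => by
        rw [LinearMap.add_apply, h1 b hb, h2 b hb, add_zero]
      zero_mem' := fun b _ => rfl
      smul_mem' := fun c μ h1 b hb => by
        rw [LinearMap.smul_apply, h1 b hb, smul_zero] }
  have hΛ : ∀ μ : A →ₗ[ℤ] ℤ, μ ∈ Λ ↔ ∀ b ∈ B, μ b = 0 := fun μ => Iff.rfl
  let V : (A →ₗ[ℤ] ℤ) →ₗ[ℤ] (F → ℤ) :=
    { toFun := fun μ p => μ (p : A)
      map_add' := fun μ ν => rfl
      map_smul' := fun c μ => rfl }
  have hV : ∀ μ (p : F), V μ p = μ (p : A) := fun _ _ => rfl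
  obtain ⟨S, hSΛ, hSm⟩ := Tless_lift V Λ
  let Φ : A →ₗ[ℤ] (S → ℤ) :=
    { toFun := fun x s => (s : A →ₗ[ℤ] ℤ) x
      map_add' := fun x y => by ext s; simp
      map_smul' := fun c x => by ext s; simp }
  have hΦ : ∀ x (s : S), Φ x s = (s : A →ₗ[ℤ] ℤ) x := fun _ _ => rfl
  -- elements of the closure of `F` killed by `Φ` are killed by `Λ`
  have key : ∀ x ∈ AddSubgroup.closure (F : Set A), Φ x = 0 → ∀ μ ∈ Λ, μ x = 0 := by
    intro x hx hx0 μ hμ
    have h1 : V μ ∈ (Submodule.span ℤ (S : Set (A →ₗ[ℤ] ℤ))).map V := by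
      rw [hSm]; exact Submodule.mem_map_of_mem hμ
    obtain ⟨ν, hν, hνV⟩ := Submodule.mem_map.1 h1
    have h2 : ∀ y ∈ AddSubgroup.closure (F : Set A), μ y = ν y := by
      intro y hy
      refine AddSubgroup.closure_induction (p := fun y _ => μ y = ν y) ?_ ?_ ?_ ?_ hy
      · intro p hp
        have := congrFun hνV ⟨p, hp⟩
        rw [hV, hV] at this
        exact this.symm
      · simp
      · intro a b _ _ ha hb
        rw [map_add, map_add, ha, hb]
      · intro a _ ha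
        rw [map_neg, map_neg, ha]
    rw [h2 x hx]
    refine Submodule.span_induction (p := fun ν _ => ν x = 0) ?_ ?_ ?_ ?_ hν
    · intro s hs
      have := congrFun hx0 ⟨s, hs⟩
      rw [hΦ] at this
      exact this
    · rfl
    · intro a b _ _ ha hb
      rw [LinearMap.add_apply, ha, hb, add_zero]
    · intro c a _ ha
      rw [LinearMap.smul_apply, ha, smul_zero]
  -- the rational closure
  let Pc : Submodule ℤ A :=
    { carrier := {x | ∃ m : ℤ, m ≠ 0 ∧ m • x ∈ AddSubgroup.closure (F : Set A) ⊔ B}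
      add_mem' := fun {x y} h1 h2 => by
        obtain ⟨m, hm, hx⟩ := h1
        obtain ⟨n, hn, hy⟩ := h2
        refine ⟨m * n, mul_ne_zero hm hn, ?_⟩
        have e : (m * n) • (x + y) = n • (m • x) + m • (n • y) := by
          rw [smul_add, ← mul_smul, ← mul_smul, mul_comm n m]
        rw [e]
        exact AddSubgroup.add_mem _ (AddSubgroup.zsmul_mem _ hx n)
          (AddSubgroup.zsmul_mem _ hy m)
      zero_mem' := ⟨1, one_ne_zero, by rw [smul_zero]; exact AddSubgroup.zero_mem _⟩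
      smul_mem' := fun c x h1 => by
        obtain ⟨m, hm, hx⟩ := h1
        refine ⟨m, hm, ?_⟩
        have e : m • (c • x) = c • (m • x) := by
          rw [← mul_smul, ← mul_smul, mul_comm]
        rw [e]
        exact AddSubgroup.zsmul_mem _ hx c }
  have hPc : ∀ x : A, x ∈ Pc ↔ ∃ m : ℤ, m ≠ 0 ∧ m • x ∈ AddSubgroup.closure (F : Set A) ⊔ B :=
    fun _ => Iff.rfl
  obtain ⟨F', hF', hFm⟩ := Tless_lift Φ Pc
  refine ⟨F', fun m x hm hx => ?_⟩
  have hxP : x ∈ Pc := ⟨m, hm, hx⟩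
  have h1 : Φ x ∈ (Submodule.span ℤ (F' : Set A)).map Φ := by
    rw [hFm]; exact Submodule.mem_map_of_mem hxP
  obtain ⟨y, hy, hyx⟩ := Submodule.mem_map.1 h1
  have hyP : y ∈ Pc := (Submodule.span_le.2 (fun t ht => hF' t ht)) hy
  have hy' : y ∈ AddSubgroup.closure (F' : Set A) := by
    have e : (Submodule.span ℤ (F' : Set A)).toAddSubgroup = AddSubgroup.closure (F' : Set A) :=
      Submodule.span_int_eq_addSubgroupClosure _
    rw [← e]
    exact hy
  have hz : x - y ∈ Pc := Pc.sub_mem hxP hyP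
  obtain ⟨n, hn, hzn⟩ := (hPc _).1 hz
  obtain ⟨p, hp, b, hb, hpb⟩ := AddSubgroup.mem_sup.1 hzn
  have hzΦ : Φ (x - y) = 0 := by rw [map_sub, hyx, sub_self]
  have hpΦ : Φ p = 0 := by
    ext s
    rw [hΦ]
    have e1 : (s : A →ₗ[ℤ] ℤ) (p + b) = (s : A →ₗ[ℤ] ℤ) (n • (x - y)) := by rw [hpb]
    have e2 : (s : A →ₗ[ℤ] ℤ) (x - y) = 0 := by
      have := congrFun hzΦ s
      rw [hΦ] at this
      exact this
    rw [map_add, map_smul, e2, (hΛ _).1 (hSΛ s s.2) b hb, add_zero, smul_zero] at e1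
    exact e1
  have hzB : x - y ∈ B := by
    refine h _ fun μ hμ => ?_
    have h3 := key p hp hpΦ μ.toIntLinearMap hμ
    have h3' : μ p = 0 := h3
    have e1 : μ (p + b) = μ (n • (x - y)) := by rw [hpb]
    rw [map_add, h3', hμ b hb, add_zero, map_zsmul] at e1
    rcases smul_eq_zero.1 e1.symm with h4 | h4
    · exact absurd h4 hn
    · exact h4
  have e : x = y + (x - y) := by abel
  rw [e]
  exact AddSubgroup.add_mem _ (AddSubgroup.mem_sup_left hy') (AddSubgroup.mem_sup_right hzB)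

end Pool.Agent.Helper39.AH
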