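import Pool.Agent.Helper39.AH.Trans
import Pool.Agent.Helper39.AH.FinComap
import Pool.Agent.Helper39.AH.Tless
import Pool.Agent.Helper39.AH.ExtFR

/-!
# AH: the property FR does not depend on the presentation
-/

namespace Pool.Agent.Helper39.AH

noncomputable section

variable {X X' R R' Γ : Type} [Group Γ]

/-- The pull back of 1-cochains along a homomorphism of the free groups. -/
def pb (σ' : X' → Γ) (α : X → FreeGroup X') : (X' → (Γ →₀ ℤ)) →+ (X → (Γ →₀ ℤ)) where
  toFun b x := der σ' b (α x)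
  map_zero' := by funext x; simp
  map_add' b c := by funext x; simp [der_add]

lemma lift_pb (σ : X → Γ) (σ' : X' → Γ) (α : X → FreeGroup X')
    (hα : ∀ x, FreeGroup.lift σ' (α x) = σ x) (u : FreeGroup X) :
    FreeGroup.lift σ' (FreeGroup.lift α u) = FreeGroup.lift σ u := by
  have h : (FreeGroup.lift σ').comp (FreeGroup.lift α) = FreeGroup.lift σ := by
    apply FreeGroup.ext_hom
    intro x
    simp [hα]
  rw [← h]
  rfl

lemma der_pb (σ : X → Γ) (σ' : X' → Γ) (α : X → FreeGroup X')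
    (hα : ∀ x, FreeGroup.lift σ' (α x) = σ x) (b : X' → (Γ →₀ ℤ)) (u : FreeGroup X) :
    der σ (pb σ' α b) u = der σ' b (FreeGroup.lift α u) := by
  have h := eq_der σ (fun u => der σ' b (FreeGroup.lift α u))
    (by
      intro u v
      rw [map_mul, der_mul, lift_pb σ σ' α hα]) u
  simp only [FreeGroup.lift_apply_of] at h
  exact h.symm

/-- A family of equivariant operators as one operator. -/
def fam {I : Type} (T : I → ((R → (Γ →₀ ℤ)) →+ (Γ →₀ ℤ))) :
    (R → (Γ →₀ ℤ)) →+ (I → (Γ →₀ ℤ)) where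
  toFun c i := T i c
  map_zero' := by funext i; simp
  map_add' c c' := by funext i; simp

/-- The chain map in degree two. -/
lemma exists_deg2 (σ : X → Γ) (rel : R → List (X × Bool)) (σ' : X' → Γ)
    (rel' : R' → List (X' × Bool)) (hP : Pres σ rel) (hP' : Pres σ' rel')
    (α : X → FreeGroup X') (hα : ∀ x, FreeGroup.lift σ' (α x) = σ x) :
    ∃ T : R → ((R' → (Γ →₀ ℤ)) →+ (Γ →₀ ℤ)), (∀ ρ, Equi (T ρ)) ∧
      ∀ b, fam T (cob σ' rel' b) = cob σ rel (pb σ' α b) := by
  have h1 : ∀ ρ, ∃ T : (R' → (Γ →₀ ℤ)) →+ (Γ →₀ ℤ), Equi T ∧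
      ∀ b, T (cob σ' rel' b) = der σ' b (FreeGroup.lift α (FreeGroup.mk (rel ρ))) := by
    intro ρ
    apply fill σ' rel' hP'
    rw [lift_pb σ σ' α hα]
    have : FreeGroup.mk (rel ρ) ∈ (FreeGroup.lift σ).ker := by
      rw [hP]
      exact Subgroup.subset_normalClosure ⟨ρ, rfl⟩
    exact this
  choose T hT hTb using h1
  refine ⟨T, hT, ?_⟩
  intro b
  funext ρ
  change T ρ (cob σ' rel' b) = der σ (pb σ' α b) (FreeGroup.mk (rel ρ))
  rw [hTb, der_pb σ σ' α hα]

lemma Equi.comp_fam {T : R → ((R' → (Γ →₀ ℤ)) →+ (Γ →₀ ℤ))} (hT : ∀ ρ, Equi (T ρ))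
    {U : (R → (Γ →₀ ℤ)) →+ (Γ →₀ ℤ)} (hU : Equi U) : Equi (U.comp (fam T)) := by
  intro g c
  have h1 : fam T (fun ρ => lt g (c ρ)) = fun ρ => lt g (fam T c ρ) := by
    funext ρ
    exact hT ρ g c
  rw [AddMonoidHom.comp_apply, AddMonoidHom.comp_apply, h1, hU]

lemma Equi.sub {T U : (R → (Γ →₀ ℤ)) →+ (Γ →₀ ℤ)} (hT : Equi T) (hU : Equi U) :
    Equi (T - U) := by
  intro g c
  rw [AddMonoidHom.sub_apply, AddMonoidHom.sub_apply, hT, hU, map_sub]

/-- The value of a coordinate. -/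
def evR (ρ : R) : (R → (Γ →₀ ℤ)) →+ (Γ →₀ ℤ) := Pi.evalAddMonoidHom _ ρ

lemma equi_evR (ρ : R) : Equi (evR (Γ := Γ) ρ) := fun _ _ => rfl

/-- The derivation as an operator. -/
def derOp (σ : X → Γ) (H : X → ((R → (Γ →₀ ℤ)) →+ (Γ →₀ ℤ))) (u : FreeGroup X) :
    (R → (Γ →₀ ℤ)) →+ (Γ →₀ ℤ) :=
  (derA σ u).comp (fam H)

lemma equi_derOp (σ : X → Γ) (H : X → ((R → (Γ →₀ ℤ)) →+ (Γ →₀ ℤ))) (hH : ∀ x, Equi (H x))
    (u : FreeGroup X) : Equi (derOp σ H u) := by
  intro g c
  change der σ (fam H fun ρ => lt g (c ρ)) u = lt g (der σ (fam H c) u)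
  have h1 : fam H (fun ρ => lt g (c ρ)) = fun x => lt g (fam H c x) := by
    funext x
    exact hH x g c
  rw [h1, der_lt]

theorem FR_inv (σ : X → Γ) (rel : R → List (X × Bool)) (σ' : X' → Γ)
    (rel' : R' → List (X' × Bool)) (hP : Pres σ rel) (hP' : Pres σ' rel')
    (h1 : ∀ x, ∃ u, FreeGroup.lift σ' u = σ x) (h2 : ∀ x, ∃ u, FreeGroup.lift σ u = σ' x)
    (h : FR (cob σ' rel').range) : FR (cob σ rel).range := by
  classical
  choose α hα using h1
  choose β hβ using h2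
  obtain ⟨T, hT, hTb⟩ := exists_deg2 σ rel σ' rel' hP hP' α hα
  obtain ⟨U, hU, hUb⟩ := exists_deg2 σ' rel' σ rel hP' hP β hβ
  -- the homotopy
  have h3 : ∀ x, ∃ H : (R → (Γ →₀ ℤ)) →+ (Γ →₀ ℤ), Equi H ∧
      ∀ b, H (cob σ rel b) =
        der σ b (FreeGroup.lift β (α x) * (FreeGroup.of x)⁻¹) := by
    intro x
    apply fill σ rel hP
    rw [map_mul, lift_pb σ' σ β hβ, hα, map_inv, FreeGroup.lift_apply_of, mul_inv_cancel]
  choose H hH hHb using h3
  have hHb' : ∀ b, fam H (cob σ rel b) = pb σ' α (pb σ β b) - b := by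
    intro b
    funext x
    change H x (cob σ rel b) = _
    rw [hHb, der_mul, der_inv, FreeGroup.lift_apply_of, der_of, lift_pb σ' σ β hβ, hα]
    change _ = der σ' (pb σ β b) (α x) - b x
    rw [der_pb σ' σ β hβ]
    ext g
    simp [sub_eq_add_neg]
  -- cocycles are homotopic to their images
  have key : ∀ c ∈ ZZ σ rel, fam T (fam U c) - c ∈ (cob σ rel).range := by
    intro c hc
    refine ⟨fam H c, ?_⟩
    funext ρ
    have hV : Equi (((T ρ).comp (fam U) - evR ρ) - derOp σ H (FreeGroup.mk (rel ρ))) :=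
      ((Equi.comp_fam hU (hT ρ)).sub (equi_evR ρ)).sub (equi_derOp σ H hH _)
    have hV0 := hc _ hV (by
      intro b
      rw [AddMonoidHom.sub_apply, AddMonoidHom.sub_apply, AddMonoidHom.comp_apply, hUb]
      have e1 : T ρ (cob σ' rel' (pb σ β b)) = cob σ rel (pb σ' α (pb σ β b)) ρ :=
        congrFun (hTb (pb σ β b)) ρ
      have e2 : derOp σ H (FreeGroup.mk (rel ρ)) (cob σ rel b) =
          cob σ rel (pb σ' α (pb σ β b) - b) ρ := by
        change der σ (fam H (cob σ rel b)) _ = _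
        rw [hHb']
        rfl
      rw [e1, e2, map_sub]
      change _ - cob σ rel b ρ - (_ - cob σ rel b ρ) = 0
      abel)
    rw [AddMonoidHom.sub_apply, sub_eq_zero, AddMonoidHom.sub_apply,
      AddMonoidHom.comp_apply] at hV0
    change der σ (fam H c) (FreeGroup.mk (rel ρ)) = T ρ (fam U c) - c ρ
    exact hV0.symm
  have hle : (cob σ rel).range ≤ ZZ σ rel := by
    rintro _ ⟨b, rfl⟩ T' _ h5
    exact h5 b
  refine FR_ext (cob σ rel).range (ZZ σ rel).subtype ?_ ?_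
  · refine FR_of_torsionless _ ?_
    intro x hx
    apply AddSubgroup.mem_sup_right
    rw [AddSubgroup.range_subtype]
    intro T' hT' h5
    ext g
    refine hx ((Finsupp.applyAddHom g).comp T') ?_
    intro b hb
    obtain ⟨y, ⟨p, rfl⟩, z, hz, rfl⟩ := AddSubgroup.mem_sup.mp hb
    rw [AddSubgroup.range_subtype] at hz
    rw [AddMonoidHom.comp_apply, map_add, h5, hz T' hT' h5]
    simp
  · intro F
    obtain ⟨F2, hF2⟩ := h (F.image fun z : ZZ σ rel => fam U (z : R → (Γ →₀ ℤ)))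
    obtain ⟨F', hF'⟩ := exists_finset_comap (cob σ rel).range (ZZ σ rel).subtype
      (F2.image (fam T))
    refine ⟨F', ?_⟩
    intro m x hm hx
    apply hF'
    have a1 : fam U ((m • x : ZZ σ rel) : R → (Γ →₀ ℤ)) ∈
        AddSubgroup.closure ((F.image fun z : ZZ σ rel => fam U (z : R → (Γ →₀ ℤ)) : Finset _) : Set _) ⊔
          (cob σ' rel').range := by
      obtain ⟨y, hy, z, hz, hyz⟩ := AddSubgroup.mem_sup.mp hx
      rw [← hyz]
      obtain ⟨b, hb⟩ := hz
      refine AddSubgroup.mem_sup.mpr ⟨fam U (y : R → (Γ →₀ ℤ)), ?_, fam U (z : R → (Γ →₀ ℤ)),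
        ?_, ?_⟩
      · have h6 : AddSubgroup.closure (F : Set (ZZ σ rel)) ≤
            (AddSubgroup.closure
              ((F.image fun z : ZZ σ rel => fam U (z : R → (Γ →₀ ℤ)) : Finset _) : Set _)).comap
              ((fam U).comp (ZZ σ rel).subtype) := by
          rw [AddSubgroup.closure_le]
          intro z hz
          apply AddSubgroup.subset_closure
          rw [Finset.coe_image]
          exact ⟨z, hz, rfl⟩
        exact h6 hy
      · have h7 : (z : R → (Γ →₀ ℤ)) = cob σ rel b := hb.symm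
        rw [h7, hUb]
        exact ⟨_, rfl⟩
      · rw [← map_add]
        rfl
    have a2 : fam U (x : R → (Γ →₀ ℤ)) ∈ AddSubgroup.closure (F2 : Set _) ⊔
        (cob σ' rel').range := by
      apply hF2 m _ hm
      rw [← map_zsmul]
      exact a1
    obtain ⟨y, hy, z, ⟨b, hb⟩, hyz⟩ := AddSubgroup.mem_sup.mp a2
    have a3 : fam T (fam U (x : R → (Γ →₀ ℤ))) = fam T y + cob σ rel (pb σ' α b) := by
      rw [← hyz, map_add, ← hb, hTb]
    have a4 : fam T y ∈ AddSubgroup.closure ((F2.image (fam T) : Finset _) : Set _) := by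
      rw [Finset.coe_image, ← AddMonoidHom.map_closure]
      exact ⟨y, hy, rfl⟩
    have a5 := key _ x.2
    have a6 : (x : R → (Γ →₀ ℤ)) = fam T y +
        (cob σ rel (pb σ' α b) - (fam T (fam U (x : R → (Γ →₀ ℤ))) - x)) := by
      rw [a3]; abel
    change (x : R → (Γ →₀ ℤ)) ∈ _
    rw [a6]
    exact AddSubgroup.mem_sup.mpr ⟨_, a4, _,
      (cob σ rel).range.sub_mem ⟨_, rfl⟩ a5, rfl⟩

/-- The property FR for isomorphic presented groups. -/
theorem FR_presentation {X X' R R' : Type} (rel : R → List (X × Bool))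
    (rel' : R' → List (X' × Bool)) (e : Gp rel' ≃* Gp rel)
    (h : FR (cob (gn rel') rel').range) : FR (cob (gn rel) rel).range := by
  refine FR_inv (gn rel) rel (fun x => e (gn rel' x)) rel' (pres_gn rel)
    (pres_iso e _ _ (pres_gn rel')) ?_ ?_ (FR_iso e _ _ h)
  · intro x
    obtain ⟨u, hu⟩ := gn_surj rel' (e.symm (gn rel x))
    refine ⟨u, ?_⟩
    rw [lift_mv, hu, e.apply_symm_apply]
  · intro x
    exact gn_surj rel _

end

end Pool.Agent.Helper39.AH
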