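import Pool.Agent.Helper39.AH.Defs

/-!
# AH-KerFG: finite presentability does not depend on the generators

Proof. Let `Γ = Gp rel`. For `x : X` choose `α x : FreeGroup Y` with
`FreeGroup.lift π (α x) = gn rel x` (surjectivity), and for `y : Y` choose `β y : FreeGroup X`
with `PresentedGroup.mk _ (β y) = π y`; write `α` also for `FreeGroup.lift α`. Let
`T = {α (mk (rel ρ))} ∪ {(FreeGroup.of y)⁻¹ * α (β y)}`, a finite set (`R`, `Y` finite), and let
`N` be its normal closure. `N ≤ ker`: `lift π ∘ α : FreeGroup X →* Γ` agrees with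
`PresentedGroup.mk _` on the letters, so everywhere; hence `α (mk (rel ρ))` goes to `1` and
`α (β y)` goes to `π y`. `ker ≤ N`: the homomorphism `FreeGroup X → FreeGroup Y ⧸ N`, the class
of `α`, kills the relators, so it factors through `θ : Γ →* FreeGroup Y ⧸ N`
(`PresentedGroup.toGroup`), `θ (PresentedGroup.mk _ v) = class of α v`. The composition
`θ ∘ lift π : FreeGroup Y →* FreeGroup Y ⧸ N` sends `of y` to `θ (π y) = class of α (β y)`, the
class of `of y`; so it is the projection. If `lift π u = 1`, the class of `u` is `1`.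
-/

namespace Pool.Agent.Helper39.AH

theorem ker_fg {X R Y : Type} [Finite R] [Finite Y] (rel : R → List (X × Bool))
    (π : Y → Gp rel) (hπ : Function.Surjective (FreeGroup.lift π)) :
    ∃ T : Finset (FreeGroup Y), (FreeGroup.lift π).ker = Subgroup.normalClosure (T : Set _) := by
  classical
  haveI := Fintype.ofFinite R
  haveI := Fintype.ofFinite Y
  choose α hα using fun x : X => hπ (gn rel x)
  choose β hβ using fun y : Y => PresentedGroup.mk_surjective _ (π y)
  let T : Finset (FreeGroup Y) :=
    (Finset.univ.image fun ρ : R => FreeGroup.lift α (FreeGroup.mk (rel ρ))) ∪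
      (Finset.univ.image fun y : Y => (FreeGroup.of y)⁻¹ * FreeGroup.lift α (β y))
  have hcomp : ∀ v : FreeGroup X, FreeGroup.lift π (FreeGroup.lift α v) = PresentedGroup.mk _ v := by
    intro v
    have h : (FreeGroup.lift π).comp (FreeGroup.lift α) =
        PresentedGroup.mk (Set.range fun ρ => FreeGroup.mk (rel ρ)) := by
      apply FreeGroup.ext_hom
      intro x
      simp only [MonoidHom.comp_apply, FreeGroup.lift_apply_of, hα]
      rfl
    rw [← h]
    rfl
  refine ⟨T, le_antisymm ?_ ?_⟩
  · -- the kernel is contained in the normal closure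
    set N := Subgroup.normalClosure (T : Set (FreeGroup Y)) with hN
    let θ0 : FreeGroup X →* FreeGroup Y ⧸ N := (QuotientGroup.mk' N).comp (FreeGroup.lift α)
    have hθ0 : ∀ r ∈ Set.range (fun ρ => FreeGroup.mk (rel ρ)), θ0 r = 1 := by
      rintro _ ⟨ρ, rfl⟩
      change (QuotientGroup.mk' N) (FreeGroup.lift α (FreeGroup.mk (rel ρ))) = 1
      rw [← MonoidHom.mem_ker, QuotientGroup.ker_mk']
      apply Subgroup.subset_normalClosure
      simp [T]
    let θ : Gp rel →* FreeGroup Y ⧸ N :=
      PresentedGroup.toGroup (f := fun x => θ0 (FreeGroup.of x)) (by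
        intro r hr
        have h1 : FreeGroup.lift (fun x => θ0 (FreeGroup.of x)) = θ0 := by
          apply FreeGroup.ext_hom
          intro x
          simp
        rw [h1]
        exact hθ0 r hr)
    have hθ : ∀ v : FreeGroup X, θ (PresentedGroup.mk _ v) = θ0 v := by
      intro v
      have h1 : θ.comp (PresentedGroup.mk _) = θ0 := by
        apply FreeGroup.ext_hom
        intro x
        have h2 : θ (PresentedGroup.of x) = θ0 (FreeGroup.of x) := by
          simp only [θ]
          rw [PresentedGroup.toGroup.of]
        exact h2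
      rw [← h1]
      rfl
    have hproj : θ.comp (FreeGroup.lift π) = QuotientGroup.mk' N := by
      apply FreeGroup.ext_hom
      intro y
      rw [MonoidHom.comp_apply, FreeGroup.lift_apply_of, ← hβ, hθ]
      change (QuotientGroup.mk' N) (FreeGroup.lift α (β y)) = (QuotientGroup.mk' N) (FreeGroup.of y)
      symm
      rw [QuotientGroup.mk'_eq_mk']
      refine ⟨(FreeGroup.of y)⁻¹ * FreeGroup.lift α (β y), ?_, by simp⟩
      apply Subgroup.subset_normalClosure
      simp [T]
    intro u hu
    rw [MonoidHom.mem_ker] at hu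
    have h1 : (QuotientGroup.mk' N) u = 1 := by
      rw [← hproj, MonoidHom.comp_apply, hu, map_one]
    rwa [← MonoidHom.mem_ker, QuotientGroup.ker_mk'] at h1
  · apply Subgroup.normalClosure_le_normal
    intro v hv
    simp only [T, Finset.coe_union, Finset.coe_image, Finset.coe_univ, Set.image_univ,
      Set.mem_union, Set.mem_range] at hv
    rw [SetLike.mem_coe, MonoidHom.mem_ker]
    rcases hv with ⟨ρ, rfl⟩ | ⟨y, rfl⟩
    · rw [hcomp]
      exact PresentedGroup.one_of_mem ⟨ρ, rfl⟩
    · rw [map_mul, map_inv, hcomp, hβ, FreeGroup.lift_apply_of, inv_mul_cancel]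

end Pool.Agent.Helper39.AH
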