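import Pool.Agent.Helper39.AH.Rel
import Pool.Agent.Helper39.AH.KerFG

/-!
# AH-Recog: recognition of ascending HNN extensions among finitely presented groups

Proof. Write `Γ = Gp rel`. As `A` is finitely generated there are a finite type `S` and
`sA : S → Γ` with `Subgroup.closure (Set.range sA) = A`. For `s : S` the element
`t⁻¹ * sA s * t` is in `A`, the range of `FreeGroup.lift sA` (`FreeGroup.range_lift_eq_closure`),
so there is a word `w s` with `FreeGroup.lift sA (mk (w s)) = t⁻¹ * sA s * t`. Let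
`φ = FreeGroup.lift (fun s => mk (w s))`, so that
`lift sA v * t = t * lift sA (φ v)` for all `v : FreeGroup S`.

Let `Y = Option S`, `π none = t`, `π (some s) = sA s`. `FreeGroup.lift π` is surjective by
`hgen`. By `ker_fg` its kernel is the normal closure of a finite set `T`.

Normal form. Let `N'` be the normal closure in `FreeGroup Y` of the
`of (some s) * of none * (upF (mk (w s)))⁻¹ * (of none)⁻¹`. Modulo `N'` (in the quotient) we have
`upF v * τ = τ * upF (φ v)` for all `v : FreeGroup S`, where `τ = of none`. Every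
`u : FreeGroup Y` is congruent modulo `N'` to some `τ^i * upF v * (τ^j)⁻¹`, `i j : ℕ`: the set of
such `u` contains `1` and is closed under right multiplication by the letters and their inverses:
`(τ^j)⁻¹ * upF v' ≡ upF (φ^j v') * (τ^j)⁻¹`; `(τ^j)⁻¹ * τ⁻¹ = (τ^(j+1))⁻¹`; for `τ` cancel if
`j > 0`, and for `j = 0` use `upF v * τ ≡ τ * upF (φ v)`.

For `u ∈ T` we have `π u = 1`, so `χ` of it gives `i = j`: `u ≡ τ^i * upF (v u) * (τ^i)⁻¹`, and
applying `lift π` (which kills `N'`), `lift sA (v u) = 1`. Let `R' = T` (as a type) and `r u` a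
word with `mk (r u) = v u`.

The homomorphism `e : Gp (ascRel w r) →* Γ`, `PresentedGroup.toGroup` for `π`, is well defined
(`mk_ascRel_inl`, `mk_ascRel_inr` in `Rel.lean`), and surjective. Injective: let
`e (PresentedGroup.mk _ u) = 1`, i.e. `lift π u = 1`, i.e. `u` is in the normal closure of `T`;
the elements of `T` are trivial in `Gp (ascRel w r)`, because `N'` and the `upF (v u)` are; so
`PresentedGroup.mk _ u = 1`. Finally `(base w r).map e` is the closure of the `sA s`, which is
`A` (`MonoidHom.map_closure`).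
-/

namespace Pool.Agent.Helper39.AH

private theorem Recog_iter {S G : Type} [Group G] (q : FreeGroup S →* G) (τ : G)
    (φ : FreeGroup S →* FreeGroup S) (hq : ∀ v, q v * τ = τ * q (φ v)) (m : ℕ) :
    ∀ v, q v * τ ^ m = τ ^ m * q (φ^[m] v) := by
  induction m with
  | zero => intro v; simp
  | succ m ih =>
    intro v
    rw [pow_succ', ← mul_assoc, hq, mul_assoc, ih, ← mul_assoc, Function.iterate_succ_apply]

/-- the normal form -/
private theorem Recog_nf {S G : Type} [Group G] (q : FreeGroup S →* G) (τ : G)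
    (φ : FreeGroup S →* FreeGroup S) (hq : ∀ v, q v * τ = τ * q (φ v))
    (F : FreeGroup (Option S) →* G) (hF1 : F (FreeGroup.of none) = τ)
    (hF2 : ∀ s, F (FreeGroup.of (some s)) = q (FreeGroup.of s)) (u : FreeGroup (Option S)) :
    ∃ (i j : ℕ) (v : FreeGroup S), F u = τ ^ i * q v * (τ ^ j)⁻¹ := by
  induction u using FreeGroup.induction_on with
  | C1 => exact ⟨0, 0, 1, by simp⟩
  | of o =>
    cases o with
    | none => exact ⟨1, 0, 1, by rw [hF1]; simp⟩
    | some s => exact ⟨0, 0, FreeGroup.of s, by rw [hF2]; simp⟩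
  | inv_of o h =>
    obtain ⟨i, j, v, hv⟩ := h
    exact ⟨j, i, v⁻¹, by rw [map_inv, hv, map_inv]; group⟩
  | mul u u' h h' =>
    obtain ⟨i, j, v, hv⟩ := h
    obtain ⟨i', j', v', hv'⟩ := h'
    rw [map_mul, hv, hv']
    rcases le_total j i' with hj | hj
    · obtain ⟨m, rfl⟩ := Nat.exists_eq_add_of_le hj
      refine ⟨i + m, j', φ^[m] v * v', ?_⟩
      have h1 := Recog_iter q τ φ hq m v
      rw [map_mul, pow_add τ i m, pow_add τ j m]
      calc τ ^ i * q v * (τ ^ j)⁻¹ * (τ ^ j * τ ^ m * q v' * (τ ^ j')⁻¹)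
          = τ ^ i * (q v * τ ^ m) * q v' * (τ ^ j')⁻¹ := by group
        _ = τ ^ i * (τ ^ m * q (φ^[m] v)) * q v' * (τ ^ j')⁻¹ := by rw [h1]
        _ = τ ^ i * τ ^ m * (q (φ^[m] v) * q v') * (τ ^ j')⁻¹ := by group
    · obtain ⟨m, rfl⟩ := Nat.exists_eq_add_of_le hj
      refine ⟨i, j' + m, v * φ^[m] v', ?_⟩
      have h1 := Recog_iter q τ φ hq m v'
      have h2 : (τ ^ m)⁻¹ * q v' = q (φ^[m] v') * (τ ^ m)⁻¹ := by
        rw [inv_mul_eq_iff_eq_mul, ← mul_assoc, ← h1, mul_inv_cancel_right]
      rw [map_mul, pow_add τ i' m, pow_add τ j' m]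
      calc τ ^ i * q v * (τ ^ i' * τ ^ m)⁻¹ * (τ ^ i' * q v' * (τ ^ j')⁻¹)
          = τ ^ i * q v * ((τ ^ m)⁻¹ * q v') * (τ ^ j')⁻¹ := by group
        _ = τ ^ i * q v * (q (φ^[m] v') * (τ ^ m)⁻¹) * (τ ^ j')⁻¹ := by rw [h2]
        _ = τ ^ i * (q v * q (φ^[m] v')) * (τ ^ j' * τ ^ m)⁻¹ := by
          rw [mul_inv_rev]; group

theorem recog {X R : Type} [Finite R] (rel : R → List (X × Bool)) (A : Subgroup (Gp rel))
    (t : Gp rel) (χ : Gp rel →* Multiplicative ℤ) (hA : A.FG)
    (hAt : ∀ a ∈ A, t⁻¹ * a * t ∈ A) (hgen : A ⊔ Subgroup.zpowers t = ⊤)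
    (hχA : ∀ a ∈ A, χ a = 1) (hχt : χ t = Multiplicative.ofAdd 1) :
    ∃ (S R' : Type) (_ : Finite S) (_ : Finite R') (w : S → List (S × Bool))
      (r : R' → List (S × Bool)) (e : Gp (ascRel w r) ≃* Gp rel),
      (base w r).map e.toMonoidHom = A := by
  classical
  obtain ⟨F, hF⟩ := hA
  set S : Type := {x // x ∈ F} with hS
  set sA : S → Gp rel := Subtype.val with hsA
  have hcl : Subgroup.closure (Set.range sA) = A := by
    rw [hsA, Subtype.range_coe_subtype]
    exact hF
  have hrange : (FreeGroup.lift sA).range = A := by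
    rw [FreeGroup.range_lift_eq_closure, hcl]
  have hmemA : ∀ v, FreeGroup.lift sA v ∈ A := fun v => by
    rw [← hrange]
    exact ⟨v, rfl⟩
  have hsA' : ∀ s, sA s ∈ A := fun s => by
    have h := hmemA (FreeGroup.of s)
    rwa [FreeGroup.lift_apply_of] at h
  have hw : ∀ s : S, ∃ L : List (S × Bool), FreeGroup.lift sA (FreeGroup.mk L) = t⁻¹ * sA s * t := by
    intro s
    have h := hAt _ (hsA' s)
    rw [← hrange] at h
    obtain ⟨u, hu⟩ := h
    obtain ⟨L, rfl⟩ := Quot.exists_rep u
    exact ⟨L, hu⟩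
  choose w hw using hw
  set φ : FreeGroup S →* FreeGroup S := FreeGroup.lift fun s => FreeGroup.mk (w s) with hφ
  have hφs : ∀ s, φ (FreeGroup.of s) = FreeGroup.mk (w s) := fun s => by
    rw [hφ, FreeGroup.lift_apply_of]
  set π : Option S → Gp rel := fun o => o.elim t sA with hπ
  have hπup : ∀ u, FreeGroup.lift π (upF u) = FreeGroup.lift sA u := by
    intro u
    have h : (FreeGroup.lift π).comp upF = FreeGroup.lift sA := by
      apply FreeGroup.ext_hom
      intro x
      simp [upF, hπ]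
    exact DFunLike.congr_fun h u
  have hπt : FreeGroup.lift π (FreeGroup.of none) = t := by
    rw [FreeGroup.lift_apply_of]
    rfl
  have hsurj : Function.Surjective (FreeGroup.lift π) := by
    rw [← MonoidHom.range_eq_top, eq_top_iff, ← hgen, sup_le_iff]
    constructor
    · intro a ha
      rw [← hrange] at ha
      obtain ⟨u, rfl⟩ := ha
      exact ⟨upF u, hπup u⟩
    · rw [Subgroup.zpowers_le]
      exact ⟨FreeGroup.of none, hπt⟩
  obtain ⟨T, hT⟩ := ker_fg rel π hsurj
  -- the first relators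
  set rl : S → FreeGroup (Option S) := fun s => FreeGroup.of (some s) * FreeGroup.of none *
    (upF (FreeGroup.mk (w s)))⁻¹ * (FreeGroup.of none)⁻¹ with hrl
  have hrls : ∀ s, rl s = FreeGroup.of (some s) * FreeGroup.of none *
    (upF (FreeGroup.mk (w s)))⁻¹ * (FreeGroup.of none)⁻¹ := fun s => rfl
  set N' : Subgroup (FreeGroup (Option S)) := Subgroup.normalClosure (Set.range rl) with hN'
  set q0 : FreeGroup S →* FreeGroup (Option S) ⧸ N' := (QuotientGroup.mk' N').comp upF with hq0
  set τ0 : FreeGroup (Option S) ⧸ N' := QuotientGroup.mk' N' (FreeGroup.of none) with hτ0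
  have hq0s : ∀ s, q0 (FreeGroup.of s) * τ0 = τ0 * q0 (FreeGroup.mk (w s)) := by
    intro s
    have h1 : QuotientGroup.mk' N' (rl s) = 1 := by
      rw [← MonoidHom.mem_ker, QuotientGroup.ker_mk']
      exact Subgroup.subset_normalClosure ⟨s, rfl⟩
    rw [hrls] at h1
    simp only [map_mul, map_inv] at h1
    rw [mul_inv_eq_one, mul_inv_eq_iff_eq_mul] at h1
    have h2 : upF (FreeGroup.of s) = FreeGroup.of (some s) := by simp [upF]
    change QuotientGroup.mk' N' (upF (FreeGroup.of s)) * _ = _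
    rw [h2]
    exact h1
  have hq : ∀ v, q0 v * τ0 = τ0 * q0 (φ v) := by
    intro v
    induction v using FreeGroup.induction_on with
    | C1 => simp
    | of s => rw [hφs]; exact hq0s s
    | inv_of s h =>
      rw [map_inv, map_inv, map_inv, inv_mul_eq_iff_eq_mul, ← mul_assoc, h, mul_assoc,
        mul_inv_cancel, mul_one]
    | mul u v hu hv =>
      rw [map_mul, map_mul, map_mul, mul_assoc, hv, ← mul_assoc, hu, mul_assoc]
  have hnf := Recog_nf q0 τ0 φ hq (QuotientGroup.mk' N') rfl (fun s => by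
    change _ = QuotientGroup.mk' N' (upF (FreeGroup.of s))
    simp [upF])
  choose ni nj nv hnv using hnf
  have hnf' : ∀ u, u * (FreeGroup.of none ^ ni u * upF (nv u) * (FreeGroup.of none ^ nj u)⁻¹)⁻¹ ∈
      N' := by
    intro u
    have h1 := hnv u
    have h2 : τ0 ^ ni u * q0 (nv u) * (τ0 ^ nj u)⁻¹ = QuotientGroup.mk' N'
        (FreeGroup.of none ^ ni u * upF (nv u) * (FreeGroup.of none ^ nj u)⁻¹) := by
      rw [map_mul, map_mul, map_inv, map_pow, map_pow]
      rfl
    rw [h2] at h1
    rw [← QuotientGroup.ker_mk' N', MonoidHom.mem_ker, map_mul, map_inv, h1, mul_inv_cancel]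
  -- every homomorphism which kills the first relators
  have hgenl : ∀ {G : Type} [Group G] (Φ : FreeGroup (Option S) →* G), (∀ s, Φ (rl s) = 1) →
      ∀ u, Φ u = Φ (FreeGroup.of none) ^ ni u * Φ (upF (nv u)) * (Φ (FreeGroup.of none) ^ nj u)⁻¹ := by
    intro G _ Φ hΦ u
    have h1 : N' ≤ Φ.ker := by
      rw [hN']
      apply Subgroup.normalClosure_le_normal
      rintro _ ⟨s, rfl⟩
      exact hΦ s
    have h2 := h1 (hnf' u)
    rw [MonoidHom.mem_ker, map_mul, map_inv, mul_inv_eq_one] at h2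
    rw [h2, map_mul, map_mul, map_inv, map_pow, map_pow]
  have hπrl : ∀ s, FreeGroup.lift π (rl s) = 1 := by
    intro s
    rw [hrls]
    simp only [map_mul, map_inv]
    rw [hπup, hw, hπt, FreeGroup.lift_apply_of]
    change sA s * t * (t⁻¹ * sA s * t)⁻¹ * t⁻¹ = 1
    group
  have hT1 : ∀ u ∈ T, ni u = nj u ∧ FreeGroup.lift sA (nv u) = 1 := by
    intro u hu
    have h1 : FreeGroup.lift π u = 1 := by
      rw [← MonoidHom.mem_ker, hT]
      exact Subgroup.subset_normalClosure hu
    have h2 := hgenl (FreeGroup.lift π) hπrl u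
    rw [h1, hπup, hπt] at h2
    have h3 := congrArg χ h2
    rw [map_one, map_mul, map_mul, map_inv, map_pow, map_pow, hχA _ (hmemA _), hχt, mul_one,
      eq_comm, mul_inv_eq_one, ← ofAdd_nsmul, ← ofAdd_nsmul] at h3
    have h4 : ni u = nj u := by
      have h5 := congrArg Multiplicative.toAdd h3
      simp only [toAdd_ofAdd, nsmul_eq_mul, mul_one] at h5
      exact_mod_cast h5
    refine ⟨h4, ?_⟩
    rw [← h4] at h2
    have h6 : FreeGroup.lift sA (nv u) = (t ^ ni u)⁻¹ * 1 * t ^ ni u := by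
      rw [h2]; group
    rw [h6]; group
  have hr : ∀ u : {u // u ∈ T}, ∃ L : List (S × Bool), FreeGroup.mk L = nv u.1 := fun u =>
    Quot.exists_rep (nv u.1)
  choose r hr using hr
  have hkill : ∀ x ∈ Set.range fun κ => FreeGroup.mk (ascRel w r κ), FreeGroup.lift π x = 1 := by
    rintro _ ⟨κ, rfl⟩
    cases κ with
    | inl s =>
      simp only [mk_ascRel_inl]
      exact hπrl s
    | inr ρ =>
      simp only [mk_ascRel_inr]
      rw [hπup, hr]
      exact (hT1 ρ.1 ρ.2).2
  set e0 : Gp (ascRel w r) →* Gp rel := PresentedGroup.toGroup hkill with he0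
  have he0mk : ∀ u, e0 (PresentedGroup.mk _ u) = FreeGroup.lift π u := fun u => rfl
  have hmkrl : ∀ s, PresentedGroup.mk (Set.range fun κ => FreeGroup.mk (ascRel w r κ)) (rl s) = 1 :=
    fun s => PresentedGroup.one_of_mem ⟨Sum.inl s, mk_ascRel_inl w r s⟩
  have hbij : Function.Bijective e0 := by
    constructor
    · rw [injective_iff_map_eq_one]
      intro x hx
      obtain ⟨u, rfl⟩ := PresentedGroup.mk_surjective _ x
      rw [he0mk, ← MonoidHom.mem_ker, hT] at hx
      have h1 : Subgroup.normalClosure (T : Set (FreeGroup (Option S))) ≤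
          (PresentedGroup.mk (Set.range fun κ => FreeGroup.mk (ascRel w r κ))).ker := by
        apply Subgroup.normalClosure_le_normal
        intro u hu
        have h2 := hgenl (PresentedGroup.mk (Set.range fun κ => FreeGroup.mk (ascRel w r κ)))
          hmkrl u
        have h3 : PresentedGroup.mk (Set.range fun κ => FreeGroup.mk (ascRel w r κ))
            (upF (nv u)) = 1 := by
          have h4 := mk_ascRel_inr w r ⟨u, hu⟩
          rw [hr] at h4
          exact PresentedGroup.one_of_mem ⟨Sum.inr ⟨u, hu⟩, h4⟩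
        rw [h3, (hT1 u hu).1, mul_one, mul_inv_cancel] at h2
        exact h2
      exact h1 hx
    · intro g
      obtain ⟨u, hu⟩ := hsurj g
      exact ⟨PresentedGroup.mk _ u, hu⟩
  refine ⟨S, {u // u ∈ T}, inferInstance, inferInstance, w, r, MulEquiv.ofBijective e0 hbij, ?_⟩
  unfold base
  rw [MonoidHom.map_closure, ← hcl]
  congr 1
  ext x
  constructor
  · rintro ⟨_, ⟨s, rfl⟩, rfl⟩
    refine ⟨s, ?_⟩
    change _ = e0 (PresentedGroup.of (some s))
    rw [he0, PresentedGroup.toGroup.of]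
    rfl
  · rintro ⟨s, rfl⟩
    refine ⟨_, ⟨s, rfl⟩, ?_⟩
    change e0 (PresentedGroup.of (some s)) = _
    rw [he0, PresentedGroup.toGroup.of]
    rfl

end Pool.Agent.Helper39.AH
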