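import Pool.Agent.Helper39.AH.Frame
import Pool.Agent.Helper39.AH.FRasc
import Pool.Agent.Helper39.AH.Inv
import Pool.Agent.Helper39.AH.Recog
import Pool.Agent.Helper39.AH.BS

/-!
# AH: the final theorems
-/

namespace Pool.Agent.Helper39.AH

lemma NoetherianEmbeddable.of_injective {A B : Type} [Group A] [Group B] (i : A →* B)
    (hi : Function.Injective i) (h : NoetherianEmbeddable B) : NoetherianEmbeddable A := by
  obtain ⟨E, iE, hE, f, hf⟩ := h
  refine ⟨E, iE, hE, f.comp (MonoidAlgebra.mapDomainRingHom ℤ i), ?_⟩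
  exact hf.comp (MonoidAlgebra.mapDomain_injective hi)

/-- Semistability of the first homology at infinity for every finite presentation of an
ascending HNN extension with a finitely generated base. -/
theorem asc_semistable {X R : Type} [Finite X] [Finite R] (rel : R → List (X × Bool))
    (A : Subgroup (Gp rel)) (t : Gp rel) (χ : Gp rel →* Multiplicative ℤ) (hA : A.FG)
    (hAt : ∀ a ∈ A, t⁻¹ * a * t ∈ A) (hgen : A ⊔ Subgroup.zpowers t = ⊤)
    (hχA : ∀ a ∈ A, χ a = 1) (hχt : χ t = Multiplicative.ofAdd 1)
    (hN : NoetherianEmbeddable A) : H1Semistable rel := by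
  obtain ⟨S, R', hS, hR', w, r, e, he⟩ := recog rel A t χ hA hAt hgen hχA hχt
  apply semistable_of_FR
  refine FR_presentation rel (ascRel w r) e ?_
  apply FR_cob
  refine (ascOf w r).FR_cobA (ascOf_ker w r) ?_
  rw [ascOf_range]
  let i : base w r →* A :=
    { toFun := fun x => ⟨e x, by rw [← he]; exact ⟨x, x.2, rfl⟩⟩
      map_one' := by ext; simp
      map_mul' := fun x y => by ext; simp }
  refine NoetherianEmbeddable.of_injective i ?_ hN
  intro x y hxy
  have h1 : e (x : Gp (ascRel w r)) = e y := congrArg (fun z : A => (z : Gp rel)) hxy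
  exact Subtype.ext (e.injective h1)

/-- Semistability of the first homology at infinity for finitely presented groups with infinite
abelianization and without nonabelian free subgroups. -/
theorem noFree_semistable {X R : Type} [Finite X] [Finite R] (rel : R → List (X × Bool))
    (χ : Gp rel →* Multiplicative ℤ) (hχ : Function.Surjective χ)
    (hF : ¬ ∃ f : FreeGroup Bool →* Gp rel, Function.Injective f)
    (hN : ∀ A : Subgroup (Gp rel), A.FG → A ≤ χ.ker → NoetherianEmbeddable A) :
    H1Semistable rel := by
  obtain ⟨t, ht⟩ := hχ (Multiplicative.ofAdd 1)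
  obtain ⟨A, hA, hAχ, hgen, hA1 | hA1⟩ := bieri_strebel rel χ t ht hF
  · exact asc_semistable rel A t χ hA hA1 hgen (fun a ha => hAχ ha) ht (hN A hA hAχ)
  · refine asc_semistable rel A t⁻¹ χ⁻¹ hA ?_ ?_ ?_ ?_ (hN A hA hAχ)
    · intro a ha
      rw [inv_inv]
      exact hA1 a ha
    · rw [Subgroup.zpowers_inv]
      exact hgen
    · intro a ha
      rw [MonoidHom.inv_apply, show χ a = 1 from hAχ ha, inv_one]
    · rw [MonoidHom.inv_apply, map_inv, inv_inv, ht]

end Pool.Agent.Helper39.AH
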