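import Mathlib

/-!
# AH-Lat: a directed antitone family of lattices which stabilises

Proof of `torsion_of_dual`: let `N` be a subgroup of `ℤ^ι` and `v ∈ ℤ^ι` such that every
`c ∈ ℤ^ι` which is orthogonal to `N` is orthogonal to `v`. Then `m • v ∈ N` for some `m ≠ 0`.
(Let `Q = ℤ^ι / N`, a finitely generated abelian group, and `T` its torsion. `Q / T` is finitely
generated and torsion free, hence free, and the linear functionals of a free module separate
its points. A functional of `Q / T` gives a functional of `ℤ^ι` which kills `N`, i.e. a vector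
`c` orthogonal to `N`, so it kills `v`. Hence the image of `v` in `Q / T` is zero.)

Proof of `lattice_stab`. The subgroup `Lp = {c | ∀ v ∈ L0, ∑ c i * v i = 0}` of `ℤ^ι` is
finitely generated (Noetherian); by `h1`, directedness (union of finite sets) and `hL` there is
`E'` with `∑ c i * v i = 0` for all `c ∈ Lp`, `v ∈ L E'`. So for `E ⊇ E'` all elements `v` of
`L E` satisfy the hypothesis of `torsion_of_dual` with `N = L0`, i.e. lie in
`LL = {v | ∃ m ≠ 0, m • v ∈ L0}`. `LL` is finitely generated, so there is one `m ≠ 0` with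
`m • LL ≤ L0` and `LL / L0` is a finite group; so there are only finitely many subgroups
between `L0` and `LL` (alternatively `LL / L0` is an Artinian module), and among
the `L E`, `E ⊇ E'`, there is a minimal one, `L E0`. For `E ⊇ E0` we have `L E ≤ L E0`, so
equality by minimality.
-/

namespace Pool.Agent.Helper39.AH

theorem torsion_of_dual {ι : Type} [Fintype ι] (N : AddSubgroup (ι → ℤ)) (v : ι → ℤ)
    (hv : ∀ c : ι → ℤ, (∀ w ∈ N, ∑ i, c i * w i = 0) → ∑ i, c i * v i = 0) :
    ∃ m : ℤ, m ≠ 0 ∧ m • v ∈ N := by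
  classical
  set N' : Submodule ℤ (ι → ℤ) := AddSubgroup.toIntSubmodule N with hN'
  have memN : ∀ w, w ∈ N' ↔ w ∈ N := fun w => Iff.rfl
  let Q := (ι → ℤ) ⧸ N'
  let T : Submodule ℤ Q := Submodule.torsion ℤ Q
  have hfree : Module.Free ℤ (Q ⧸ T) := by
    have : Module.IsTorsionFree ℤ (Q ⧸ T) := inferInstance
    exact Module.free_of_finite_type_torsion_free'
  have hz : T.mkQ (N'.mkQ v) = 0 := by
    rw [← Module.forall_dual_apply_eq_zero_iff ℤ]
    intro φ
    let ψ : (ι → ℤ) →ₗ[ℤ] ℤ := (φ ∘ₗ T.mkQ) ∘ₗ N'.mkQ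
    have hψ : ∀ w : ι → ℤ, ψ w = ∑ i, ψ (fun j => if i = j then 1 else 0) * w i := by
      intro w
      rw [LinearMap.pi_apply_eq_sum_univ ψ w]
      refine Finset.sum_congr rfl fun i _ => ?_
      rw [smul_eq_mul, mul_comm]
    have h1 : ψ v = 0 := by
      rw [hψ v]
      apply hv
      intro w hw
      rw [← hψ w]
      change φ (T.mkQ (N'.mkQ w)) = 0
      have : N'.mkQ w = 0 := by
        rw [Submodule.mkQ_apply, Submodule.Quotient.mk_eq_zero]
        exact hw
      rw [this, map_zero, map_zero]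
    exact h1
  have ht : N'.mkQ v ∈ T := by
    rwa [Submodule.mkQ_apply, Submodule.Quotient.mk_eq_zero] at hz
  obtain ⟨a, ha⟩ := (Submodule.mem_torsion_iff (R := ℤ) (N'.mkQ v)).1 ht
  refine ⟨a, nonZeroDivisors.coe_ne_zero a, ?_⟩
  have h2 : N'.mkQ ((a : ℤ) • v) = 0 := by
    rw [map_smul]
    exact ha
  rw [Submodule.mkQ_apply, Submodule.Quotient.mk_eq_zero] at h2
  exact h2

theorem lattice_stab {ι κ : Type} [Fintype ι] (L : Finset κ → AddSubgroup (ι → ℤ))
    (hL : ∀ E E', E ⊆ E' → L E' ≤ L E) (L0 : AddSubgroup (ι → ℤ)) (h0 : ∀ E, L0 ≤ L E)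
    (h1 : ∀ c : ι → ℤ, (∀ v ∈ L0, ∑ i, c i * v i = 0) →
      ∃ E, ∀ v ∈ L E, ∑ i, c i * v i = 0) :
    ∃ E0, ∀ E, E0 ⊆ E → L E = L E0 := by
  classical
  -- the orthogonal lattice
  let Lp : Submodule ℤ (ι → ℤ) :=
    { carrier := {c | ∀ v ∈ L0, ∑ i, c i * v i = 0}
      zero_mem' := fun v _ => by simp
      add_mem' := fun {c d} hc hd v hv => by
        have := hc v hv
        have := hd v hv
        simp only [Pi.add_apply, add_mul, Finset.sum_add_distrib]
        linarith
      smul_mem' := fun m c hc v hv => by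
        have := hc v hv
        simp only [Pi.smul_apply, smul_eq_mul, mul_assoc, ← Finset.mul_sum, this, mul_zero] }
  obtain ⟨S, hS⟩ := (IsNoetherian.noetherian Lp : Lp.FG)
  have hch : ∀ c : ι → ℤ, ∃ E : Finset κ, c ∈ Lp → ∀ v ∈ L E, ∑ i, c i * v i = 0 := by
    intro c
    by_cases hc : c ∈ Lp
    · obtain ⟨E, hE⟩ := h1 c hc
      exact ⟨E, fun _ => hE⟩
    · exact ⟨∅, fun h => absurd h hc⟩
  choose F hF using hch
  let E1 : Finset κ := S.biUnion F
  have hE1 : ∀ c ∈ Lp, ∀ v ∈ L E1, ∑ i, c i * v i = 0 := by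
    intro c hc v hv
    rw [← hS] at hc
    induction hc using Submodule.span_induction with
    | mem x hx =>
      have hxS : x ∈ S := hx
      have hxL : x ∈ Lp := by
        rw [← hS]
        exact Submodule.subset_span hx
      exact hF x hxL v (hL _ _ (Finset.subset_biUnion_of_mem F hxS) hv)
    | zero => simp
    | add x y _ _ hx hy =>
      simp only [Pi.add_apply, add_mul, Finset.sum_add_distrib]
      linarith
    | smul m x _ hx =>
      simp only [Pi.smul_apply, smul_eq_mul, mul_assoc, ← Finset.mul_sum, hx, mul_zero]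
  set N' : Submodule ℤ (ι → ℤ) := AddSubgroup.toIntSubmodule L0 with hN'
  let Q := (ι → ℤ) ⧸ N'
  let T : Submodule ℤ Q := Submodule.torsion ℤ Q
  have hTfin : (T : Set Q).Finite := by
    have h3 : Module.IsTorsion ℤ T := by
      intro x
      obtain ⟨a, ha⟩ := (Submodule.mem_torsion_iff (R := ℤ) (x : Q)).1 x.2
      exact ⟨a, Subtype.ext ha⟩
    have h4 : Finite T := Module.finite_of_fg_torsion T h3
    exact Set.toFinite _
  let f : Finset κ → Submodule ℤ Q := fun E => (AddSubgroup.toIntSubmodule (L E)).map N'.mkQ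
  have hfanti : ∀ E E', E ⊆ E' → f E' ≤ f E := fun E E' h =>
    Submodule.map_mono (fun v hv => hL E E' h hv)
  have hfT : ∀ E, E1 ⊆ E → f E ≤ T := by
    intro E hE x hx
    obtain ⟨v, hv, rfl⟩ := hx
    have hv1 : v ∈ L E1 := hL _ _ hE hv
    obtain ⟨m, hm, hmv⟩ := torsion_of_dual L0 v (fun c hc => hE1 c hc v hv1)
    refine (Submodule.mem_torsion_iff (R := ℤ) (N'.mkQ v)).2
      ⟨⟨m, mem_nonZeroDivisors_of_ne_zero hm⟩, ?_⟩
    change m • (N'.mkQ v) = 0
    rw [← map_smul, Submodule.mkQ_apply, Submodule.Quotient.mk_eq_zero]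
    exact hmv
  have hback : ∀ E (v : ι → ℤ), N'.mkQ v ∈ f E → v ∈ L E := by
    intro E v hv
    obtain ⟨w, hw, hwv⟩ := hv
    have h5 : N'.mkQ (v - w) = 0 := by
      rw [map_sub, hwv, sub_self]
    rw [Submodule.mkQ_apply, Submodule.Quotient.mk_eq_zero] at h5
    have h6 : v - w ∈ L E := h0 E h5
    have h7 : w ∈ L E := hw
    have h8 := (L E).add_mem h6 h7
    simpa using h8
  -- a minimal member
  let P : ℕ → Prop := fun n => ∃ E, E1 ⊆ E ∧ (f E : Set Q).ncard = n
  have hP : ∃ n, P n := ⟨_, E1, Finset.Subset.refl _, rfl⟩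
  obtain ⟨E0, hE0, hn⟩ := Nat.find_spec hP
  refine ⟨E0, fun E hE => ?_⟩
  have hle : f E ≤ f E0 := hfanti _ _ hE
  have hcard : (f E0 : Set Q).ncard ≤ (f E : Set Q).ncard := by
    rw [hn]
    exact Nat.find_min' hP ⟨E, hE0.trans hE, rfl⟩
  have heq : (f E : Set Q) = (f E0 : Set Q) :=
    Set.eq_of_subset_of_ncard_le hle hcard (hTfin.subset (hfT E0 hE0))
  apply le_antisymm (hL _ _ hE)
  intro v hv
  apply hback
  have h9 : N'.mkQ v ∈ (f E0 : Set Q) := ⟨v, hv, rfl⟩
  rw [← heq] at h9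
  exact h9

end Pool.Agent.Helper39.AH
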