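import Pool.Agent.Helper39.AH.FRdef
import Pool.Agent.Helper39.AH.Lat
import Pool.Agent.Helper39.AH.ExtPure

/-!
# AH-Stab: the property FR gives stabilisation of functionals

Proof. Let `B = closure (range δ)`, `F` = the finite set of the `c i`, `F'` the finite set given
by `hFR` for `F`, and `V = closure F' ⊔ B`. Note `c i ∈ V` (take `m = 1`). Let
`L0 = {(μ (c i))_i | μ : V →+ ℤ with μ = 0 on B}` and, for a finite set `E` of `K1`,
`L E = {(W (c i))_i | W : A →+ ℤ with W (δ e) = 0 for e ∈ E}`; both are subgroups of `ℤ^ι`, and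
`L` is antitone.

`L0 ≤ L E`: let `μ : V →+ ℤ` vanish on `B`. Let `F_E = F ∪ {δ e | e ∈ E}`, a finite set. If
`m ≠ 0` and `m • x ∈ closure F_E` then `m • x ∈ closure F ⊔ B`, so `x ∈ V` by the choice of `F'`.
By `ext_pure` there is `W : A →+ ℤ` which agrees with `μ` on `closure F_E`: so
`W (c i) = μ (c i)` and `W (δ e) = μ (δ e) = 0` for `e ∈ E`.

Orthogonality: let `c' : ι → ℤ` be orthogonal to `L0`, and `x = ∑ c' i • c i ∈ V`. Then
`μ x = 0` for all `μ : V →+ ℤ` vanishing on `B`, so by `torsion_of_functionals` there is `m ≠ 0`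
with `m • x ∈ B`; so `m • x` lies in the closure of `δ(E)` for some finite `E`
(an element of the closure of a set is in the closure of a finite subset). For `W` with
`W (δ e) = 0` on `E` we get `m * W x = 0`, so `∑ c' i * W (c i) = W x = 0`.

So `lattice_stab` applies and gives `E0` with `L E = L E0` for `E ⊇ E0`. Put `E1 = E0`. For
`W` vanishing on `δ(E1)` the vector `(W (c i))_i` is in `L E1 = L (E1 ∪ E2) ≤ L E2`, which gives
`W'`.
-/

namespace Pool.Agent.Helper39.AH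

private theorem Stab_fin {A K1 : Type} [AddCommGroup A] (δ : K1 → A) (y : A)
    (hy : y ∈ AddSubgroup.closure (Set.range δ)) :
    ∃ E : Finset K1, ∀ W : A →+ ℤ, (∀ e ∈ E, W (δ e) = 0) → W y = 0 := by
  classical
  induction hy using AddSubgroup.closure_induction with
  | mem x hx =>
    obtain ⟨e, rfl⟩ := hx
    exact ⟨{e}, fun W hW => hW e (Finset.mem_singleton_self e)⟩
  | zero => exact ⟨∅, fun W _ => map_zero W⟩
  | add x y _ _ hx hy =>
    obtain ⟨E, hE⟩ := hx
    obtain ⟨E', hE'⟩ := hy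
    refine ⟨E ∪ E', fun W hW => ?_⟩
    rw [map_add, hE W fun e he => hW e (Finset.mem_union_left _ he),
      hE' W fun e he => hW e (Finset.mem_union_right _ he), add_zero]
  | neg x _ hx =>
    obtain ⟨E, hE⟩ := hx
    refine ⟨E, fun W hW => ?_⟩
    rw [map_neg, hE W hW, neg_zero]

theorem stab {A K1 : Type} [AddCommGroup A] [Module.Free ℤ A] (δ : K1 → A)
    (hFR : FR (AddSubgroup.closure (Set.range δ))) {ι : Type} [Fintype ι] (c : ι → A) :
    ∃ E1 : Finset K1, ∀ (E2 : Finset K1) (W : A →+ ℤ), (∀ e ∈ E1, W (δ e) = 0) →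
      ∃ W' : A →+ ℤ, (∀ e ∈ E2, W' (δ e) = 0) ∧ ∀ i, W' (c i) = W (c i) := by
  classical
  set B : AddSubgroup A := AddSubgroup.closure (Set.range δ) with hB
  let F : Finset A := Finset.univ.image c
  obtain ⟨F', hF'⟩ := hFR F
  set V : AddSubgroup A := AddSubgroup.closure (F' : Set A) ⊔ B with hVdef
  have hδB : ∀ e, δ e ∈ B := fun e => AddSubgroup.subset_closure ⟨e, rfl⟩
  have hBV : B ≤ V := le_sup_right
  have hcF : ∀ i, c i ∈ F := fun i => Finset.mem_image_of_mem c (Finset.mem_univ i)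
  have hcV : ∀ i, c i ∈ V := by
    intro i
    refine hF' 1 (c i) one_ne_zero ?_
    rw [one_smul]
    exact (le_sup_left : AddSubgroup.closure (F : Set A) ≤ _)
      (AddSubgroup.subset_closure (Finset.mem_coe.2 (hcF i)))
  let L0 : AddSubgroup (ι → ℤ) :=
    { carrier := {v | ∃ μ : V →+ ℤ, (∀ (b : A) (hb : b ∈ V), b ∈ B → μ ⟨b, hb⟩ = 0) ∧
        ∀ i, μ ⟨c i, hcV i⟩ = v i}
      zero_mem' := ⟨0, fun _ _ _ => rfl, fun _ => rfl⟩
      add_mem' := by
        rintro v w ⟨μ, h1, h2⟩ ⟨ν, h3, h4⟩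
        refine ⟨μ + ν, fun b hb hb' => ?_, fun i => ?_⟩
        · rw [AddMonoidHom.add_apply, h1 b hb hb', h3 b hb hb', add_zero]
        · rw [AddMonoidHom.add_apply, h2, h4]
          rfl
      neg_mem' := by
        rintro v ⟨μ, h1, h2⟩
        refine ⟨-μ, fun b hb hb' => ?_, fun i => ?_⟩
        · rw [AddMonoidHom.neg_apply, h1 b hb hb', neg_zero]
        · rw [AddMonoidHom.neg_apply, h2]
          rfl }
  let L : Finset K1 → AddSubgroup (ι → ℤ) := fun E =>
    { carrier := {v | ∃ W : A →+ ℤ, (∀ e ∈ E, W (δ e) = 0) ∧ ∀ i, W (c i) = v i}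
      zero_mem' := ⟨0, fun _ _ => rfl, fun _ => rfl⟩
      add_mem' := by
        rintro v w ⟨μ, h1, h2⟩ ⟨ν, h3, h4⟩
        refine ⟨μ + ν, fun e he => ?_, fun i => ?_⟩
        · rw [AddMonoidHom.add_apply, h1 e he, h3 e he, add_zero]
        · rw [AddMonoidHom.add_apply, h2, h4]
          rfl
      neg_mem' := by
        rintro v ⟨μ, h1, h2⟩
        refine ⟨-μ, fun e he => ?_, fun i => ?_⟩
        · rw [AddMonoidHom.neg_apply, h1 e he, neg_zero]
        · rw [AddMonoidHom.neg_apply, h2]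
          rfl }
  have hL : ∀ E E', E ⊆ E' → L E' ≤ L E := by
    rintro E E' hEE v ⟨W, h1, h2⟩
    exact ⟨W, fun e he => h1 e (hEE he), h2⟩
  have h0 : ∀ E, L0 ≤ L E := by
    rintro E v ⟨μ, h1, h2⟩
    have hle : AddSubgroup.closure ((F ∪ E.image δ : Finset A) : Set A) ≤
        AddSubgroup.closure (F : Set A) ⊔ B := by
      rw [AddSubgroup.closure_le]
      intro x hx
      rcases Finset.mem_union.1 (Finset.mem_coe.1 hx) with h | h
      · exact (le_sup_left : AddSubgroup.closure (F : Set A) ≤ _)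
          (AddSubgroup.subset_closure (Finset.mem_coe.2 h))
      · obtain ⟨e, _, rfl⟩ := Finset.mem_image.1 h
        exact (le_sup_right : B ≤ _) (hδB e)
    obtain ⟨W, hW⟩ := ext_pure (F ∪ E.image δ) V
      (fun m x hm hx => hF' m x hm (hle hx)) μ
    refine ⟨W, fun e he => ?_, fun i => ?_⟩
    · rw [hW (δ e) (hBV (hδB e)) (AddSubgroup.subset_closure (Finset.mem_coe.2
        (Finset.mem_union_right _ (Finset.mem_image_of_mem δ he))))]
      exact h1 _ _ (hδB e)
    · rw [hW (c i) (hcV i) (AddSubgroup.subset_closure (Finset.mem_coe.2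
        (Finset.mem_union_left _ (hcF i))))]
      exact h2 i
  have h1 : ∀ c' : ι → ℤ, (∀ v ∈ L0, ∑ i, c' i * v i = 0) →
      ∃ E, ∀ v ∈ L E, ∑ i, c' i * v i = 0 := by
    intro c' hc'
    have hxV : ∑ i, c' i • c i ∈ V :=
      AddSubgroup.sum_mem _ fun i _ => AddSubgroup.zsmul_mem _ (hcV i) _
    have hker : ∀ μ : V →+ ℤ, (∀ (b : A) (hb : b ∈ V), b ∈ B → μ ⟨b, hb⟩ = 0) →
        μ ⟨∑ i, c' i • c i, hxV⟩ = 0 := by
      intro μ hμ
      have h2 := hc' (fun i => μ ⟨c i, hcV i⟩) ⟨μ, hμ, fun _ => rfl⟩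
      have h3 : (⟨∑ i, c' i • c i, hxV⟩ : V) = ∑ i, c' i • (⟨c i, hcV i⟩ : V) := by
        apply Subtype.ext
        rw [AddSubgroup.val_finsetSum]
        rfl
      rw [h3, map_sum, ← h2]
      refine Finset.sum_congr rfl fun i _ => ?_
      rw [map_zsmul, smul_eq_mul]
    obtain ⟨m, hm, hmx⟩ := torsion_of_functionals F' B _ hxV hker
    obtain ⟨E, hE⟩ := Stab_fin δ _ hmx
    refine ⟨E, ?_⟩
    rintro v ⟨W, h2, h3⟩
    have h4 := hE W h2
    rw [map_zsmul, smul_eq_mul, map_sum] at h4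
    have h5 := (mul_eq_zero.1 h4).resolve_left hm
    rw [← h5]
    refine Finset.sum_congr rfl fun i _ => ?_
    rw [map_zsmul, smul_eq_mul, h3]
  obtain ⟨E0, hE0⟩ := lattice_stab L hL L0 h0 h1
  refine ⟨E0, fun E2 W hW => ?_⟩
  have h2 : (fun i => W (c i)) ∈ L E0 := ⟨W, hW, fun _ => rfl⟩
  rw [← hE0 (E0 ∪ E2) Finset.subset_union_left] at h2
  obtain ⟨W', h3, h4⟩ := h2
  exact ⟨W', fun e he => h3 e (Finset.mem_union_right _ he), h4⟩

end Pool.Agent.Helper39.AH
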