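import Pool.Agent.Helper39.AH.H1
import Pool.Agent.Helper39.AH.Stab

/-!
# AH-Frame: the property FR of the second cohomology gives semistability

Write `Γ = Gp rel`, `σ = gn rel`, `A = R → (Γ →₀ ℤ)` (a free abelian group, as `R` is finite),
`e κ = Pi.single κ.1 (Finsupp.single κ.2 1) : A` for a cell `κ : R × Γ`, and
`δ e = cob σ rel (Pi.single e.2 (Finsupp.single e.1 1)) : A` for an edge `e : Γ × X`.

Facts. (1) `cob σ rel b ρ g = pr b (ch σ (rel ρ) g)` (`der_mk_apply`); in particular
`δ e ρ g = ch σ (rel ρ) g e`.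
(2) `AddSubgroup.closure (Set.range δ) = (cob σ rel).range`, as `X → (Γ →₀ ℤ)` is generated by
the `Pi.single x (Finsupp.single g 1)` (`X` is finite).
(3) For a finite set `C` of vertices the set `J C` of the cells `κ` such that some vertex of
`vs σ (rel κ.1) κ.2` is in `C` is finite (`finite_vs_meet`, `R` finite). The set of the edges
`e` with `e.1 ∈ C` or `e.1 * σ e.2 ∈ C` is finite.
(4) `∂κ = ch σ (rel κ.1) κ.2` has boundary zero (`bd_ch`, as the relator is trivial in `Γ`).

Proof. Let `C` be given, `ι = J C`, `c κ = e κ` for `κ ∈ ι`. `stab` gives a finite set `E1` of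
edges. Let `D` be the union of `C` and of all endpoints of the edges of `E1`. Let `E ⊇ D` and
`z` with `Z1 σ D z`. By `cycle_mem`, `z = ∑_κ W0 κ • ∂κ`. The functional
`W x = ∑_κ W0 κ * x κ.1 κ.2` of `A` satisfies `W (δ e) = z e` by (1), so `W (δ e) = 0` for
`e ∈ E1` (`e` has its endpoints in `D`, so `e ∉ z.support`). Let `E2` be the finite set of the
edges meeting `E`, and `W'` the functional given by `stab`:
`W' (δ e) = 0` for `e ∈ E2` and `W' (e κ) = W (e κ) = W0 κ` for `κ ∈ ι`.
Put `W1 = ∑_{κ ∈ J E} W' (e κ) single κ` (a finitely supported function on the cells) and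
`z' = ∑_κ W1 κ • ∂κ`. Then `bd σ z' = 0` by (4). Let `e` be an edge meeting `E`, i.e. `e ∈ E2`.
Any cell `κ` with `∂κ e ≠ 0` has a vertex in `E` (`mem_vs_of_mem_support`), i.e. `κ ∈ J E`. The
element `δ e` of `A` is the finite sum of the `δ e κ.1 κ.2 • e κ`, over the `κ ∈ J E`
(`δ e ρ g = 0` for the other cells by (1)), so `W' (δ e) = ∑_{κ ∈ J E} ∂κ e * W' (e κ) = z' e`,
and `z' e = 0`. So `Z1 σ E z'`. Finally `z - z' = ∑_κ (W0 κ - W1 κ) • ∂κ`; for `κ ∈ J C ⊆ J E`
the coefficient is zero, and for `κ ∉ J C` the chain `∂κ` is one of the generators of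
`B1 σ rel C`. So `z - z' ∈ B1 σ rel C`.
-/

namespace Pool.Agent.Helper39.AH

section FrameAux

variable {X R : Type}

/-- the basis element of a cell -/
private noncomputable def Frame_ec (rel : R → List (X × Bool)) (κ : R × Gp rel) :
    R → (Gp rel →₀ ℤ) := by
  classical
  exact fun ρ => if ρ = κ.1 then Finsupp.single κ.2 1 else 0

/-- the 1-cochain dual to an edge -/
private noncomputable def Frame_be (rel : R → List (X × Bool)) (x : X) (m : Gp rel →₀ ℤ) :
    X → (Gp rel →₀ ℤ) := by
  classical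
  exact fun y => if y = x then m else 0

/-- the coboundary of the dual of an edge -/
private noncomputable def Frame_dl (rel : R → List (X × Bool)) (e : Gp rel × X) :
    R → (Gp rel →₀ ℤ) :=
  cob (gn rel) rel (Frame_be rel e.2 (Finsupp.single e.1 1))

private lemma Frame_pr (rel : R → List (X × Bool)) (e : Gp rel × X) (z : Gp rel × X →₀ ℤ) :
    pr (Frame_be rel e.2 (Finsupp.single e.1 1)) z = z e := by
  classical
  induction z using Finsupp.induction_linear with
  | zero => simp
  | add f g hf hg => rw [map_add, hf, hg, Finsupp.add_apply]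
  | single e' n =>
    rw [pr_single, Finsupp.single_apply]
    unfold Frame_be
    obtain ⟨g', x'⟩ := e'
    obtain ⟨g, x⟩ := e
    by_cases h1 : x' = x
    · by_cases h2 : g' = g
      · subst h1; subst h2; simp
      · have h3 : ¬ g = g' := fun h => h2 h.symm
        simp [h1, h2]
    · simp [h1]

private lemma Frame_dl_apply (rel : R → List (X × Bool)) (e : Gp rel × X) (ρ : R)
    (g : Gp rel) : Frame_dl rel e ρ g = ch (gn rel) (rel ρ) g e := by
  unfold Frame_dl
  rw [cob_apply, der_mk_apply, Frame_pr]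

private lemma Frame_closure [Finite X] (rel : R → List (X × Bool)) :
    AddSubgroup.closure (Set.range (Frame_dl rel)) = (cob (gn rel) rel).range := by
  classical
  have := Fintype.ofFinite X
  refine le_antisymm ?_ ?_
  · rw [AddSubgroup.closure_le]
    rintro _ ⟨e, rfl⟩
    exact ⟨_, rfl⟩
  · rintro _ ⟨b, rfl⟩
    have hb : b = ∑ x, Frame_be rel x (b x) := by
      funext y
      rw [Finset.sum_apply]
      unfold Frame_be
      simp
    rw [hb, map_sum]
    refine AddSubgroup.sum_mem _ fun x _ => ?_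
    generalize b x = m
    induction m using Finsupp.induction_linear with
    | zero =>
      have : Frame_be rel x 0 = 0 := by
        funext y
        unfold Frame_be
        simp
      rw [this, map_zero]
      exact AddSubgroup.zero_mem _
    | add f g hf hg =>
      have : Frame_be rel x (f + g) = Frame_be rel x f + Frame_be rel x g := by
        funext y
        unfold Frame_be
        by_cases hy : y = x <;> simp [hy]
      rw [this, map_add]
      exact AddSubgroup.add_mem _ hf hg
    | single g n =>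
      have : Frame_be rel x (Finsupp.single g n) =
          n • Frame_be rel x (Finsupp.single g 1) := by
        funext y
        unfold Frame_be
        by_cases hy : y = x <;> simp [hy]
      rw [this, map_zsmul]
      refine AddSubgroup.zsmul_mem _ (AddSubgroup.subset_closure ?_) n
      exact ⟨(g, x), rfl⟩

private lemma Frame_finite_J [Finite R] (rel : R → List (X × Bool)) (C : Finset (Gp rel)) :
    {κ : R × Gp rel | ∃ v ∈ vs (gn rel) (rel κ.1) κ.2, v ∈ C}.Finite := by
  have h : {κ : R × Gp rel | ∃ v ∈ vs (gn rel) (rel κ.1) κ.2, v ∈ C} ⊆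
      ⋃ ρ : R, (fun g => (ρ, g)) '' {g | ∃ v ∈ vs (gn rel) (rel ρ) g, v ∈ C} := by
    rintro ⟨ρ, g⟩ hκ
    simp only [Set.mem_iUnion]
    exact ⟨ρ, g, hκ, rfl⟩
  exact (Set.finite_iUnion fun ρ => (finite_vs_meet _ _ _).image _).subset h

private lemma Frame_finite_E [Finite X] (rel : R → List (X × Bool)) (E : Finset (Gp rel)) :
    {e : Gp rel × X | e.1 ∈ E ∨ e.1 * gn rel e.2 ∈ E}.Finite := by
  have h : {e : Gp rel × X | e.1 ∈ E ∨ e.1 * gn rel e.2 ∈ E} ⊆
      ((E : Set (Gp rel)) ×ˢ (Set.univ : Set X)) ∪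
      (fun p : Gp rel × X => (p.1 * (gn rel p.2)⁻¹, p.2)) ''
        ((E : Set (Gp rel)) ×ˢ (Set.univ : Set X)) := by
    rintro ⟨g, x⟩ (he | he)
    · exact Or.inl ⟨he, Set.mem_univ _⟩
    · refine Or.inr ⟨(g * gn rel x, x), ⟨he, Set.mem_univ _⟩, ?_⟩
      simp
  have h2 : ((E : Set (Gp rel)) ×ˢ (Set.univ : Set X)).Finite :=
    E.finite_toSet.prod Set.finite_univ
  exact (h2.union (h2.image _)).subset h

private lemma Frame_bd (rel : R → List (X × Bool)) (ρ : R) (g : Gp rel) :
    bd (gn rel) (ch (gn rel) (rel ρ) g) = 0 := by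
  have h1 : FreeGroup.lift (gn rel) (FreeGroup.mk (rel ρ)) = 1 := by
    have h2 : FreeGroup.lift (gn rel) =
        PresentedGroup.mk (Set.range fun ρ => FreeGroup.mk (rel ρ)) := by
      ext x
      simp only [FreeGroup.lift_apply_of]
      rfl
    rw [h2]
    exact PresentedGroup.one_of_mem ⟨ρ, rfl⟩
  rw [bd_ch, h1, mul_one, sub_self]

/-- the functional of a finitely supported function on the cells -/
private noncomputable def Frame_W (rel : R → List (X × Bool)) (W0 : R × Gp rel →₀ ℤ) :
    (R → (Gp rel →₀ ℤ)) →+ ℤ where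
  toFun x := W0.sum fun κ n => n * x κ.1 κ.2
  map_zero' := by simp [Finsupp.sum]
  map_add' x y := by
    simp only [Finsupp.sum, Pi.add_apply, Finsupp.add_apply, mul_add, Finset.sum_add_distrib]

private lemma Frame_W_dl (rel : R → List (X × Bool)) (W0 : R × Gp rel →₀ ℤ)
    (e : Gp rel × X) : Frame_W rel W0 (Frame_dl rel e) =
      (W0.sum fun κ n => n • ch (gn rel) (rel κ.1) κ.2) e := by
  change (W0.sum fun κ n => n * Frame_dl rel e κ.1 κ.2) = _
  rw [Finsupp.sum_apply]
  simp only [Frame_dl_apply, Finsupp.smul_apply, smul_eq_mul]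

private lemma Frame_W_ec (rel : R → List (X × Bool)) (W0 : R × Gp rel →₀ ℤ)
    (κ : R × Gp rel) : Frame_W rel W0 (Frame_ec rel κ) = W0 κ := by
  classical
  change (W0.sum fun κ' n => n * Frame_ec rel κ κ'.1 κ'.2) = _
  have hval : ∀ κ' : R × Gp rel, Frame_ec rel κ κ'.1 κ'.2 = if κ' = κ then 1 else 0 := by
    rintro ⟨ρ', g'⟩
    obtain ⟨ρ, g⟩ := κ
    unfold Frame_ec
    by_cases h1 : ρ' = ρ
    · by_cases h2 : g' = g
      · subst h1; subst h2; simp
      · have h3 : ¬ g = g' := fun h => h2 h.symm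
        simp [h1, h2]
    · simp [h1]
  simp only [hval, mul_ite, mul_one, mul_zero]
  rw [Finsupp.sum, Finset.sum_ite_eq']
  split_ifs with h
  · rfl
  · exact (Finsupp.notMem_support_iff.1 h).symm

private lemma Frame_dl_sum (rel : R → List (X × Bool)) (e : Gp rel × X)
    (J : Finset (R × Gp rel))
    (hJ : ∀ κ : R × Gp rel, κ ∉ J → ch (gn rel) (rel κ.1) κ.2 e = 0) :
    Frame_dl rel e = ∑ κ ∈ J, (ch (gn rel) (rel κ.1) κ.2 e) • Frame_ec rel κ := by
  classical
  funext ρ
  ext g
  rw [Frame_dl_apply, Finset.sum_apply, Finsupp.finsetSum_apply]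
  have hval : ∀ κ : R × Gp rel, Frame_ec rel κ ρ g = if κ = (ρ, g) then 1 else 0 := by
    rintro ⟨ρ', g'⟩
    unfold Frame_ec
    by_cases h1 : ρ = ρ'
    · by_cases h2 : g = g'
      · subst h1; subst h2; simp
      · have h3 : ¬ g' = g := fun h => h2 h.symm
        simp [h1, h3]
    · have h3 : ¬ ρ' = ρ := fun h => h1 h.symm
      simp [h1, h3]
  simp only [Pi.smul_apply, Finsupp.smul_apply, hval, smul_eq_mul, mul_ite, mul_one, mul_zero]
  rw [Finset.sum_ite_eq']
  split_ifs with h
  · rfl
  · exact hJ (ρ, g) h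

end FrameAux

theorem semistable_of_FR {X R : Type} [Finite X] [Finite R] (rel : R → List (X × Bool))
    (h : FR (cob (gn rel) rel).range) : H1Semistable rel := by
  classical
  intro C
  rw [← Frame_closure] at h
  have hJC := Frame_finite_J rel C
  obtain ⟨E1, hE1⟩ := stab (Frame_dl rel) h
    (fun κ : {κ // κ ∈ hJC.toFinset} => Frame_ec rel κ.1)
  refine ⟨C ∪ (E1.image Prod.fst ∪ E1.image fun e => e.1 * gn rel e.2),
    Finset.subset_union_left, ?_⟩
  intro E hDE z hz
  have hCE : C ⊆ E := Finset.subset_union_left.trans hDE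
  have hJE := Frame_finite_J rel E
  obtain ⟨W0, hW0⟩ := cycle_mem rel z hz.1
  obtain ⟨W', hW'1, hW'2⟩ := hE1 (Frame_finite_E rel E).toFinset (Frame_W rel W0) (by
    intro e he
    rw [Frame_W_dl, ← hW0]
    by_contra hne
    exact (hz.2 e (Finsupp.mem_support_iff.2 hne)).1
      (Finset.mem_union_right _ (Finset.mem_union_left _ (Finset.mem_image_of_mem _ he))))
  have hz' : ∀ e : Gp rel × X, (e.1 ∈ E ∨ e.1 * gn rel e.2 ∈ E) →
      (∑ κ ∈ hJE.toFinset, W' (Frame_ec rel κ) • ch (gn rel) (rel κ.1) κ.2) e = 0 := by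
    intro e he
    have h1 := hW'1 e (by simpa using he)
    rw [Frame_dl_sum rel e hJE.toFinset ?_, map_sum] at h1
    · rw [Finsupp.finsetSum_apply, ← h1]
      refine Finset.sum_congr rfl fun κ _ => ?_
      rw [map_zsmul, Finsupp.smul_apply, smul_eq_mul, smul_eq_mul, mul_comm]
    · intro κ hκ
      by_contra hne
      apply hκ
      have h2 := mem_vs_of_mem_support _ _ _ _ hne
      rw [Set.Finite.mem_toFinset]
      rcases he with he | he
      · exact ⟨_, h2.1, he⟩
      · exact ⟨_, h2.2, he⟩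
  refine ⟨∑ κ ∈ hJE.toFinset, W' (Frame_ec rel κ) • ch (gn rel) (rel κ.1) κ.2, ⟨?_, ?_⟩, ?_⟩
  · rw [← bdHom_apply, map_sum]
    refine Finset.sum_eq_zero fun κ _ => ?_
    rw [map_zsmul, bdHom_apply, Frame_bd, smul_zero]
  · intro e he
    rw [Finsupp.mem_support_iff] at he
    refine ⟨fun h1 => he (hz' e (Or.inl h1)), fun h1 => he (hz' e (Or.inr h1))⟩
  · have h1 : z = ∑ κ ∈ W0.support ∪ hJE.toFinset, W0 κ • ch (gn rel) (rel κ.1) κ.2 := by
      rw [hW0, Finsupp.sum]
      refine Finset.sum_subset Finset.subset_union_left fun κ _ hκ => ?_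
      rw [Finsupp.notMem_support_iff.1 hκ, zero_smul]
    have h2 : (∑ κ ∈ hJE.toFinset, W' (Frame_ec rel κ) • ch (gn rel) (rel κ.1) κ.2) =
        ∑ κ ∈ W0.support ∪ hJE.toFinset,
          (if κ ∈ hJE.toFinset then W' (Frame_ec rel κ) else 0) •
            ch (gn rel) (rel κ.1) κ.2 := by
      rw [← Finset.sum_subset (Finset.subset_union_right (s₁ := W0.support))
        (fun κ _ hκ => by rw [if_neg hκ, zero_smul])]
      refine Finset.sum_congr rfl fun κ hκ => ?_
      rw [if_pos hκ]
    rw [h2]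
    nth_rewrite 1 [h1]
    rw [← Finset.sum_sub_distrib]
    refine AddSubgroup.sum_mem _ fun κ _ => ?_
    rw [← sub_smul]
    by_cases hκ : κ ∈ hJC.toFinset
    · have hκE : κ ∈ hJE.toFinset := by
        rw [Set.Finite.mem_toFinset] at hκ ⊢
        obtain ⟨v, hv, hvC⟩ := hκ
        exact ⟨v, hv, hCE hvC⟩
      have h3 := hW'2 ⟨κ, hκ⟩
      rw [Frame_W_ec] at h3
      rw [if_pos hκE]
      simp only at h3
      rw [h3, sub_self, zero_smul]
      exact AddSubgroup.zero_mem _
    · refine AddSubgroup.zsmul_mem _ (AddSubgroup.subset_closure ?_) _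
      refine ⟨κ.2, κ.1, ?_, rfl⟩
      intro v hv hvC
      apply hκ
      rw [Set.Finite.mem_toFinset]
      exact ⟨v, hv, hvC⟩

end Pool.Agent.Helper39.AH
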