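import Pool.Agent.Helper39.AH.Chain

/-!
# AH-H1: the universal cover of the presentation complex has no first homology

Proof. Write `Γ = Gp rel`, `σ = gn rel` and let `B` be the subgroup of `Γ × X →₀ ℤ` of all
`W.sum fun κ n => n • ch σ (rel κ.1) κ.2`, `W : R × Γ →₀ ℤ` (the range of an additive map); it
contains all `ch σ (rel ρ) g`.

Chain of an element of the free group: for `u : FreeGroup X` and `g : Γ` put
`c u g = ch σ u.toWord g`. Then `c (mk l) g = ch σ l g` for all lists `l` (the chain of a path
does not change under cancellation: `FreeGroup.Red.Step`; induction on a reduction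
`FreeGroup.Red l (mk l).toWord`; one step removes `(x, b), (x, !b)`, which contributes
`single - single = 0` and returns to the same vertex; use `ch_append`), so
`c (u * v) g = c u g + c v (g * lift σ u)` by `ch_append`, and
`c u⁻¹ g = - c u (g * (lift σ u)⁻¹)`.
The set `{u | lift σ u = 1 ∧ ∀ g, c u g ∈ B}` is a normal subgroup of `FreeGroup X`: for the
conjugates: if `lift σ u = 1` then
`c (v * u * v⁻¹) g = c v g + c u (g * lift σ v) + c v⁻¹ (g * lift σ v)`
and `c v⁻¹ (g * lift σ v) = - c v g`. It contains the `mk (rel ρ)`, so it contains the normal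
closure of the relators, which is the kernel of `lift σ : FreeGroup X → Γ`
(`lift σ = PresentedGroup.mk _`, use `QuotientGroup.eq_one_iff` and extensionality of
homomorphisms from the free group).

For `g : Γ` choose a `v g : FreeGroup X` with `lift σ (v g) = g` (surjectivity of
`PresentedGroup.mk`) and put `P g = c (v g) 1`. For an edge `(g, x)` the element
`v g * of x * (v (g * σ x))⁻¹` is in the kernel, so its chain at `1`, which is
`P g + single (g, x) 1 - P (g * σ x)`, lies in `B`. So, by additivity,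
`z - (P_* (bd σ z)) ∈ B` for all `z : Γ × X →₀ ℤ`, where `P_* m = m.sum fun g n => n • P g`
(check it on `single e n`, `Finsupp.induction_linear` or equality of additive maps to the
quotient). For `bd σ z = 0` this gives `z ∈ B`.
-/

namespace Pool.Agent.Helper39.AH

noncomputable section

section

variable {X Γ : Type} [Group Γ]

/-- the affine action of the free group on families of chains -/
private def H1_aff (σ : X → Γ) : FreeGroup X →* Equiv.Perm (Γ → (Γ × X →₀ ℤ)) :=
  FreeGroup.lift fun x =>
    { toFun := fun m g => Finsupp.single (g, x) 1 + m (g * σ x)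
      invFun := fun m g => m (g * (σ x)⁻¹) - Finsupp.single (g * (σ x)⁻¹, x) 1
      left_inv := fun m => by
        funext g
        simp
      right_inv := fun m => by
        funext g
        simp }

/-- the chain of an element of the free group -/
private def H1_c (σ : X → Γ) (u : FreeGroup X) (g : Γ) : Γ × X →₀ ℤ := H1_aff σ u 0 g

private theorem H1_aff_of (σ : X → Γ) (x : X) (m : Γ → (Γ × X →₀ ℤ)) (g : Γ) :
    H1_aff σ (FreeGroup.of x) m g = Finsupp.single (g, x) 1 + m (g * σ x) := by
  simp [H1_aff]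

private theorem H1_aff_of_inv (σ : X → Γ) (x : X) (m : Γ → (Γ × X →₀ ℤ)) (g : Γ) :
    H1_aff σ (FreeGroup.of x)⁻¹ m g =
      m (g * (σ x)⁻¹) - Finsupp.single (g * (σ x)⁻¹, x) 1 := by
  rw [map_inv]
  simp [H1_aff, Equiv.Perm.inv_def]

private theorem H1_aff_apply (σ : X → Γ) (u : FreeGroup X) (m : Γ → (Γ × X →₀ ℤ)) (g : Γ) :
    H1_aff σ u m g = H1_c σ u g + m (g * FreeGroup.lift σ u) := by
  unfold H1_c
  induction u using FreeGroup.induction_on generalizing m g with
  | C1 => simp
  | of x =>
    change H1_aff σ (FreeGroup.of x) m g = H1_aff σ (FreeGroup.of x) 0 g +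
      m (g * FreeGroup.lift σ (FreeGroup.of x))
    rw [H1_aff_of, H1_aff_of, FreeGroup.lift_apply_of]
    simp
  | inv_of x _ =>
    change H1_aff σ (FreeGroup.of x)⁻¹ m g = H1_aff σ (FreeGroup.of x)⁻¹ 0 g +
      m (g * FreeGroup.lift σ (FreeGroup.of x)⁻¹)
    rw [H1_aff_of_inv, H1_aff_of_inv, map_inv, FreeGroup.lift_apply_of]
    simp only [Pi.zero_apply]
    abel
  | mul u v hu hv =>
    rw [map_mul, Equiv.Perm.mul_apply, hu, Equiv.Perm.mul_apply, hu (H1_aff σ v 0), hv,
      map_mul, mul_assoc, add_assoc]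

private theorem H1_c_mul (σ : X → Γ) (u v : FreeGroup X) (g : Γ) :
    H1_c σ (u * v) g = H1_c σ u g + H1_c σ v (g * FreeGroup.lift σ u) := by
  have h : H1_c σ (u * v) g = H1_aff σ u (H1_aff σ v 0) g := by
    unfold H1_c
    rw [map_mul]
    rfl
  rw [h, H1_aff_apply]
  rfl

private theorem H1_c_one (σ : X → Γ) (g : Γ) : H1_c σ 1 g = 0 := by
  unfold H1_c
  rw [map_one]
  rfl

private theorem H1_c_of (σ : X → Γ) (x : X) (g : Γ) :
    H1_c σ (FreeGroup.of x) g = Finsupp.single (g, x) 1 := by
  unfold H1_c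
  rw [H1_aff_of]
  simp

private theorem H1_c_inv (σ : X → Γ) (u : FreeGroup X) (g : Γ) :
    H1_c σ u⁻¹ (g * FreeGroup.lift σ u) = -H1_c σ u g := by
  have h := H1_c_mul σ u u⁻¹ g
  rw [mul_inv_cancel, H1_c_one] at h
  exact (neg_eq_of_add_eq_zero_right h.symm).symm

private theorem H1_c_mk (σ : X → Γ) (l : List (X × Bool)) (g : Γ) :
    H1_c σ (FreeGroup.mk l) g = ch σ l g := by
  induction l generalizing g with
  | nil =>
    have : (FreeGroup.mk ([] : List (X × Bool))) = 1 := rfl
    rw [this, H1_c_one, ch_nil]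
  | cons p l ih =>
    obtain ⟨x, b⟩ := p
    cases b
    · rw [ch_cons_false, mk_cons_false, H1_c_mul, ih, map_inv, FreeGroup.lift_apply_of]
      have h : H1_c σ (FreeGroup.of x)⁻¹ g = -Finsupp.single (g * (σ x)⁻¹, x) 1 := by
        unfold H1_c
        rw [H1_aff_of_inv]
        simp
      rw [h]
      abel
    · rw [ch_cons_true, mk_cons_true, H1_c_mul, ih, H1_c_of, FreeGroup.lift_apply_of]

end

/-- the additive map whose range consists of the combinations of boundaries of two-cells -/
private def H1_hom {X R : Type} (rel : R → List (X × Bool)) :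
    (R × Gp rel →₀ ℤ) →+ (Gp rel × X →₀ ℤ) :=
  Finsupp.liftAddHom fun κ => zmultiplesHom _ (ch (gn rel) (rel κ.1) κ.2)

private theorem H1_hom_apply {X R : Type} (rel : R → List (X × Bool)) (W : R × Gp rel →₀ ℤ) :
    H1_hom rel W = W.sum fun κ n => n • ch (gn rel) (rel κ.1) κ.2 := by
  unfold H1_hom
  rw [Finsupp.liftAddHom_apply]
  rfl

/-- the vertices: the potential of a function -/
private def H1_pot {X R : Type} (rel : R → List (X × Bool)) (P : Gp rel → (Gp rel × X →₀ ℤ)) :
    (Gp rel →₀ ℤ) →+ (Gp rel × X →₀ ℤ) :=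
  Finsupp.liftAddHom fun g => zmultiplesHom _ (P g)

private theorem H1_pot_single {X R : Type} (rel : R → List (X × Bool))
    (P : Gp rel → (Gp rel × X →₀ ℤ)) (g : Gp rel) (n : ℤ) :
    H1_pot rel P (Finsupp.single g n) = n • P g := by
  unfold H1_pot
  rw [Finsupp.liftAddHom_apply_single]
  rfl

private theorem H1_lift {X R : Type} (rel : R → List (X × Bool)) :
    FreeGroup.lift (gn rel) =
      PresentedGroup.mk (Set.range fun ρ => FreeGroup.mk (rel ρ)) := by
  ext x
  rw [FreeGroup.lift_apply_of]
  rfl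

private theorem H1_ker {X R : Type} (rel : R → List (X × Bool)) (u : FreeGroup X)
    (hu : FreeGroup.lift (gn rel) u = 1) (g : Gp rel) :
    H1_c (gn rel) u g ∈ (H1_hom rel).range := by
  let N : Subgroup (FreeGroup X) :=
    { carrier := {u | FreeGroup.lift (gn rel) u = 1 ∧
        ∀ g, H1_c (gn rel) u g ∈ (H1_hom rel).range}
      mul_mem' := by
        rintro u v ⟨hu, hu'⟩ ⟨hv, hv'⟩
        refine ⟨by rw [map_mul, hu, hv, mul_one], fun g => ?_⟩
        rw [H1_c_mul]
        exact add_mem (hu' g) (hv' _)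
      one_mem' := ⟨map_one _, fun g => by rw [H1_c_one]; exact zero_mem _⟩
      inv_mem' := by
        rintro u ⟨hu, hu'⟩
        refine ⟨by rw [map_inv, hu, inv_one], fun g => ?_⟩
        have h := H1_c_inv (gn rel) u g
        rw [hu, mul_one] at h
        rw [h]
        exact neg_mem (hu' g) }
  have hN : N.Normal := by
    constructor
    rintro u ⟨hu, hu'⟩ v
    refine ⟨by rw [map_mul, map_mul, hu, mul_one, map_inv, mul_inv_cancel], fun g => ?_⟩
    rw [H1_c_mul, H1_c_mul, map_mul, hu, mul_one, H1_c_inv]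
    have h : H1_c (gn rel) v g + H1_c (gn rel) u (g * FreeGroup.lift (gn rel) v) +
        -H1_c (gn rel) v g = H1_c (gn rel) u (g * FreeGroup.lift (gn rel) v) := by abel
    rw [h]
    exact hu' _
  have hle : Subgroup.normalClosure (Set.range fun ρ => FreeGroup.mk (rel ρ)) ≤ N := by
    apply Subgroup.normalClosure_le_normal
    rintro _ ⟨ρ, rfl⟩
    refine ⟨?_, fun g => ?_⟩
    · rw [H1_lift]
      exact PresentedGroup.one_of_mem ⟨ρ, rfl⟩
    · refine ⟨Finsupp.single (ρ, g) 1, ?_⟩
      unfold H1_hom
      rw [Finsupp.liftAddHom_apply_single, H1_c_mk]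
      exact one_smul ℤ _
  have hmem : u ∈ N := by
    apply hle
    rw [H1_lift] at hu
    exact PresentedGroup.mk_eq_one_iff.1 hu
  exact hmem.2 g

theorem cycle_mem {X R : Type} (rel : R → List (X × Bool)) (z : Gp rel × X →₀ ℤ)
    (hz : bd (gn rel) z = 0) :
    ∃ W : R × Gp rel →₀ ℤ, z = W.sum fun κ n => n • ch (gn rel) (rel κ.1) κ.2 := by
  have hsurj : ∀ g : Gp rel, ∃ v : FreeGroup X, FreeGroup.lift (gn rel) v = g := by
    intro g
    rw [H1_lift]
    exact PresentedGroup.mk_surjective _ g
  choose v hv using hsurj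
  let P : Gp rel → (Gp rel × X →₀ ℤ) := fun g => H1_c (gn rel) (v g) 1
  have hedge : ∀ (g : Gp rel) (x : X),
      P g + Finsupp.single (g, x) 1 - P (g * gn rel x) ∈ (H1_hom rel).range := by
    intro g x
    have h1 : FreeGroup.lift (gn rel) (v g * FreeGroup.of x * (v (g * gn rel x))⁻¹) = 1 := by
      rw [map_mul, map_mul, map_inv, hv, hv, FreeGroup.lift_apply_of, mul_inv_cancel]
    have h2 := H1_ker rel _ h1 1
    rw [H1_c_mul, H1_c_mul, map_mul, hv, FreeGroup.lift_apply_of, one_mul, one_mul] at h2
    have h3 := H1_c_inv (gn rel) (v (g * gn rel x)) 1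
    rw [hv, one_mul] at h3
    rw [h3, H1_c_of, ← sub_eq_add_neg] at h2
    exact h2
  have key : ∀ z : Gp rel × X →₀ ℤ,
      z - H1_pot rel P (bd (gn rel) z) ∈ (H1_hom rel).range := by
    intro z
    induction z using Finsupp.induction_linear with
    | zero =>
      have h0 : bd (gn rel) (0 : Gp rel × X →₀ ℤ) = 0 := (bdHom (gn rel)).map_zero
      rw [h0, map_zero, sub_zero]
      exact zero_mem _
    | add z z' h h' =>
      rw [bd_add, map_add]
      have h1 : z + z' - (H1_pot rel P (bd (gn rel) z) + H1_pot rel P (bd (gn rel) z')) =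
          (z - H1_pot rel P (bd (gn rel) z)) + (z' - H1_pot rel P (bd (gn rel) z')) := by abel
      rw [h1]
      exact add_mem h h'
    | single e n =>
      obtain ⟨g, x⟩ := e
      rw [bd_single, map_sub, H1_pot_single, H1_pot_single]
      have h1 : Finsupp.single (g, x) n - (n • P (g * gn rel x) - n • P g) =
          n • (P g + Finsupp.single (g, x) 1 - P (g * gn rel x)) := by
        rw [smul_sub, smul_add, Finsupp.smul_single, smul_eq_mul, mul_one]
        abel
      rw [h1]
      exact zsmul_mem (hedge g x) n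
  have h := key z
  rw [hz, map_zero, sub_zero] at h
  obtain ⟨W, hW⟩ := h
  exact ⟨W, by rw [← H1_hom_apply, hW]⟩

end

end Pool.Agent.Helper39.AH
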