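import Pool.Agent.Helper39.AH.Der

/-!
# AH: heights and homogeneous components
-/

namespace Pool.Agent.Helper39.AH

noncomputable section

variable {R S G : Type} [Group G]

namespace Asc

variable (a : Asc S R G)

/-- The values of the derivation live at the heights of the values on the letters. -/
lemma der_height (p : ℤ → Prop) (d : S → (G →₀ ℤ)) (hd : ∀ s g, d s g ≠ 0 → p (a.ht g))
    (u : FreeGroup S) (g : G) (hg : der a.σ d u g ≠ 0) : p (a.ht g) := by
  induction u using FreeGroup.induction_on generalizing g with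
  | C1 => simp at hg
  | of x => rw [der_of] at hg; exact hd x g hg
  | inv_of x h =>
    rw [der_inv, Finsupp.neg_apply, sh_apply, neg_ne_zero] at hg
    have := h _ hg
    rwa [a.ht_mul, a.ht_inv, FreeGroup.lift_apply_of, a.htσ, neg_zero, add_zero] at this
  | mul x y hx hy =>
    rw [der_mul, Finsupp.add_apply, sh_apply] at hg
    by_cases h1 : der a.σ d x g = 0
    · rw [h1, zero_add] at hg
      have := hy _ hg
      rwa [a.ht_mul, a.ht_q, add_zero] at this
    · exact hx g h1

/-- The homogeneous component of height `k` of a finitely supported function. -/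
def hm (k : ℤ) : (G →₀ ℤ) →+ (G →₀ ℤ) :=
  open Classical in Finsupp.filterAddHom fun g => a.ht g = k

open Classical in
lemma hm_apply (k : ℤ) (m : G →₀ ℤ) (g : G) :
    a.hm k m g = if a.ht g = k then m g else 0 := by
  unfold hm
  exact Finsupp.filter_apply _ _ _

lemma hm_sh (k : ℤ) (u : G) (hu : a.ht u = 0) (m : G →₀ ℤ) :
    a.hm k (sh u m) = sh u (a.hm k m) := by
  ext g
  rw [hm_apply, sh_apply, sh_apply, hm_apply, a.ht_mul, hu, add_zero]

/-- The homogeneous component of height `k` of a family of finitely supported functions. -/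
def hc (k : ℤ) : (S → (G →₀ ℤ)) →+ (S → (G →₀ ℤ)) where
  toFun d s := a.hm k (d s)
  map_zero' := by funext s; simp
  map_add' d e := by funext s; simp

open Classical in
lemma hc_apply (k : ℤ) (d : S → (G →₀ ℤ)) (s : S) (g : G) :
    a.hc k d s g = if a.ht g = k then d s g else 0 := a.hm_apply k (d s) g

/-- Homogeneous components commute with the derivation. -/
lemma der_hc (k : ℤ) (d : S → (G →₀ ℤ)) (u : FreeGroup S) :
    der a.σ (a.hc k d) u = a.hm k (der a.σ d u) := by
  have h := eq_der a.σ (fun u => a.hm k (der a.σ d u))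
    (by
      intro u v
      rw [der_mul, map_add, hm_sh]
      exact a.ht_q u) u
  simp only [der_of] at h
  exact h.symm

lemma hc_mem_Z {h : S → (G →₀ ℤ)} (hh : h ∈ a.Z) (k : ℤ) : a.hc k h ∈ a.Z := by
  intro u hu
  rw [der_hc, hh u hu, map_zero]

lemma hc_mem_Hinf {h : S → (G →₀ ℤ)} (hh : h ∈ a.Hinf) (k : ℤ) : a.hc k h ∈ a.Hinf := by
  intro n ρ
  rw [der_hc, hh n ρ, map_zero]

/-- Heights of the values of `Th d`. -/
lemma Th_height (p : ℤ → Prop) (d : S → (G →₀ ℤ)) (hd : ∀ s g, d s g ≠ 0 → p (a.ht g))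
    (s : S) (g : G) (hg : a.Th d s g ≠ 0) : p (a.ht g + 1) := by
  rw [Th_apply, sh_apply] at hg
  have := a.der_height p d hd _ _ hg
  rwa [a.ht_mul, a.htt] at this

/-- The heights of finitely many finitely supported functions are bounded. -/
lemma height_bound {S' : Type} [Finite S'] (d : S' → (G →₀ ℤ)) :
    ∃ N : ℕ, ∀ s g, d s g ≠ 0 → |a.ht g| ≤ N := by
  classical
  haveI := Fintype.ofFinite S'
  refine ⟨∑ s : S', ∑ g ∈ (d s).support, (a.ht g).natAbs, ?_⟩
  intro s g hg
  have h1 : (a.ht g).natAbs ≤ ∑ g ∈ (d s).support, (a.ht g).natAbs :=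
    Finset.single_le_sum (f := fun g => (a.ht g).natAbs) (fun _ _ => Nat.zero_le _)
      (Finsupp.mem_support_iff.mpr hg)
  have h2 : ∑ g ∈ (d s).support, (a.ht g).natAbs ≤
      ∑ s : S', ∑ g ∈ (d s).support, (a.ht g).natAbs :=
    Finset.single_le_sum (f := fun s => ∑ g ∈ (d s).support, (a.ht g).natAbs)
      (fun _ _ => Nat.zero_le _) (Finset.mem_univ s)
  have h3 : |a.ht g| = ((a.ht g).natAbs : ℤ) := by simp
  rw [h3]
  exact_mod_cast h1.trans h2

end Asc

end

end Pool.Agent.Helper39.AH
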