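import Pool.Agent.Helper39.AH.Der

/-!
# AH-Hnn: the kernel property of the presentation

Let `F = FreeGroup S`, `φ = FreeGroup.lift (fun s => FreeGroup.mk (w s))`,
`rr ρ = FreeGroup.mk (r ρ)`, `R0` the normal closure of all the `φ^[n] (rr ρ)`, and
`K = {u | ∃ n, φ^[n] u ∈ R0}`, a normal subgroup of `F` (`φ` maps `R0` to itself, as
`R0.comap φ` is normal and contains the generators, so the `n` can be increased), with
`φ u ∈ K ↔ u ∈ K`, and `rr ρ ∈ K`. Let `Q = F ⧸ K` and `φ' : Q →* Q` the map induced by `φ`,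
which is injective. Let `H = HNNExtension Q ⊤ φ'.range e`, where `e : ⊤ ≃* φ'.range` is
`⟨x, _⟩ ↦ φ' x`; in `H` we have `t * of x = of (φ' x) * t` (`HNNExtension.t_mul_of`) and
`HNNExtension.of : Q →* H` is injective (`HNNExtension.of_injective`).

Define `Gp (ascRel w r) →* H` by `PresentedGroup.toGroup`: `some s ↦ of (mk (FreeGroup.of s))`,
`none ↦ t⁻¹`. The relators are respected: the composition of `FreeGroup.lift` with the letters
`some s` is `of ∘ mk : F → H` (on words `up l`, induction on `l` or uniqueness of lifts), so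
`inr ρ` goes to `of (mk (rr ρ)) = 1`, and `inl s` goes to
`of s̄ * t⁻¹ * (of (φ' s̄))⁻¹ * t = 1`, because `t * of s̄ = of (φ' s̄) * t`.

If `FreeGroup.lift (fun s => gn (ascRel w r) (some s)) u = 1` then apply this homomorphism:
`of (mk u) = 1`, so `mk u = 1` in `Q`, i.e. `u ∈ K`.
-/

namespace Pool.Agent.Helper39.AH

/-- The elements which some power of `φ` sends into `R0`. -/
private def Hnn_K {F : Type} [Group F] (φ : F →* F) (R0 : Subgroup F)
    (h : ∀ x ∈ R0, φ x ∈ R0) : Subgroup F where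
  carrier := {u | ∃ n : ℕ, φ^[n] u ∈ R0}
  one_mem' := ⟨0, R0.one_mem⟩
  mul_mem' := by
    rintro a b ⟨n, hn⟩ ⟨m, hm⟩
    have up : ∀ (k : ℕ) (x : F), x ∈ R0 → φ^[k] x ∈ R0 := by
      intro k
      induction k with
      | zero => intro x hx; exact hx
      | succ k ih =>
        intro x hx
        rw [Function.iterate_succ_apply]
        exact ih _ (h x hx)
    refine ⟨m + n, ?_⟩
    rw [iterate_map_mul φ]
    refine R0.mul_mem ?_ ?_
    · rw [Function.iterate_add_apply]
      exact up m _ hn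
    · rw [add_comm, Function.iterate_add_apply]
      exact up n _ hm
  inv_mem' := by
    rintro a ⟨n, hn⟩
    refine ⟨n, ?_⟩
    rw [iterate_map_inv φ]
    exact R0.inv_mem hn

private lemma Hnn_mem_K {F : Type} [Group F] (φ : F →* F) (R0 : Subgroup F)
    (h : ∀ x ∈ R0, φ x ∈ R0) (u : F) : u ∈ Hnn_K φ R0 h ↔ ∃ n : ℕ, φ^[n] u ∈ R0 := Iff.rfl

private lemma Hnn_K_normal {F : Type} [Group F] (φ : F →* F) (R0 : Subgroup F)
    (h : ∀ x ∈ R0, φ x ∈ R0) (hn : R0.Normal) : (Hnn_K φ R0 h).Normal := by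
  refine ⟨?_⟩
  rintro a ⟨n, hn'⟩ g
  refine ⟨n, ?_⟩
  rw [iterate_map_mul φ, iterate_map_mul φ, iterate_map_inv φ]
  exact hn.conj_mem _ hn' _

private lemma Hnn_map_mem {F : Type} [Group F] (φ : F →* F) (R0 : Subgroup F)
    (h : ∀ x ∈ R0, φ x ∈ R0) (u : F) (hu : u ∈ Hnn_K φ R0 h) : φ u ∈ Hnn_K φ R0 h := by
  obtain ⟨n, hn⟩ := hu
  refine ⟨n, ?_⟩
  have := h _ hn
  rwa [← Function.iterate_succ_apply' φ n u, Function.iterate_succ_apply] at this

private lemma Hnn_of_map_mem {F : Type} [Group F] (φ : F →* F) (R0 : Subgroup F)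
    (h : ∀ x ∈ R0, φ x ∈ R0) (u : F) (hu : φ u ∈ Hnn_K φ R0 h) : u ∈ Hnn_K φ R0 h := by
  obtain ⟨n, hn⟩ := hu
  refine ⟨n + 1, ?_⟩
  rwa [Function.iterate_succ_apply]

/-- The group of the abstract situation: everything which becomes trivial in the ascending
HNN extension is in `Hnn_K`. -/
private lemma Hnn_main {S R : Type} (w : S → List (S × Bool)) (r : R → List (S × Bool))
    (R0 : Subgroup (FreeGroup S)) (hnorm : R0.Normal)
    (h : ∀ x ∈ R0, (FreeGroup.lift fun s : S => FreeGroup.mk (w s)) x ∈ R0)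
    (hr : ∀ ρ, FreeGroup.mk (r ρ) ∈ R0)
    (u : FreeGroup S)
    (hu : FreeGroup.lift (fun s : S => gn (ascRel w r) (some s)) u = 1) :
    u ∈ Hnn_K (FreeGroup.lift fun s : S => FreeGroup.mk (w s)) R0 h := by
  set φ : FreeGroup S →* FreeGroup S := FreeGroup.lift fun s : S => FreeGroup.mk (w s) with hφ
  set K := Hnn_K φ R0 h with hK
  have : K.Normal := Hnn_K_normal φ R0 h hnorm
  let φ' : FreeGroup S ⧸ K →* FreeGroup S ⧸ K :=
    QuotientGroup.map K K φ (fun u hu => Hnn_map_mem φ R0 h u hu)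
  have hφ'mk : ∀ x : FreeGroup S, φ' (QuotientGroup.mk x) = QuotientGroup.mk (φ x) := fun x => rfl
  have hinj : Function.Injective φ' := by
    rw [injective_iff_map_eq_one]
    intro q hq
    obtain ⟨x, rfl⟩ := QuotientGroup.mk_surjective q
    rw [hφ'mk, QuotientGroup.eq_one_iff] at hq
    rw [QuotientGroup.eq_one_iff]
    exact Hnn_of_map_mem φ R0 h x hq
  let e : (⊤ : Subgroup (FreeGroup S ⧸ K)) ≃* φ'.range :=
    Subgroup.topEquiv.trans (MonoidHom.ofInjective hinj)
  let H := HNNExtension (FreeGroup S ⧸ K) ⊤ φ'.range e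
  have ht : ∀ q : FreeGroup S ⧸ K,
      (HNNExtension.t : H) * HNNExtension.of q = HNNExtension.of (φ' q) * HNNExtension.t :=
    fun q => HNNExtension.t_mul_of (φ := e) ⟨q, Subgroup.mem_top q⟩
  let f : Option S → H := fun o => match o with
    | some s => HNNExtension.of (QuotientGroup.mk (FreeGroup.of s))
    | none => (HNNExtension.t)⁻¹
  have hfup : ∀ l : List (S × Bool),
      FreeGroup.lift f (FreeGroup.mk (up l)) = HNNExtension.of (QuotientGroup.mk (FreeGroup.mk l)) := by
    intro l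
    have h1 : (FreeGroup.lift f).comp (FreeGroup.map some) =
        (HNNExtension.of : (FreeGroup S ⧸ K) →* H).comp (QuotientGroup.mk' K) := by
      ext s
      simp [f]
    have h2 : FreeGroup.mk (up l) = FreeGroup.map some (FreeGroup.mk l) := by
      rw [FreeGroup.map.mk]
      rfl
    rw [h2]
    exact DFunLike.congr_fun h1 (FreeGroup.mk l)
  have hrels : ∀ x ∈ Set.range (fun ρ => FreeGroup.mk (ascRel w r ρ)), FreeGroup.lift f x = 1 := by
    rintro x ⟨ρ, rfl⟩
    rcases ρ with s | ρ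
    · have h1 : FreeGroup.mk (ascRel w r (Sum.inl s)) =
          FreeGroup.of (some s) * FreeGroup.of none * (FreeGroup.mk (up (w s)))⁻¹ *
            (FreeGroup.of none)⁻¹ := by
        rw [FreeGroup.inv_mk]
        simp only [FreeGroup.of, FreeGroup.inv_mk, FreeGroup.mul_mk]
        rfl
      change FreeGroup.lift f (FreeGroup.mk (ascRel w r (Sum.inl s))) = 1
      rw [h1]
      simp only [map_mul, map_inv, FreeGroup.lift_apply_of]
      rw [hfup]
      have h2 : (QuotientGroup.mk (FreeGroup.mk (w s)) : FreeGroup S ⧸ K) =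
          φ' (QuotientGroup.mk (FreeGroup.of s)) := by
        rw [hφ'mk, hφ, FreeGroup.lift_apply_of]
      rw [h2]
      have h3 := ht (QuotientGroup.mk (FreeGroup.of s))
      have h4 : (HNNExtension.of (φ' (QuotientGroup.mk (FreeGroup.of s))) : H) =
          HNNExtension.t * HNNExtension.of (QuotientGroup.mk (FreeGroup.of s)) *
            (HNNExtension.t)⁻¹ := by
        rw [h3]
        group
      rw [h4]
      simp only [f]
      group
    · change FreeGroup.lift f (FreeGroup.mk (ascRel w r (Sum.inr ρ))) = 1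
      have h1 : ascRel w r (Sum.inr ρ) = up (r ρ) := rfl
      rw [h1, hfup]
      have h2 : (QuotientGroup.mk (FreeGroup.mk (r ρ)) : FreeGroup S ⧸ K) = 1 := by
        rw [QuotientGroup.eq_one_iff]
        exact ⟨0, hr ρ⟩
      rw [h2, map_one]
  let Ψ : Gp (ascRel w r) →* H := PresentedGroup.toGroup hrels
  have hΨ : Ψ.comp (FreeGroup.lift (fun s : S => gn (ascRel w r) (some s))) =
      (HNNExtension.of : (FreeGroup S ⧸ K) →* H).comp (QuotientGroup.mk' K) := by
    ext s
    simp only [MonoidHom.coe_comp, Function.comp_apply, FreeGroup.lift_apply_of]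
    exact PresentedGroup.toGroup.of hrels
  have h1 := DFunLike.congr_fun hΨ u
  simp only [MonoidHom.coe_comp, Function.comp_apply] at h1
  rw [hu, map_one] at h1
  have h2 : (QuotientGroup.mk' K) u = 1 := by
    apply HNNExtension.of_injective (φ := e)
    rw [map_one]
    exact h1.symm
  rw [QuotientGroup.mk'_apply, QuotientGroup.eq_one_iff] at h2
  exact h2

theorem ker_asc {S R : Type} (w : S → List (S × Bool)) (r : R → List (S × Bool))
    (u : FreeGroup S)
    (hu : FreeGroup.lift (fun s : S => gn (ascRel w r) (some s)) u = 1) :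
    ∃ n : ℕ, (FreeGroup.lift fun s : S => FreeGroup.mk (w s))^[n] u ∈
      Subgroup.normalClosure {x | ∃ (n : ℕ) (ρ : R),
        x = (FreeGroup.lift fun s : S => FreeGroup.mk (w s))^[n] (FreeGroup.mk (r ρ))} := by
  set φ : FreeGroup S →* FreeGroup S := FreeGroup.lift fun s : S => FreeGroup.mk (w s) with hφ
  set R0 : Subgroup (FreeGroup S) := Subgroup.normalClosure {x | ∃ (n : ℕ) (ρ : R),
        x = φ^[n] (FreeGroup.mk (r ρ))} with hR0
  have hnorm : R0.Normal := Subgroup.normalClosure_normal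
  have h : ∀ x ∈ R0, φ x ∈ R0 := by
    have h1 : R0 ≤ R0.comap φ := by
      rw [hR0]
      apply Subgroup.normalClosure_le_normal
      rintro x ⟨n, ρ, rfl⟩
      rw [SetLike.mem_coe, Subgroup.mem_comap]
      apply Subgroup.subset_normalClosure
      exact ⟨n + 1, ρ, (Function.iterate_succ_apply' φ n _).symm⟩
    exact fun x hx => h1 hx
  have hr : ∀ ρ, FreeGroup.mk (r ρ) ∈ R0 := by
    intro ρ
    apply Subgroup.subset_normalClosure
    exact ⟨0, ρ, rfl⟩
  exact Hnn_main w r R0 hnorm h hr u hu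

end Pool.Agent.Helper39.AH
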