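import Pool.Agent.Helper39.AH.Chain
import Pool.Agent.Helper39.AH.FRdef
import Pool.Agent.Helper39.AH.Hnn

/-!
# AH-Rel: the data of the presentation of an ascending HNN extension
-/

namespace Pool.Agent.Helper39.AH

noncomputable section

variable {S R : Type} (w : S → List (S × Bool)) (r : R → List (S × Bool))

/-- The inclusion of the free groups. -/
def upF : FreeGroup S →* FreeGroup (Option S) := FreeGroup.map some

lemma mk_up (l : List (S × Bool)) : FreeGroup.mk (up l) = upF (FreeGroup.mk l) := by
  unfold upF up
  rw [FreeGroup.map.mk]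

/-- The relators in the free group. -/
lemma mk_ascRel_inl (s : S) :
    FreeGroup.mk (ascRel w r (Sum.inl s)) =
      FreeGroup.of (some s) * FreeGroup.of none * (upF (FreeGroup.mk (w s)))⁻¹ *
        (FreeGroup.of none)⁻¹ := by
  have h1 : ascRel w r (Sum.inl s) =
      [(some s, true)] ++ [(none, true)] ++ FreeGroup.invRev (up (w s)) ++ [(none, false)] := rfl
  rw [h1, ← FreeGroup.mul_mk, ← FreeGroup.mul_mk, ← FreeGroup.mul_mk, ← FreeGroup.inv_mk, mk_up]
  rfl

lemma mk_ascRel_inr (ρ : R) :
    FreeGroup.mk (ascRel w r (Sum.inr ρ)) = upF (FreeGroup.mk (r ρ)) := by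
  rw [← mk_up]
  rfl

lemma gn_eq (u : FreeGroup (Option S)) :
    FreeGroup.lift (gn (ascRel w r)) u = PresentedGroup.mk _ u := by
  have h : FreeGroup.lift (gn (ascRel w r)) = PresentedGroup.mk _ := by
    apply FreeGroup.ext_hom
    intro x
    rw [FreeGroup.lift_apply_of]
    rfl
  rw [h]

lemma lift_rel (κ : S ⊕ R) :
    FreeGroup.lift (gn (ascRel w r)) (FreeGroup.mk (ascRel w r κ)) = 1 := by
  rw [gn_eq]
  exact PresentedGroup.one_of_mem ⟨κ, rfl⟩

lemma lift_upF (u : FreeGroup S) :
    FreeGroup.lift (gn (ascRel w r)) (upF u) =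
      FreeGroup.lift (fun s : S => gn (ascRel w r) (some s)) u := by
  have h : (FreeGroup.lift (gn (ascRel w r))).comp upF =
      FreeGroup.lift (fun s : S => gn (ascRel w r) (some s)) := by
    apply FreeGroup.ext_hom
    intro x
    simp [upF]
  rw [← h]
  rfl

/-- The relation `s t = t w_s` in the presented group. -/
lemma rel_inl (s : S) :
    gn (ascRel w r) (some s) * gn (ascRel w r) none =
      gn (ascRel w r) none *
        FreeGroup.lift (fun s : S => gn (ascRel w r) (some s)) (FreeGroup.mk (w s)) := by
  have h := lift_rel w r (Sum.inl s)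
  rw [mk_ascRel_inl, map_mul, map_mul, map_mul, map_inv, map_inv, lift_upF,
    FreeGroup.lift_apply_of, FreeGroup.lift_apply_of] at h
  rw [mul_inv_eq_one, mul_inv_eq_iff_eq_mul] at h
  exact h

/-- The height homomorphism. -/
def chi : Gp (ascRel w r) →* Multiplicative ℤ :=
  PresentedGroup.toGroup
    (f := fun x : Option S => match x with
      | none => Multiplicative.ofAdd 1
      | some _ => 1) (by
    rintro _ ⟨κ, rfl⟩
    have hup : ∀ u : FreeGroup S, FreeGroup.lift (fun x : Option S => match x with
      | none => Multiplicative.ofAdd (1 : ℤ)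
      | some _ => 1) (upF u) = 1 := by
      intro u
      have h : (FreeGroup.lift (fun x : Option S => match x with
          | none => Multiplicative.ofAdd (1 : ℤ)
          | some _ => 1)).comp upF = 1 := by
        apply FreeGroup.ext_hom
        intro x
        simp [upF]
      have := DFunLike.congr_fun h u
      simpa using this
    cases κ with
    | inl s =>
      simp only [mk_ascRel_inl, map_mul, map_inv, hup, FreeGroup.lift_apply_of]
      simp
    | inr ρ => simp only [mk_ascRel_inr, hup])

lemma chi_some (s : S) : chi w r (gn (ascRel w r) (some s)) = 1 := by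
  unfold chi
  rw [PresentedGroup.toGroup.of]

lemma chi_none : chi w r (gn (ascRel w r) none) = Multiplicative.ofAdd 1 := by
  unfold chi
  rw [PresentedGroup.toGroup.of]

/-- The data of the ascending HNN extension presented by `ascRel w r`. -/
def ascOf : Asc S R (Gp (ascRel w r)) where
  σ s := gn (ascRel w r) (some s)
  t := gn (ascRel w r) none
  φ := FreeGroup.lift fun s : S => FreeGroup.mk (w s)
  ht g := Multiplicative.toAdd (chi w r g)
  rr ρ := FreeGroup.mk (r ρ)
  qt u := by
    induction u using FreeGroup.induction_on with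
    | C1 => simp
    | of s => simpa using rel_inl w r s
    | inv_of s h =>
      rw [map_inv, map_inv, map_inv, inv_mul_eq_iff_eq_mul, ← mul_assoc, h, mul_assoc,
        mul_inv_cancel, mul_one]
    | mul u v hu hv =>
      rw [map_mul, map_mul, map_mul, mul_assoc, hv, ← mul_assoc, hu, mul_assoc]
  ht_mul g h := by rw [map_mul]; rfl
  htσ s := by rw [chi_some]; rfl
  htt := by rw [chi_none]; rfl
  qr ρ := by
    rw [← lift_upF, ← mk_ascRel_inr]
    exact lift_rel w r (Sum.inr ρ)

lemma ascOf_ker : (ascOf w r).Ker := by
  intro u hu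
  exact ker_asc w r u hu

/-- The range of `q` is the base group. -/
lemma ascOf_range : (ascOf w r).q.range = base w r := by
  unfold base
  exact FreeGroup.range_lift_eq_closure

/-- The coordinates of the cochains. -/
def cor {M : Type} [AddCommGroup M] : (S ⊕ R → M) ≃+ (S → M) × (R → M) where
  toFun c := (fun s => c (Sum.inl s), fun ρ => c (Sum.inr ρ))
  invFun p := Sum.elim p.1 p.2
  left_inv c := by funext κ; cases κ <;> rfl
  right_inv p := rfl
  map_add' c c' := rfl

lemma der_upF (b : Option S → (Gp (ascRel w r) →₀ ℤ)) (u : FreeGroup S) :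
    der (gn (ascRel w r)) b (upF u) = der (ascOf w r).σ (fun s => b (some s)) u := by
  have h := eq_der (ascOf w r).σ (fun u => der (gn (ascRel w r)) b (upF u))
    (by
      intro u v
      rw [map_mul, der_mul, lift_upF]
      rfl) u
  rw [h]
  congr 1
  funext s
  simp [upF]

/-- The coboundary in the coordinates. -/
lemma cor_cob (b : Option S → (Gp (ascRel w r) →₀ ℤ)) :
    cor (cob (gn (ascRel w r)) (ascRel w r) b) =
      (ascOf w r).cobA (fun s => b (some s), b none) := by
  rw [Asc.cobA_apply]
  ext1
  · funext s
    change der (gn (ascRel w r)) b (FreeGroup.mk (ascRel w r (Sum.inl s))) = _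
    have h1 : FreeGroup.lift (gn (ascRel w r)) (upF (FreeGroup.mk (w s))) =
        FreeGroup.lift (fun s : S => gn (ascRel w r) (some s)) (FreeGroup.mk (w s)) :=
      lift_upF w r _
    have h2 := rel_inl w r s
    rw [mk_ascRel_inl, der_mul, der_mul, der_mul, der_inv, der_inv, der_upF, der_of, der_of]
    simp only [map_mul, map_inv, FreeGroup.lift_apply_of, Pi.sub_apply, Asc.Th_apply,
      Asc.dl_apply, h1]
    ext g
    simp only [Finsupp.add_apply, Finsupp.sub_apply, Finsupp.neg_apply, sh_apply, map_neg]
    have h3 : ∀ g : Gp (ascRel w r), g * (gn (ascRel w r) (some s) * gn (ascRel w r) none) *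
        (FreeGroup.lift (fun s : S => gn (ascRel w r) (some s)) (FreeGroup.mk (w s)))⁻¹ =
        g * gn (ascRel w r) none := by
      intro g
      rw [h2]; group
    have h4 : ∀ g : Gp (ascRel w r), g * (gn (ascRel w r) (some s) * gn (ascRel w r) none *
        (FreeGroup.lift (fun s : S => gn (ascRel w r) (some s)) (FreeGroup.mk (w s)))⁻¹) *
        (gn (ascRel w r) none)⁻¹ = g := by
      intro g
      rw [h2]; group
    rw [h3, h4]
    have h5 : (ascOf w r).φ (FreeGroup.of s) = FreeGroup.mk (w s) := by
      simp [ascOf]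
    rw [h5]
    have h6 : (ascOf w r).t = gn (ascRel w r) none := rfl
    have h7 : (ascOf w r).σ s = gn (ascRel w r) (some s) := rfl
    rw [h6, h7]
    ring
  · funext ρ
    change der (gn (ascRel w r)) b (FreeGroup.mk (ascRel w r (Sum.inr ρ))) = _
    rw [mk_ascRel_inr, der_upF]
    rfl

/-- Transport of the property FR along an isomorphism. -/
lemma FR_equiv {A A' : Type} [AddCommGroup A] [AddCommGroup A'] (e : A ≃+ A')
    (B : AddSubgroup A) (B' : AddSubgroup A') (hB : ∀ x, x ∈ B ↔ e x ∈ B') (h : FR B') :
    FR B := by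
  classical
  intro F
  obtain ⟨F', hF'⟩ := h (F.image e)
  have key : ∀ (K : Finset A) (x : A), x ∈ AddSubgroup.closure (K : Set A) ⊔ B ↔
      e x ∈ AddSubgroup.closure ((K.image e : Finset A') : Set A') ⊔ B' := by
    intro K x
    have h1 : AddSubgroup.closure ((K.image e : Finset A') : Set A') =
        (AddSubgroup.closure (K : Set A)).map (e : A →+ A') := by
      rw [AddMonoidHom.map_closure, Finset.coe_image]
      rfl
    have h2 : B' = B.map (e : A →+ A') := by
      ext y
      constructor
      · intro hy
        refine ⟨e.symm y, ?_, by simp⟩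
        exact (hB _).mpr (by simpa using hy)
      · rintro ⟨x, hx, rfl⟩
        exact (hB x).mp hx
    rw [h1, h2, ← AddSubgroup.map_sup]
    constructor
    · intro hx
      exact ⟨x, hx, rfl⟩
    · rintro ⟨x', hx', hxx⟩
      have : x' = x := e.injective hxx
      rw [← this]; exact hx'
  refine ⟨F'.image e.symm, ?_⟩
  intro m x hm hx
  rw [key] at hx ⊢
  have h3 : (F'.image e.symm).image e = F' := by
    ext y
    simp
  rw [h3]
  apply hF' m (e x) hm
  rwa [map_zsmul] at hx

/-- The second cohomology of the presentation complex has the property FR if its version in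
coordinates has it. -/
theorem FR_cob (h : FR (ascOf w r).cobA.range) : FR (cob (gn (ascRel w r)) (ascRel w r)).range := by
  refine FR_equiv cor _ _ ?_ h
  intro x
  constructor
  · rintro ⟨b, rfl⟩
    exact ⟨(fun s => b (some s), b none), (cor_cob w r b).symm⟩
  · rintro ⟨p, hp⟩
    refine ⟨fun o => o.elim p.2 p.1, ?_⟩
    apply cor.injective
    rw [cor_cob, ← hp]
    rfl

end

end Pool.Agent.Helper39.AH
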