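import Pool.Agent.Helper39.AH.Frame
import Pool.Agent.Helper39.AH.FRasc
import Pool.Agent.Helper39.AH.Rel

/-!
# AH-Main: semistability of the first homology at infinity of ascending HNN extensions
-/

namespace Pool.Agent.Helper39.AH

theorem main {S R : Type} [Finite S] [Finite R] (w : S → List (S × Bool))
    (r : R → List (S × Bool)) (hN : NoetherianEmbeddable (base w r)) :
    H1Semistable (ascRel w r) := by
  apply semistable_of_FR
  apply FR_cob
  refine (ascOf w r).FR_cobA (ascOf_ker w r) ?_
  rw [ascOf_range]
  exact hN

end Pool.Agent.Helper39.AH
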