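import Pool.Agent.Helper39.AH.Hgt

/-!
# AH: potential differences

For `h ∈ Z` and `z`, `z'` in the same left coset of `A = a.q.range` the potential difference
`pd h z z'` is the value at `z` of the derivation of `h` at any `u` with `z q(u) = z'`.
-/

namespace Pool.Agent.Helper39.AH

noncomputable section

namespace Asc

variable {R S G : Type} [Group G] (a : Asc S R G)

open Classical in
/-- The potential difference of `h` between `z` and `z'`. -/
def pd (h : S → (G →₀ ℤ)) (z z' : G) : ℤ :=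
  if H : ∃ u, a.q u = z⁻¹ * z' then der a.σ h (Classical.choose H) z else 0

lemma pd_add (h k : S → (G →₀ ℤ)) (z z' : G) : a.pd (h + k) z z' = a.pd h z z' + a.pd k z z' := by
  unfold pd
  split_ifs with H
  · rw [der_add, Finsupp.add_apply]
  · simp

/-- Potential differences in the same coset are computed by any word. -/
lemma pd_eq {h : S → (G →₀ ℤ)} (hh : h ∈ a.Z) {z z' : G} {u : FreeGroup S}
    (hu : a.q u = z⁻¹ * z') : a.pd h z z' = der a.σ h u z := by
  unfold pd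
  have H : ∃ u, a.q u = z⁻¹ * z' := ⟨u, hu⟩
  rw [dif_pos H, a.der_congr hh ((Classical.choose_spec H).trans hu.symm)]

/-- Potential differences of different cosets are zero by convention. -/
lemma pd_eq_zero_of_not (h : S → (G →₀ ℤ)) {z z' : G} (H : z⁻¹ * z' ∉ a.q.range) :
    a.pd h z z' = 0 := by
  unfold pd
  rw [dif_neg]
  rintro ⟨u, hu⟩
  exact H ⟨u, hu⟩

lemma pd_trans {h : S → (G →₀ ℤ)} (hh : h ∈ a.Z) {x y z : G} (h1 : x⁻¹ * y ∈ a.q.range)
    (h2 : y⁻¹ * z ∈ a.q.range) : a.pd h x z = a.pd h x y + a.pd h y z := by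
  obtain ⟨u, hu⟩ := h1
  obtain ⟨v, hv⟩ := h2
  have huv : a.q (u * v) = x⁻¹ * z := by
    rw [map_mul, hu, hv]; group
  rw [a.pd_eq hh hu, a.pd_eq hh hv, a.pd_eq hh huv, der_mul, Finsupp.add_apply, sh_apply]
  congr 2
  change x * a.q u = y
  rw [hu]; group

@[simp] lemma pd_self (h : S → (G →₀ ℤ)) (hh : h ∈ a.Z) (x : G) : a.pd h x x = 0 := by
  rw [a.pd_eq hh (u := 1) (by simp), der_one]
  rfl

lemma pd_symm {h : S → (G →₀ ℤ)} (hh : h ∈ a.Z) {x y : G} (h1 : x⁻¹ * y ∈ a.q.range) :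
    a.pd h y x = - a.pd h x y := by
  have h2 : y⁻¹ * x ∈ a.q.range := by
    have := a.q.range.inv_mem h1
    rwa [mul_inv_rev, inv_inv] at this
  have := a.pd_trans hh h1 h2
  rw [a.pd_self h hh] at this
  omega

lemma pd_Th {h : S → (G →₀ ℤ)} (hh : h ∈ a.Z) {x y : G} (h1 : x⁻¹ * y ∈ a.q.range) :
    a.pd (a.Th h) x y = a.pd h (x * a.t) (y * a.t) := by
  obtain ⟨u, hu⟩ := h1
  have h2 : a.q (a.φ u) = (x * a.t)⁻¹ * (y * a.t) := by
    have := a.qt u
    rw [hu] at this
    have h3 : a.q (a.φ u) = a.t⁻¹ * (x⁻¹ * y * a.t) := by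
      rw [this]; group
    rw [h3]; group
  rw [a.pd_eq (a.Th_mem_Z hh) hu, a.pd_eq hh h2, der_Th, sh_apply]

/-- The coset relation is preserved by right multiplication by `t`. -/
lemma coset_t {x y : G} (h1 : x⁻¹ * y ∈ a.q.range) : (x * a.t)⁻¹ * (y * a.t) ∈ a.q.range := by
  obtain ⟨u, hu⟩ := h1
  refine ⟨a.φ u, ?_⟩
  have := a.qt u
  rw [hu] at this
  have h3 : a.q (a.φ u) = a.t⁻¹ * (x⁻¹ * y * a.t) := by
    rw [this]; group
  rw [h3]; group

lemma coset_t_pow {x y : G} (h1 : x⁻¹ * y ∈ a.q.range) (n : ℕ) :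
    (x * a.t ^ n)⁻¹ * (y * a.t ^ n) ∈ a.q.range := by
  induction n with
  | zero => simpa using h1
  | succ n ih =>
    have := a.coset_t ih
    simpa [pow_succ, mul_assoc] using this

lemma pd_Th_iterate {h : S → (G →₀ ℤ)} (hh : h ∈ a.Z) (n : ℕ) {x y : G}
    (h1 : x⁻¹ * y ∈ a.q.range) :
    a.pd (a.Th^[n] h) x y = a.pd h (x * a.t ^ n) (y * a.t ^ n) := by
  induction n generalizing h with
  | zero => simp
  | succ n ih =>
    rw [Function.iterate_succ_apply, ih (a.Th_mem_Z hh), a.pd_Th hh (a.coset_t_pow h1 n),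
      mul_assoc, mul_assoc, ← pow_succ]

lemma pd_dl (τ : G →₀ ℤ) {x y : G} (h1 : x⁻¹ * y ∈ a.q.range) :
    a.pd (a.dl τ) x y = τ x - τ y := by
  obtain ⟨u, hu⟩ := h1
  rw [a.pd_eq (a.dl_mem_Z τ) hu, der_dl, Finsupp.sub_apply, sh_apply, hu]
  congr 2
  group

/-- Potential differences of a homogeneous `h` of height `K` are zero at other heights. -/
lemma pd_height {h : S → (G →₀ ℤ)} {K : ℤ} (hK : ∀ s g, h s g ≠ 0 → a.ht g = K) {x : G} (y : G)
    (hx : a.ht x ≠ K) : a.pd h x y = 0 := by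
  unfold pd
  split_ifs with H
  · by_contra h1
    exact hx (a.der_height (fun k => k = K) h hK _ _ h1)
  · rfl

/-- The value of `h` on a letter is a potential difference. -/
lemma apply_eq_pd {h : S → (G →₀ ℤ)} (hh : h ∈ a.Z) (s : S) (z : G) :
    h s z = a.pd h z (z * a.σ s) := by
  rw [a.pd_eq hh (u := FreeGroup.of s) (by simp), der_of]

end Asc

end

end Pool.Agent.Helper39.AH
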