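import Pool.Agent.Helper39.AH.Pd

/-!
# AH-PdFin: potential differences take finitely many values

Let `Bad` be the finite set of all `z` and `z * a.σ s` with `h s z ≠ 0` (`S` is finite).

Claim: for all `u : FreeGroup S` and `z : G`, either `der a.σ h u z = 0` or there are `b ∈ Bad`
and `v : FreeGroup S` with `a.q v = z⁻¹ * b` and `der a.σ h v z = 0`.

Proof by induction on a word `l` with `u = FreeGroup.mk l` (`mk_cons_true`, `mk_cons_false` of
`Chain.lean` can be copied as private lemmas), for all `z`. If `z ∈ Bad` take `b = z`, `v = 1`.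
Let `z ∉ Bad` and `u = x * u'` with `x` a letter or the inverse of a letter. Then
`der a.σ h x z = 0`: for `x = of s` it is `h s z`; for `x = (of s)⁻¹` it is
`- h s (z * (a.σ s)⁻¹)`, and if this is not zero then `z = (z * (a.σ s)⁻¹) * a.σ s ∈ Bad`. So
`der a.σ h (x * u') z = der a.σ h u' (z * a.q x)`. Apply the induction hypothesis to `u'` at
`z * a.q x`: in the first case we are done; in the second case take `x * v`.

Now let `h ∈ Z`. Then `pd h z z'` is `0` or one of the finitely many `pd h b b'`, `b, b' ∈ Bad`: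
if `z⁻¹ * z'` is not in the range it is `0` (`pd_eq_zero_of_not`). Otherwise let
`a.q u = z⁻¹ * z'`. The claim for `u`, `z` gives `pd h z z' = 0` (`pd_eq`) or a `b ∈ Bad` in the
coset of `z` with `pd h z b = 0`; the claim for `u⁻¹`, `z'` gives `pd h z' z = 0`, hence
`pd h z z' = 0` (`pd_symm`), or a `b' ∈ Bad` in the coset with `pd h z' b' = 0`. In the
remaining case `pd h z z' = pd h z b + pd h b b' + pd h b' z' = pd h b b'` (`pd_trans`,
`pd_symm`).
-/

namespace Pool.Agent.Helper39.AH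

private lemma pdFin_cons_true {X : Type} (x : X) (l : List (X × Bool)) :
    FreeGroup.mk ((x, true) :: l) = FreeGroup.of x * FreeGroup.mk l := by
  rw [FreeGroup.of, FreeGroup.mul_mk]; rfl

private lemma pdFin_cons_false {X : Type} (x : X) (l : List (X × Bool)) :
    FreeGroup.mk ((x, false) :: l) = (FreeGroup.of x)⁻¹ * FreeGroup.mk l := by
  rw [FreeGroup.of, FreeGroup.inv_mk, FreeGroup.mul_mk]; rfl

namespace Asc

variable {R S G : Type} [Group G] (a : Asc S R G)

private lemma pdFin_claim (h : S → (G →₀ ℤ)) (Bad : Set G)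
    (h1 : ∀ s z, h s z ≠ 0 → z ∈ Bad) (h2 : ∀ s z, h s z ≠ 0 → z * a.σ s ∈ Bad)
    (l : List (S × Bool)) : ∀ z : G, der a.σ h (FreeGroup.mk l) z = 0 ∨
      ∃ b ∈ Bad, ∃ v : FreeGroup S, a.q v = z⁻¹ * b ∧ der a.σ h v z = 0 := by
  induction l with
  | nil =>
    intro z
    left
    have : (FreeGroup.mk ([] : List (S × Bool))) = 1 := rfl
    rw [this, der_one]
    rfl
  | cons p l ih =>
    intro z
    by_cases hz : z ∈ Bad
    · exact Or.inr ⟨z, hz, 1, by simp, by simp⟩
    obtain ⟨s, c⟩ := p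
    have key : ∀ x : FreeGroup S, der a.σ h x z = 0 →
        der a.σ h (x * FreeGroup.mk l) z = 0 ∨
          ∃ b ∈ Bad, ∃ v : FreeGroup S, a.q v = z⁻¹ * b ∧ der a.σ h v z = 0 := by
      intro x hx
      rcases ih (z * a.q x) with h3 | ⟨b, hb, v, hv1, hv2⟩
      · left
        rw [der_mul, Finsupp.add_apply, sh_apply, hx, h3, add_zero]
      · right
        refine ⟨b, hb, x * v, ?_, ?_⟩
        · rw [map_mul, hv1]; group
        · rw [der_mul, Finsupp.add_apply, sh_apply, hx, hv2, add_zero]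
    cases c
    · rw [pdFin_cons_false]
      apply key
      rw [der_inv, der_of, Finsupp.neg_apply, sh_apply, neg_eq_zero]
      by_contra h3
      apply hz
      have := h2 s _ h3
      simpa using this
    · rw [pdFin_cons_true]
      apply key
      rw [der_of]
      by_contra h3
      exact hz (h1 s z h3)

theorem pd_finite [Finite S] {h : S → (G →₀ ℤ)} (hh : h ∈ a.Z) :
    (Set.range fun p : G × G => a.pd h p.1 p.2).Finite := by
  classical
  let Bad : Set G :=
    ⋃ s : S, (((h s).support : Set G) ∪ (fun z => z * a.σ s) '' ((h s).support : Set G))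
  have hBad : Bad.Finite := Set.finite_iUnion fun s =>
    ((h s).support.finite_toSet).union ((h s).support.finite_toSet.image _)
  have h1 : ∀ s z, h s z ≠ 0 → z ∈ Bad := fun s z hz =>
    Set.mem_iUnion.mpr ⟨s, Or.inl (by simpa using hz)⟩
  have h2 : ∀ s z, h s z ≠ 0 → z * a.σ s ∈ Bad := fun s z hz =>
    Set.mem_iUnion.mpr ⟨s, Or.inr ⟨z, by simpa using hz, rfl⟩⟩
  have hfin : (insert 0 ((fun p : G × G => a.pd h p.1 p.2) '' (Bad ×ˢ Bad))).Finite :=
    ((hBad.prod hBad).image _).insert 0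
  refine hfin.subset ?_
  rintro _ ⟨⟨z, z'⟩, rfl⟩
  by_cases hz : z⁻¹ * z' ∈ a.q.range
  swap
  · exact Or.inl (a.pd_eq_zero_of_not h hz)
  have hinv : ∀ x y : G, x⁻¹ * y ∈ a.q.range → y⁻¹ * x ∈ a.q.range := by
    intro x y hxy
    have := a.q.range.inv_mem hxy
    rwa [mul_inv_rev, inv_inv] at this
  have htr : ∀ x y w : G, x⁻¹ * y ∈ a.q.range → y⁻¹ * w ∈ a.q.range → x⁻¹ * w ∈ a.q.range := by
    intro x y w hxy hyw
    have := a.q.range.mul_mem hxy hyw
    have e : x⁻¹ * y * (y⁻¹ * w) = x⁻¹ * w := by group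
    rwa [e] at this
  have hclaim : ∀ x y : G, x⁻¹ * y ∈ a.q.range →
      a.pd h x y = 0 ∨ ∃ b ∈ Bad, x⁻¹ * b ∈ a.q.range ∧ a.pd h x b = 0 := by
    rintro x y ⟨u, hu⟩
    rcases a.pdFin_claim h Bad h1 h2 u.toWord x with h3 | ⟨b, hb, v, hv1, hv2⟩
    · left
      rw [a.pd_eq hh hu, ← h3, FreeGroup.mk_toWord]
    · exact Or.inr ⟨b, hb, ⟨v, hv1⟩, by rw [a.pd_eq hh hv1, hv2]⟩
  rcases hclaim z z' hz with h3 | ⟨b, hb, hb1, hb2⟩
  · exact Or.inl h3
  rcases hclaim z' z (hinv _ _ hz) with h3 | ⟨b', hb', hb1', hb2'⟩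
  · left
    have h4 := a.pd_symm hh (hinv _ _ hz)
    change a.pd h z z' = 0
    omega
  · right
    refine ⟨(b, b'), ⟨hb, hb'⟩, ?_⟩
    have hbz' : b⁻¹ * z' ∈ a.q.range := htr _ _ _ (hinv _ _ hb1) hz
    have hbb' : b⁻¹ * b' ∈ a.q.range := htr _ _ _ hbz' hb1'
    have e1 := a.pd_trans hh hb1 hbz'
    have e2 := a.pd_trans hh hbb' (hinv _ _ hb1')
    have e3 := a.pd_symm hh hb1'
    change a.pd h b b' = a.pd h z z'
    omega

end Asc

end Pool.Agent.Helper39.AH
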