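import Pool.Agent.Helper39.AH.Hgt

/-!
# AH-Push: pushing cochains to a common low height

One step. For `(d, u)` and any `d0` we have `a.cobA (d0, 0) = (d0 - Th d0, ev d0)`, so `(d, u)`
is congruent to `(d - d0 + Th d0, u - ev d0)` modulo the range. Take for `d0` the homogeneous
component `hc k d` of the top height `k`: then the heights of `Th d0` are `k - 1`
(`Th_height`), and the heights of `ev d0` are `k` (`der_height`).

Proof of `push_aux`: induction on `N`. For `N = 0` take `d' = d`, `u' = u`. For `N + 1` use the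
step with `k = K + N + 1`: the heights of `d - hc k d + Th (hc k d)` are between `K` and `K + N`,
and those of `u - ev (hc k d)` are heights of `u` or equal to `k > K`. If `d ∈ Q` then
`hc k d ∈ Q`, so `d - hc k d + Th (hc k d) ∈ Q`, and `ev (hc k d) = 0`.

Proof of `push`: let `N0` be a bound of the absolute values of the heights of `c.1` and `c.2`
(`height_bound`), `K = min K0 (-N0 - 1)` and apply `push_aux` with `Q = ⊥` (or with any `Q`).

Proof of `push_Z`: `push_aux` with `Q = a.Z` and `u = 0`: the hypotheses hold by `Th_mem_Z`,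
`hc_mem_Z` and `Z_le_Hinf` (with `n = 0`).
-/

namespace Pool.Agent.Helper39.AH

namespace Asc

variable {R S G : Type} [Group G] (a : Asc S R G)

theorem push_aux (Q : AddSubgroup (S → (G →₀ ℤ))) (hT : ∀ d ∈ Q, a.Th d ∈ Q)
    (hc : ∀ d ∈ Q, ∀ k, a.hc k d ∈ Q) (hev : ∀ d ∈ Q, a.ev d = 0) (K : ℤ) (N : ℕ) :
    ∀ (d : S → (G →₀ ℤ)) (u : R → (G →₀ ℤ)),
      (∀ s g, d s g ≠ 0 → K ≤ a.ht g ∧ a.ht g ≤ K + N) →
      ∃ (d' : S → (G →₀ ℤ)) (u' : R → (G →₀ ℤ)), (d, u) - (d', u') ∈ a.cobA.range ∧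
        (∀ s g, d' s g ≠ 0 → a.ht g = K) ∧
        (∀ ρ g, u' ρ g ≠ 0 → u ρ g ≠ 0 ∨ K < a.ht g) ∧ (d ∈ Q → d' ∈ Q ∧ u' = u) := by
  classical
  induction N with
  | zero =>
    intro d u hd
    refine ⟨d, u, ?_, ?_, ?_, ?_⟩
    · rw [sub_self]
      exact a.cobA.range.zero_mem
    · intro s g hg
      have := hd s g hg
      push_cast at this
      omega
    · intro ρ g hg
      exact Or.inl hg
    · intro h
      exact ⟨h, rfl⟩
  | succ N ih =>
    intro d u hd
    -- the top component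
    have h0 : ∀ s g, a.hc (K + N + 1) d s g ≠ 0 → a.ht g = K + N + 1 := by
      intro s g hg
      by_contra h
      rw [hc_apply, if_neg h] at hg
      exact hg rfl
    have h1 : ∀ s g, a.Th (a.hc (K + N + 1) d) s g ≠ 0 → a.ht g + 1 = K + N + 1 := fun s g hg =>
      a.Th_height (fun n => n = K + N + 1) _ h0 s g hg
    have h2 : ∀ ρ g, a.ev (a.hc (K + N + 1) d) ρ g ≠ 0 → a.ht g = K + N + 1 := by
      intro ρ g hg
      rw [ev_apply] at hg
      exact a.der_height (fun n => n = K + N + 1) _ h0 _ g hg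
    obtain ⟨d', u', hr, hd', hu', hQ⟩ := ih (d - a.hc (K + N + 1) d + a.Th (a.hc (K + N + 1) d))
      (u - a.ev (a.hc (K + N + 1) d)) (by
        intro s g hg
        by_cases h3 : a.Th (a.hc (K + N + 1) d) s g = 0
        · have h4 : d s g - a.hc (K + N + 1) d s g ≠ 0 := by
            intro h5
            apply hg
            rw [Pi.add_apply, Finsupp.add_apply, h3, add_zero, Pi.sub_apply, Finsupp.sub_apply]
            exact h5
          have h6 : a.ht g ≠ K + N + 1 := by
            intro h7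
            rw [hc_apply, if_pos h7, sub_self] at h4
            exact h4 rfl
          rw [hc_apply, if_neg h6, sub_zero] at h4
          have := hd s g h4
          push_cast at this
          omega
        · have := h1 s g h3
          omega)
    refine ⟨d', u', ?_, hd', ?_, ?_⟩
    · have h8 : a.cobA (a.hc (K + N + 1) d, 0) ∈ a.cobA.range := ⟨_, rfl⟩
      have h9 := a.cobA.range.add_mem h8 hr
      convert h9 using 1
      rw [cobA_apply]
      ext1
      · simp only [Prod.fst_sub, Prod.fst_add, map_zero, sub_zero]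
        abel
      · simp only [Prod.snd_sub, Prod.snd_add]
        abel
    · intro ρ g hg
      rcases hu' ρ g hg with h | h
      · by_cases h10 : a.ev (a.hc (K + N + 1) d) ρ g = 0
        · left
          rw [Pi.sub_apply, Finsupp.sub_apply, h10, sub_zero] at h
          exact h
        · right
          have := h2 ρ g h10
          omega
      · exact Or.inr h
    · intro hdQ
      have h11 := hc d hdQ (K + N + 1)
      have h12 := hQ (Q.add_mem (Q.sub_mem hdQ h11) (hT _ h11))
      refine ⟨h12.1, ?_⟩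
      rw [h12.2, hev _ h11, sub_zero]

theorem push [Finite S] [Finite R] (c : (S → (G →₀ ℤ)) × (R → (G →₀ ℤ))) (K0 : ℤ) :
    ∃ (K : ℤ) (d' : S → (G →₀ ℤ)) (u' : R → (G →₀ ℤ)), K ≤ K0 ∧
      c - (d', u') ∈ a.cobA.range ∧ (∀ s g, d' s g ≠ 0 → a.ht g = K) ∧
      (∀ ρ g, u' ρ g ≠ 0 → K < a.ht g) := by
  obtain ⟨N1, hN1⟩ := a.height_bound c.1
  obtain ⟨N2, hN2⟩ := a.height_bound c.2
  set K : ℤ := min K0 (-(N1 + N2 : ℤ) - 1) with hK
  have hK1 : K ≤ K0 := min_le_left _ _
  have hK2 : K ≤ -(N1 + N2 : ℤ) - 1 := min_le_right _ _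
  obtain ⟨d', u', hr, hd', hu', -⟩ := a.push_aux ⊥
    (by
      intro d hd
      rw [AddSubgroup.mem_bot] at hd ⊢
      rw [hd, map_zero])
    (by
      intro d hd k
      rw [AddSubgroup.mem_bot] at hd ⊢
      rw [hd, map_zero])
    (by
      intro d hd
      rw [AddSubgroup.mem_bot] at hd
      rw [hd, map_zero])
    K (N1 - K).toNat c.1 c.2
    (by
      intro s g hg
      have h := abs_le.mp (hN1 s g hg)
      have h2 : (0 : ℤ) ≤ N2 := Int.natCast_nonneg _
      constructor <;> omega)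
  refine ⟨K, d', u', hK1, hr, hd', ?_⟩
  intro ρ g hg
  rcases hu' ρ g hg with h | h
  · have h3 := abs_le.mp (hN2 ρ g h)
    have h4 : (0 : ℤ) ≤ N1 := Int.natCast_nonneg _
    omega
  · exact h

theorem push_Z [Finite S] {h : S → (G →₀ ℤ)} (hh : h ∈ a.Z) :
    ∃ (K : ℤ) (h' : S → (G →₀ ℤ)), h' ∈ a.Z ∧
      ((h - h', 0) : (S → (G →₀ ℤ)) × (R → (G →₀ ℤ))) ∈ a.cobA.range ∧
      (∀ s g, h' s g ≠ 0 → a.ht g = K) := by
  obtain ⟨N1, hN1⟩ := a.height_bound h
  obtain ⟨d', u', hr, hd', -, hQ⟩ := a.push_aux a.Z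
    (fun d hd => a.Th_mem_Z hd)
    (fun d hd k => a.hc_mem_Z hd k)
    (by
      intro d hd
      funext ρ
      exact a.Z_le_Hinf hd 0 ρ)
    (-(N1 : ℤ)) (N1 + N1) h 0
    (by
      intro s g hg
      have h1 := abs_le.mp (hN1 s g hg)
      push_cast
      constructor <;> omega)
  obtain ⟨h1, h2⟩ := hQ hh
  refine ⟨-(N1 : ℤ), d', h1, ?_, hd'⟩
  rw [h2, Prod.mk_sub_mk, sub_self] at hr
  exact hr

end Asc

end Pool.Agent.Helper39.AH
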