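import Pool.Agent.Helper39.AH.Defs

/-!
# AH-Tamari: group rings of amenable groups without zero divisors are Ore domains

`Amen Γ`: for every finite set `T` there is a finite nonempty `F` with
`card (F * T) < 2 * card F`. (A group is amenable if and only if it has this property.)

Proof of `ore`. Let `a, s ∈ ℤΓ`, `s ≠ 0`. Let `T` be the union of the supports of `a` and `s`
(finite) and `F` as in `Amen Γ`. Consider the additive map
`(x, y) ↦ x * a - y * s` from the pairs of elements of `ℤΓ` supported in `F` to the elements of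
`ℤΓ` supported in `F * T`. The left hand side is a free abelian group of rank
`2 * card F`, the right hand side one of rank `card (F * T) < 2 * card F`; so the map is not
injective (rank, e.g. `LinearMap` on `F → ℤ` and
`LinearMap.exists_ne_zero_of_finrank_lt` or `rank_le_of_injective`) and there is
`(x, y) ≠ 0` with `x * a = y * s`. If `x = 0` then `y * s = 0`, `y ≠ 0`, so `s = 0`, a
contradiction. So `x ≠ 0`.

Proof of `tamari`. By `ore`, the set of the nonzero elements of `ℤΓ` is a (left) Ore set
(`OreLocalization.OreSet` for `nonZeroDivisors` of a domain: use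
`OreLocalization.oreSetOfCancelMonoidWithZero` or construct it with
`OreLocalization.oreSetOfNoZeroDivisors`; for all `r` and `s ≠ 0` there are `r'`, `s' ≠ 0` with
`s' * r = r' * s`), and the Ore localization at the nonzero divisors is a division ring
(`OreLocalization.instDivisionRing...`), which is left Noetherian; the canonical homomorphism
(`OreLocalization.numeratorRingHom`) is injective
(`OreLocalization.numeratorHom_inj`).
-/

namespace Pool.Agent.Helper39.AH

open scoped Pointwise in
open Classical in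
/-- The amenability condition: no finite set doubles all finite sets. -/
def Amen (Γ : Type) [Group Γ] : Prop :=
  ∀ T : Finset Γ, ∃ F : Finset Γ, F.Nonempty ∧ (F * T).card < 2 * F.card

open scoped Pointwise in
private theorem Tamari_card {Γ : Type} [Group Γ] [DecidableEq Γ] (a s : MonoidAlgebra ℤ Γ)
    (F : Finset Γ) (hc : (F * (a.coeff.support ∪ s.coeff.support)).card < 2 * F.card) :
    ∃ g : ↥F ⊕ ↥F → ℤ, (∃ i, g i ≠ 0) ∧
      (∑ f : ↥F, MonoidAlgebra.single f.1 (g (Sum.inl f))) * a +
        (∑ f : ↥F, MonoidAlgebra.single f.1 (g (Sum.inr f))) * s = 0 := by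
  set T := a.coeff.support ∪ s.coeff.support with hT
  let r : MonoidAlgebra ℤ Γ →+ (↥(F * T) → ℤ) :=
    { toFun := fun z m => z.coeff m.1
      map_zero' := rfl
      map_add' := fun _ _ => rfl }
  let v : ↥F ⊕ ↥F → MonoidAlgebra ℤ Γ := Sum.elim
    (fun f => MonoidAlgebra.single f.1 1 * a) (fun f => MonoidAlgebra.single f.1 1 * s)
  have hli : ¬ LinearIndependent ℤ (fun i => r (v i)) := by
    intro hli
    have h1 := hli.fintype_card_le_finrank
    rw [Module.finrank_fintype_fun_eq_card, Fintype.card_sum, Fintype.card_coe,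
      Fintype.card_coe] at h1
    omega
  rw [Fintype.not_linearIndependent_iff] at hli
  obtain ⟨g, hg, hi⟩ := hli
  refine ⟨g, hi, ?_⟩
  have e1 : ∀ f : ↥F, MonoidAlgebra.single f.1 (g (Sum.inl f)) * a =
      g (Sum.inl f) • v (Sum.inl f) := by
    intro f
    change _ = g (Sum.inl f) • (MonoidAlgebra.single f.1 1 * a)
    rw [← smul_mul_assoc, MonoidAlgebra.smul_single, smul_eq_mul, mul_one]
  have e2 : ∀ f : ↥F, MonoidAlgebra.single f.1 (g (Sum.inr f)) * s =
      g (Sum.inr f) • v (Sum.inr f) := by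
    intro f
    change _ = g (Sum.inr f) • (MonoidAlgebra.single f.1 1 * s)
    rw [← smul_mul_assoc, MonoidAlgebra.smul_single, smul_eq_mul, mul_one]
  have e3 : (∑ f : ↥F, MonoidAlgebra.single f.1 (g (Sum.inl f))) * a +
      (∑ f : ↥F, MonoidAlgebra.single f.1 (g (Sum.inr f))) * s = ∑ i, g i • v i := by
    rw [Finset.sum_mul, Finset.sum_mul, Fintype.sum_sum_type, Finset.sum_congr rfl fun f _ => e1 f,
      Finset.sum_congr rfl fun f _ => e2 f]
  have hr : r (∑ i, g i • v i) = 0 := by
    rw [map_sum, ← hg]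
    exact Finset.sum_congr rfl fun i _ => map_zsmul r (g i) (v i)
  have hsub : ∀ c : ↥F → ℤ,
      (∑ f : ↥F, MonoidAlgebra.single f.1 (c f) : MonoidAlgebra ℤ Γ).coeff.support ⊆ F := by
    intro c
    rw [MonoidAlgebra.coeff_sum]
    refine Finsupp.support_finsetSum.trans (Finset.biUnion_subset.2 fun f _ => ?_)
    rw [MonoidAlgebra.coeff_single]
    exact Finsupp.support_single_subset.trans (Finset.singleton_subset_iff.2 f.2)
  have hmul : ∀ (c : ↥F → ℤ) (b : MonoidAlgebra ℤ Γ), b.coeff.support ⊆ T →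
      ((∑ f : ↥F, MonoidAlgebra.single f.1 (c f)) * b).coeff.support ⊆ F * T := fun c b hb =>
    (MonoidAlgebra.support_coeff_mul_subset _ _).trans (Finset.mul_subset_mul (hsub c) hb)
  ext m
  rw [MonoidAlgebra.coeff_zero, Finsupp.zero_apply]
  by_cases hm : m ∈ F * T
  · rw [e3]
    exact congrFun hr ⟨m, hm⟩
  · rw [MonoidAlgebra.coeff_add, Finsupp.add_apply,
      Finsupp.notMem_support_iff.1 fun h => hm (hmul _ a Finset.subset_union_left h),
      Finsupp.notMem_support_iff.1 fun h => hm (hmul _ s Finset.subset_union_right h), add_zero]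

theorem ore {Γ : Type} [Group Γ] (h : Amen Γ) [NoZeroDivisors (MonoidAlgebra ℤ Γ)]
    (a s : MonoidAlgebra ℤ Γ) (hs : s ≠ 0) :
    ∃ x y : MonoidAlgebra ℤ Γ, x ≠ 0 ∧ x * a = y * s := by
  classical
  obtain ⟨F, -, hc⟩ := h (a.coeff.support ∪ s.coeff.support)
  obtain ⟨g, ⟨i, hi⟩, he⟩ := Tamari_card a s F hc
  have hcoeff : ∀ (c : ↥F → ℤ) (f : ↥F),
      (∑ f : ↥F, MonoidAlgebra.single f.1 (c f) : MonoidAlgebra ℤ Γ).coeff f.1 = c f := by
    intro c f
    rw [MonoidAlgebra.coeff_sum, Finsupp.finsetSum_apply, Finset.sum_eq_single f]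
    · rw [MonoidAlgebra.coeff_single, Finsupp.single_eq_same]
    · intro f' _ hne
      rw [MonoidAlgebra.coeff_single, Finsupp.single_eq_of_ne]
      exact fun h => hne (Subtype.ext h.symm)
    · exact fun h => absurd (Finset.mem_univ f) h
  refine ⟨∑ f : ↥F, MonoidAlgebra.single f.1 (g (Sum.inl f)),
    -(∑ f : ↥F, MonoidAlgebra.single f.1 (g (Sum.inr f))), ?_, ?_⟩
  · intro hx
    rw [hx, zero_mul, zero_add] at he
    have hy : (∑ f : ↥F, MonoidAlgebra.single f.1 (g (Sum.inr f)) : MonoidAlgebra ℤ Γ) = 0 :=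
      (mul_eq_zero.1 he).resolve_right hs
    rcases i with f | f
    · apply hi
      have h1 := hcoeff (fun f => g (Sum.inl f)) f
      rw [hx, MonoidAlgebra.coeff_zero, Finsupp.zero_apply] at h1
      exact h1.symm
    · apply hi
      have h1 := hcoeff (fun f => g (Sum.inr f)) f
      rw [hy, MonoidAlgebra.coeff_zero, Finsupp.zero_apply] at h1
      exact h1.symm
  · rw [neg_mul]
    exact eq_neg_of_add_eq_zero_left he

open nonZeroDivisors in
theorem tamari {Γ : Type} [Group Γ] (h : Amen Γ) [NoZeroDivisors (MonoidAlgebra ℤ Γ)] :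
    NoetherianEmbeddable Γ := by
  have hne : Nonempty (OreLocalization.OreSet (nonZeroDivisors (MonoidAlgebra ℤ Γ))) := by
    rw [OreLocalization.nonempty_oreSet_iff_of_noZeroDivisors]
    intro r s
    obtain ⟨x, y, hx, hxy⟩ := ore h r s (nonZeroDivisors.ne_zero s.2)
    exact ⟨y, ⟨x, mem_nonZeroDivisors_of_ne_zero hx⟩, hxy⟩
  obtain ⟨hO⟩ := hne
  refine ⟨OreLocalization (nonZeroDivisors (MonoidAlgebra ℤ Γ)) (MonoidAlgebra ℤ Γ),
    inferInstance, inferInstance, OreLocalization.numeratorRingHom, ?_⟩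
  exact OreLocalization.numeratorHom_inj
    (fun x hx => (mem_nonZeroDivisors_iff.1 hx).1)

end Pool.Agent.Helper39.AH
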