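import Pool.Agent.Helper39.AH.Equi
import Pool.Agent.Helper39.AH.Rel

/-!
# AH: transport along an isomorphism of groups
-/

namespace Pool.Agent.Helper39.AH

noncomputable section

variable {X R Γ Γ' : Type} [Group Γ] [Group Γ']

/-- The isomorphism of the groups of functions. -/
def mv (e : Γ ≃* Γ') : (Γ →₀ ℤ) ≃+ (Γ' →₀ ℤ) := Finsupp.domCongr e.toEquiv

lemma mv_apply (e : Γ ≃* Γ') (m : Γ →₀ ℤ) (x : Γ') : mv e m x = m (e.symm x) := by
  simp [mv]

lemma mv_sh (e : Γ ≃* Γ') (u : Γ) (m : Γ →₀ ℤ) : mv e (sh u m) = sh (e u) (mv e m) := by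
  ext x
  rw [mv_apply, sh_apply, sh_apply, mv_apply, map_mul e.symm, e.symm_apply_apply]

lemma lift_mv (e : Γ ≃* Γ') (σ : X → Γ) (u : FreeGroup X) :
    FreeGroup.lift (fun x => e (σ x)) u = e (FreeGroup.lift σ u) := by
  have h : FreeGroup.lift (fun x => e (σ x)) = (e : Γ →* Γ').comp (FreeGroup.lift σ) := by
    apply FreeGroup.ext_hom
    intro x
    simp
  rw [h]
  rfl

lemma der_mv (e : Γ ≃* Γ') (σ : X → Γ) (b : X → (Γ →₀ ℤ)) (u : FreeGroup X) :
    der (fun x => e (σ x)) (fun x => mv e (b x)) u = mv e (der σ b u) := by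
  have h := eq_der (fun x => e (σ x)) (fun u => mv e (der σ b u))
    (by
      intro u v
      rw [der_mul, map_add, mv_sh, lift_mv]) u
  simp only [der_of] at h
  exact h.symm

/-- Transport of the property FR along an isomorphism of groups. -/
theorem FR_iso (e : Γ ≃* Γ') (σ : X → Γ) (rel : R → List (X × Bool))
    (h : FR (cob σ rel).range) : FR (cob (fun x => e (σ x)) rel).range := by
  let E : (R → (Γ' →₀ ℤ)) ≃+ (R → (Γ →₀ ℤ)) :=
    { toFun := fun c ρ => (mv e).symm (c ρ)
      invFun := fun c ρ => mv e (c ρ)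
      left_inv := fun c => by funext ρ; simp
      right_inv := fun c => by funext ρ; simp
      map_add' := fun c c' => by funext ρ; simp }
  refine FR_equiv E _ _ ?_ h
  intro x
  constructor
  · rintro ⟨b, rfl⟩
    refine ⟨fun y => (mv e).symm (b y), ?_⟩
    funext ρ
    change der σ _ _ = (mv e).symm (der (fun x => e (σ x)) b (FreeGroup.mk (rel ρ)))
    apply (mv e).injective
    rw [← der_mv]
    simp
  · rintro ⟨b, hb⟩
    refine ⟨fun y => mv e (b y), ?_⟩
    apply E.injective
    rw [← hb]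
    funext ρ
    change (mv e).symm (der (fun x => e (σ x)) (fun y => mv e (b y)) (FreeGroup.mk (rel ρ))) =
      der σ b (FreeGroup.mk (rel ρ))
    rw [der_mv]
    simp

/-- The generators and relators of a presented group present it. -/
theorem pres_gn (rel : R → List (X × Bool)) : Pres (gn rel) rel := by
  unfold Pres
  have h : FreeGroup.lift (gn rel) = PresentedGroup.mk _ := by
    apply FreeGroup.ext_hom
    intro x
    rw [FreeGroup.lift_apply_of]
    rfl
  rw [h]
  exact QuotientGroup.ker_mk' _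

theorem pres_iso (e : Γ ≃* Γ') (σ : X → Γ) (rel : R → List (X × Bool)) (h : Pres σ rel) :
    Pres (fun x => e (σ x)) rel := by
  unfold Pres at h ⊢
  rw [← h]
  ext u
  rw [MonoidHom.mem_ker, MonoidHom.mem_ker, lift_mv]
  simp

lemma gn_surj (rel : R → List (X × Bool)) (g : Gp rel) : ∃ u, FreeGroup.lift (gn rel) u = g := by
  obtain ⟨u, hu⟩ := PresentedGroup.mk_surjective _ g
  refine ⟨u, ?_⟩
  have h : FreeGroup.lift (gn rel) = PresentedGroup.mk _ := by
    apply FreeGroup.ext_hom
    intro x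
    rw [FreeGroup.lift_apply_of]
    rfl
  rw [h]
  exact hu

end

end Pool.Agent.Helper39.AH
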